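import Pool.Agent.SSG.Targets
import Pool.Agent.SSC.TUP

/-! MP_d74fca_nt, SSG-CB3: at most two large prime factors. -/

set_option autoImplicit false

open scoped BigOperators Classical
open Finset

namespace SSG

open SSC SSE

theorem p_CB3 : T_CB3 := by
  intro S Y w hY hw hwY
  have hY0 : (0 : ℝ) ≤ Y := by linarith
  by_contra hcard
  rw [not_le, Finset.two_lt_card] at hcard
  obtain ⟨a, ha, b, hb, c, hc, hab, hac, hbc⟩ := hcard
  rw [mem_filter] at ha hb hc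
  obtain ⟨a1, a2, -, -⟩ := TUP_.memA hY0 ha.1
  obtain ⟨b1, b2, -, -⟩ := TUP_.memA hY0 hb.1
  obtain ⟨c1, c2, -, -⟩ := TUP_.memA hY0 hc.1
  have hab' : Nat.Coprime a b := (Nat.coprime_primes a1 b1).2 hab
  have hac' : Nat.Coprime a c := (Nat.coprime_primes a1 c1).2 hac
  have hbc' : Nat.Coprime b c := (Nat.coprime_primes b1 c1).2 hbc
  have h1 : a * b ∣ w := hab'.mul_dvd_of_dvd_of_dvd ha.2 hb.2
  have h2 : a * b * c ∣ w := (Nat.Coprime.mul_left hac' hbc').mul_dvd_of_dvd_of_dvd h1 hc.2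
  have h3 : a * b * c ≤ w := Nat.le_of_dvd hw h2
  have h4 : (a : ℝ) * b * c ≤ 4 * Y ^ 2 := le_trans (by exact_mod_cast h3) hwY
  have hp : (0 : ℝ) < Y / 16 := by linarith
  have h5 : Y / 16 * (Y / 16) < (a : ℝ) * b :=
    mul_lt_mul'' a2 b2 hp.le hp.le
  have h6 : Y / 16 * (Y / 16) * (Y / 16) < (a : ℝ) * b * c :=
    mul_lt_mul'' h5 c2 (mul_pos hp hp).le hp.le
  have h7 : Y / 16 * (Y / 16) * (Y / 16) = Y ^ 2 * (Y / 4096) := by ring
  have h8 : (8 : ℝ) ≤ Y / 4096 := by linarith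
  have h9 : Y ^ 2 * 8 ≤ Y ^ 2 * (Y / 4096) := mul_le_mul_of_nonneg_left h8 (sq_nonneg Y)
  have h10 : 0 ≤ Y ^ 2 := sq_nonneg Y
  linarith

end SSG
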