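import Pool.Agent.SSG.Targets
import Pool.Agent.SSC.HLO
import Pool.Agent.SSE.HL2

/-! # SSG, target HL3: many numbers `h`, `Λ = 1` -/

set_option autoImplicit false

open scoped BigOperators Classical
open Finset

namespace SSG

open SSC SSE SSC.HLO_ SSE.HL2_

namespace HL3_

/-- `1 ≤ log x` for `x ≥ 3` -/
lemma one_le_log (x : ℝ) (hx : 3 ≤ x) : 1 ≤ Real.log x := by
  have h1 : Real.exp 1 ≤ x := by linarith [Real.exp_one_lt_d9]
  rw [← Real.log_exp 1]
  exact Real.log_le_log (Real.exp_pos 1) h1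

/-- the tail -/
lemma tail (S : Set ℕ) (hT : Thn S) (η : ℝ) (hη : 0 < η) :
    ∃ P0 : ℝ, ∀ I : Finset ℕ, (∀ p ∈ I, p ∈ S ∧ P0 < (p : ℝ)) →
      ∑ p ∈ I, 1 / Real.sqrt p ≤ η := by
  obtain ⟨x₁, h3, h⟩ := hT η hη
  refine ⟨x₁, fun I hI => ((h x₁ le_rfl).2 I hI).trans ?_⟩
  have h1 := one_le_log x₁ h3
  exact div_le_self hη.le h1

/-- the sum of the reciprocals of the elements of `S` -/
lemma sum_inv3 (S : Set ℕ) (hT : Thn S) (hS : ∀ p ∈ S, p.Prime) :
    ∃ C : ℝ, 0 < C ∧ ∀ I : Finset ℕ, (∀ p ∈ I, p ∈ S) → ∑ p ∈ I, 1 / (p : ℝ) ≤ C := by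
  obtain ⟨P0, h⟩ := tail S hT 1 one_pos
  refine ⟨(⌊P0⌋₊ : ℝ) + 1, by positivity, fun I hI => ?_⟩
  rw [← Finset.sum_filter_add_sum_filter_not I (fun p : ℕ => P0 < (p : ℝ))]
  have e1 : ∑ p ∈ I.filter (fun p : ℕ => P0 < (p : ℝ)), 1 / (p : ℝ) ≤ 1 := by
    refine (Finset.sum_le_sum fun p hp => ?_).trans
      (h (I.filter (fun p : ℕ => P0 < (p : ℝ))) fun p hp => ?_)
    · have h1 : (1 : ℝ) ≤ p := by
        exact_mod_cast (hS p (hI p (mem_filter.1 hp).1)).one_lt.le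
      have h5 : Real.sqrt p ≤ p := by
        rw [Real.sqrt_le_left (by linarith)]
        nlinarith
      have h6 : 0 < Real.sqrt p := Real.sqrt_pos.2 (by linarith)
      exact one_div_le_one_div_of_le h6 h5
    · exact ⟨hI p (mem_filter.1 hp).1, (mem_filter.1 hp).2⟩
  have e2 : ∑ p ∈ I.filter (fun p : ℕ => ¬ P0 < (p : ℝ)), 1 / (p : ℝ) ≤ ⌊P0⌋₊ := by
    have e3 : ∑ p ∈ I.filter (fun p : ℕ => ¬ P0 < (p : ℝ)), 1 / (p : ℝ) ≤
        ∑ p ∈ I.filter (fun p : ℕ => ¬ P0 < (p : ℝ)), (1 : ℝ) := by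
      refine Finset.sum_le_sum fun p hp => ?_
      have h1 : (1 : ℝ) ≤ p := by
        exact_mod_cast (hS p (hI p (mem_filter.1 hp).1)).one_lt.le
      rw [div_le_one (by linarith)]
      exact h1
    refine e3.trans ?_
    rw [Finset.sum_const, nsmul_eq_mul, mul_one]
    have e4 : I.filter (fun p : ℕ => ¬ P0 < (p : ℝ)) ⊆ Icc 1 ⌊P0⌋₊ := by
      intro p hp
      have h1 := (hS p (hI p (mem_filter.1 hp).1)).one_lt.le
      have h2 := (mem_filter.1 hp).2
      rw [not_lt] at h2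
      rw [mem_Icc]
      exact ⟨h1, Nat.le_floor h2⟩
    have e5 := card_le_card e4
    rw [Nat.card_Icc] at e5
    have e6 : (I.filter (fun p : ℕ => ¬ P0 < (p : ℝ))).card ≤ ⌊P0⌋₊ := by omega
    exact_mod_cast e6
  linarith

end HL3_

open HL3_

theorem p_HL3 (h1 : SSC.T_BRU) : T_HL3 := by
  intro S M ρ hThn hSp hM hρ1 hρ2
  have hSp' : ∀ p ∈ S, p.Prime := fun p hp => (hSp p hp).1
  obtain ⟨C, hC, hCs⟩ := sum_inv3 S hThn hSp'
  have hMr : (0:ℝ) < M := by exact_mod_cast hM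
  have hρ0 : 0 < ρ - 1 := by linarith
  set s : ℝ := 2 + C with hs
  set c : ℝ := (ρ - 1) * Real.exp (-(2 * s)) / (2 * M) with hc
  have hc0 : 0 < c := by positivity
  obtain ⟨P0, hP0⟩ := tail S hThn (c / 16) (by positivity)
  -- the level
  set W : ℝ := max (max P0 2) (32 / c) with hW
  have hWP : P0 ≤ W := (le_max_left _ _).trans (le_max_left _ _)
  have hW2 : 2 ≤ W := (le_max_right _ _).trans (le_max_left _ _)
  have hWc : 32 / c ≤ W := le_max_right _ _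
  have hW0 : 0 < W := by linarith
  set Q : Finset ℕ := (pri 1 W).filter fun q => ¬ q ∣ M with hQ
  set m : ℕ → ℕ := fun q => if q ∈ S then q else q ^ 2 with hm
  set r : ℕ := 2 * ⌈10 * s⌉₊ + 1 with hr
  have hs1 : 1 ≤ s := by rw [hs]; linarith
  have hr1 : 20 * s ≤ (r : ℝ) + 1 := by
    have := Nat.le_ceil (10 * s)
    rw [hr]; push_cast; linarith
  set E : ℝ := 2 * ((Q.card : ℝ) + 1) ^ r with hE
  have hE0 : 0 < E := by positivity
  have hQmem : ∀ q ∈ Q, q.Prime ∧ (q : ℝ) ≤ W ∧ ¬ q ∣ M := by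
    intro q hq
    rw [hQ, mem_filter, pri, mem_filter, mem_Icc] at hq
    exact ⟨hq.1.2.1, (Nat.le_floor_iff hW0.le).1 hq.1.1.2, hq.2⟩
  have hmq : ∀ q : ℕ, q ≤ m q := by
    intro q
    simp only [hm]
    split_ifs
    · exact le_rfl
    · exact Nat.le_self_pow (by norm_num) q
  have hWs : ∑ q ∈ Q, 1 / (m q : ℝ) ≤ s := by
    have e1 : ∀ q ∈ Q, 1 / (m q : ℝ) ≤ 1 / ((q : ℝ) ^ 2) + (if q ∈ S then 1 / (q : ℝ) else 0) := by
      intro q hq
      by_cases hqS : q ∈ S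
      · simp only [hm, if_pos hqS]
        have : (0:ℝ) ≤ 1 / ((q:ℝ) ^ 2) := by positivity
        linarith
      · simp only [hm, if_neg hqS]
        push_cast
        linarith
    refine (Finset.sum_le_sum e1).trans ?_
    rw [Finset.sum_add_distrib, ← Finset.sum_filter]
    have e2 := sum_sq Q fun q hq => (hQmem q hq).1.one_lt.le
    have e3 := hCs (Q.filter fun q => q ∈ S) fun p hp => (mem_filter.1 hp).2
    rw [hs]
    linarith
  have hnum := num Q (fun q => 1 / (m q : ℝ)) s r hs1 (fun q hq => by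
    have h3 : (2:ℝ) ≤ m q := by exact_mod_cast (hQmem q hq).1.two_le.trans (hmq q)
    refine ⟨by positivity, ?_⟩
    exact one_div_le_one_div_of_le (by norm_num) h3) hWs hr1
  refine ⟨c / 2, max (max 32 (16 * (8 * E / c) + 16)) (16 * M + 16), by positivity,
    (le_max_left _ _).trans (le_max_left _ _), ?_⟩
  intro Y hY a ha
  have hY32 : 32 ≤ Y := ((le_max_left _ _).trans (le_max_left _ _)).trans hY
  have hY1 : 16 * (8 * E / c) + 16 ≤ Y :=
    ((le_max_right _ _).trans (le_max_left _ _)).trans hY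
  have hY2 : 16 * (M:ℝ) + 16 ≤ Y := (le_max_right _ _).trans hY
  have hY0 : 0 < Y := by linarith
  -- the prime `a`
  rw [AA, mem_filter, pri, mem_filter, mem_Icc] at ha
  obtain ⟨⟨⟨ha1, ha2⟩, hap, haY⟩, haS⟩ := ha
  have haY2 : (a : ℝ) ≤ Y := (Nat.le_floor_iff hY0.le).1 ha2
  have har : (0:ℝ) < a := by exact_mod_cast hap.pos
  obtain ⟨Λ, hΛ⟩ : ∃ Λ : ℕ, Λ = 1 := ⟨1, rfl⟩
  suffices hgoal : c / 2 * (a : ℝ) ≤ ((HH S M ρ a Λ).card : ℝ) by
    rw [hΛ] at hgoal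
    exact hgoal
  have hΛR : (Λ : ℝ) = 1 := by rw [hΛ]; simp
  have hΛsq : Squarefree Λ := by rw [hΛ]; exact squarefree_one
  have hΛ0 : 0 < Λ := by omega
  have hΛr : (0:ℝ) < Λ := by exact_mod_cast hΛ0
  have hΛa : Λ < a := by rw [hΛ]; exact hap.one_lt
  have hfac : ∀ l : ℕ, l.Prime → ¬ l ∣ Λ := by
    intro l hl h3
    rw [hΛ] at h3
    exact hl.one_lt.ne' (Nat.dvd_one.1 h3)
  -- the class `b`
  have hcop : (a * Λ).Coprime M := by
    rw [hΛ, mul_one, hap.coprime_iff_not_dvd]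
    intro h3
    have h4 : (a : ℝ) ≤ M := by exact_mod_cast Nat.le_of_dvd hM h3
    linarith
  obtain ⟨b, hb⟩ := exb M (a * Λ) hM hcop
  set u : ℝ := (a : ℝ) / Λ with hu
  set v : ℝ := ρ * a / Λ with hv
  have hu0 : 0 < u := by positivity
  have huv : v = ρ * u := by rw [hv, hu]; ring
  have huv' : u ≤ v := by rw [huv]; nlinarith
  have hv2 : v ≤ 2 * u := by rw [huv]; nlinarith
  have hv0 : 0 < v := lt_of_lt_of_le hu0 huv'
  have hBRU := h1 Q m M b r u v hM ⟨⌈10 * s⌉₊, rfl⟩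
    (fun q hq => ⟨(hQmem q hq).1, (Nat.Prime.coprime_iff_not_dvd (hQmem q hq).1).2
      (hQmem q hq).2.2, by simp only [hm]; split_ifs <;> simp⟩) hu0.le huv'
  have hmain : u * c ≤ (v - u) / M * ((∏ q ∈ Q, (1 - 1 / (m q : ℝ))) -
      (∑ q ∈ Q, 1 / (m q : ℝ)) ^ (r + 1) / (r + 1).factorial) := by
    have e1 : u * c = (v - u) / M * (Real.exp (-(2 * s)) / 2) := by
      rw [huv, hc]
      field_simp
    rw [e1]
    exact mul_le_mul_of_nonneg_left hnum (div_nonneg (by linarith) hMr.le)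
  -- the size of `u`
  have huE : E ≤ u * (c / 8) := by
    have e1 : 8 * E / c ≤ u := by
      rw [hu, hΛR, div_one]
      linarith
    rw [div_le_iff₀ hc0] at e1
    linarith
  -- the exceptional sets
  set N := ⌊v⌋₊ with hN
  have hNv : (N : ℝ) ≤ v := Nat.floor_le hv0.le
  set G := (Icc 1 N).filter fun h : ℕ => u < (h : ℝ) ∧ (h : ℝ) < v ∧ h ≡ b [MOD M] ∧
      ∀ q ∈ Q, ¬ m q ∣ h with hG
  set T3 : Finset ℕ := (Icc 1 N).filter fun q : ℕ => q ∈ S ∧ W < (q : ℝ) with hT3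
  set B2 := (Icc 1 N).filter fun h : ℕ => ∃ t ∈ Ioc ⌊W⌋₊ N, t ^ 2 ∣ h with hB2
  set B3 := (Icc 1 N).filter fun h : ℕ => ∃ t ∈ T3, t ∣ h with hB3
  have hsub : G ⊆ HH S M ρ a Λ ∪ (B2 ∪ B3) := by
    intro h hh
    by_contra hcon
    simp only [mem_union, not_or] at hcon
    obtain ⟨c0, c2, c3⟩ := hcon
    rw [hG, mem_filter] at hh
    obtain ⟨hI, g1, g2, g3, g4⟩ := hh
    have hI' := mem_Icc.1 hI
    refine c0 (core S M ρ Y W a Λ b Q m hM hρ2 hSp' hap haY2 (by linarith) hΛa hΛsq hb ?_ ?_ h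
      hI'.1 g1 g2 g3 g4 ?_ ?_ ?_)
    · intro q hqp hqz hqM
      rw [hQ, mem_filter, pri, mem_filter, mem_Icc]
      exact ⟨⟨⟨hqp.one_lt.le, (Nat.le_floor_iff hW0.le).2 hqz⟩, hqp,
        by exact_mod_cast hqp.one_lt⟩, hqM⟩
    · intro q
      refine ⟨fun hq => by simp only [hm, if_pos hq], ?_⟩
      simp only [hm]
      split_ifs
      · exact dvd_mul_right q q
      · rw [sq]
    · intro l hl hlΛ hlh
      exact hfac l hl hlΛ
    · intro q hqp hqz hqq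
      refine c2 (mem_filter.2 ⟨hI, q, mem_Ioc.2 ⟨?_, ?_⟩, by rw [sq]; exact hqq⟩)
      · exact (Nat.floor_lt hW0.le).2 hqz
      · have h3 : q * q ≤ h := Nat.le_of_dvd (by omega) hqq
        have h4 : q ≤ q * q := Nat.le_mul_self q
        omega
    · intro q hqS hqz hqY hqh
      refine c3 (mem_filter.2 ⟨hI, q, ?_, hqh⟩)
      rw [hT3, mem_filter, mem_Icc]
      exact ⟨⟨(hSp' q hqS).one_lt.le, (Nat.le_of_dvd (by omega) hqh).trans hI'.2⟩, hqS, hqz⟩
  have hcard : (G.card : ℝ) ≤ (HH S M ρ a Λ).card + (B2.card + B3.card) := by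
    have e1 := (card_le_card hsub).trans ((card_union_le _ _).trans
      (Nat.add_le_add_left (card_union_le _ _) _))
    exact_mod_cast e1
  have hz1 : 1 ≤ ⌊W⌋₊ := (Nat.one_le_floor_iff _).2 (by linarith)
  have hb2 : (B2.card : ℝ) ≤ u * (c / 8) := by
    refine (mult (Ioc ⌊W⌋₊ N) (fun t => t ^ 2) N v hNv).trans ?_
    rcases le_or_gt ⌊W⌋₊ N with h3 | h3
    · have h4 := sum_Ioc_inv_sq_le_sub (α := ℝ) (k := ⌊W⌋₊) (n := N) (by omega) h3
      have h5 : ∑ t ∈ Ioc ⌊W⌋₊ N, v / (((t ^ 2 : ℕ)) : ℝ)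
          = v * ∑ t ∈ Ioc ⌊W⌋₊ N, ((t : ℝ) ^ 2)⁻¹ := by
        rw [Finset.mul_sum]
        refine Finset.sum_congr rfl fun t _ => ?_
        push_cast
        rw [div_eq_mul_inv]
      rw [h5]
      have h6 : ((⌊W⌋₊ : ℕ) : ℝ)⁻¹ ≤ 2 / W := by
        have h7 : W / 2 ≤ (⌊W⌋₊ : ℝ) := by
          have := Nat.lt_floor_add_one W
          have h8 : (1:ℝ) ≤ (⌊W⌋₊ : ℝ) := by exact_mod_cast hz1
          linarith
        calc ((⌊W⌋₊ : ℕ) : ℝ)⁻¹ ≤ (W / 2)⁻¹ := inv_anti₀ (by positivity) h7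
          _ = 2 / W := by rw [inv_div]
      have h9 : (0:ℝ) ≤ ((N : ℕ) : ℝ)⁻¹ := by positivity
      calc v * ∑ t ∈ Ioc ⌊W⌋₊ N, ((t : ℝ) ^ 2)⁻¹ ≤ v * (2 / W) :=
            mul_le_mul_of_nonneg_left (by linarith) hv0.le
        _ ≤ (2 * u) * (2 / W) := mul_le_mul_of_nonneg_right hv2 (by positivity)
        _ = u * (4 / W) := by ring
        _ ≤ u * (c / 8) := by
            refine mul_le_mul_of_nonneg_left ?_ hu0.le
            rw [div_le_iff₀ hW0]
            rw [div_le_iff₀ hc0] at hWc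
            linarith
    · rw [Ioc_eq_empty (by omega)]
      simp only [sum_empty]
      positivity
  have hb3 : (B3.card : ℝ) ≤ u * (c / 8) := by
    refine (mult T3 (fun t => t) N v hNv).trans ?_
    have h3 : ∑ t ∈ T3, 1 / Real.sqrt t ≤ c / 16 := by
      refine hP0 T3 fun p hp => ?_
      rw [hT3, mem_filter] at hp
      exact ⟨hp.2.1, lt_of_le_of_lt hWP hp.2.2⟩
    calc ∑ t ∈ T3, v / (t : ℝ) ≤ ∑ t ∈ T3, v * (1 / Real.sqrt t) := by
          refine Finset.sum_le_sum fun t ht => ?_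
          rw [hT3, mem_filter, mem_Icc] at ht
          have h4 : (1:ℝ) ≤ t := by exact_mod_cast ht.1.1
          have h5 : Real.sqrt t ≤ t := by
            rw [Real.sqrt_le_left (by linarith)]
            nlinarith
          have h6 : 0 < Real.sqrt t := Real.sqrt_pos.2 (by linarith)
          rw [mul_one_div]
          exact div_le_div_of_nonneg_left hv0.le h6 h5
      _ = v * ∑ t ∈ T3, 1 / Real.sqrt t := by rw [Finset.mul_sum]
      _ ≤ (2 * u) * (c / 16) := by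
          refine mul_le_mul hv2 h3 ?_ (by positivity)
          exact Finset.sum_nonneg fun t _ => by positivity
      _ = u * (c / 8) := by ring
  have hBRU' : u * c - E ≤ G.card := by
    refine le_trans ?_ hBRU
    linarith
  have hfin : c / 2 * u ≤ (HH S M ρ a Λ).card := by nlinarith
  have hua : u = a := by rw [hu, hΛR, div_one]
  rw [hua] at hfin
  exact hfin

end SSG
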