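import Pool.Agent.SSG.Targets
import Pool.Agent.SSE.KT2

/-!
# KM3: the numbers killed by one prime `p ≤ Y^2` (helper23, edit of `SSE/KT2.lean`)
-/

set_option autoImplicit false

open scoped BigOperators Classical
open Finset

namespace SSG

open SSC SSE

/-- the index set of the fibres -/
theorem KM3_.mem {S : Set ℕ} {M : ℕ} {ρ Y z Z : ℝ} {t : ℕ × Finset ℕ × ℕ}
    (h : t ∈ UU S M ρ Y z Z 0) : t.1 ∈ AA S Y ∧ t.2.1 = ∅ ∧ t.2.2 ∈ HH S M ρ t.1 1 := by
  obtain ⟨h1, h2, h3⟩ := TUP_.mem h
  rw [mem_powersetCard] at h2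
  have h4 : t.2.1 = ∅ := Finset.card_eq_zero.1 h2.2
  rw [h4, Finset.prod_empty] at h3
  exact ⟨h1, h4, h3⟩

theorem KM3_.sum (A : Finset ℕ) (f : ℕ → ℝ) :
    ∑ s ∈ A ×ˢ ({∅} : Finset (Finset ℕ)), f s.1 = ∑ a ∈ A, f a := by
  rw [Finset.sum_product]
  simp

theorem p_KM3 (h1 : SSE.T_KI2) (h2 : SSC.T_TUP) (h4 : T_CB3) : T_KM3 := by
  intro S K M ρ Y z Z hD hY hz hZ hZY p hpS hpY V hV hVK
  obtain ⟨hM, hρ1, hρ2, hSp, -, hBin⟩ := hD
  have hY32 : (32 : ℝ) ≤ Y := by
    have : (32 : ℝ) ≤ 2 ^ 15 := by norm_num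
    linarith
  have hYpos : 0 < Y := by linarith
  have hSp' : ∀ p ∈ S, p.Prime := fun q hq => (hSp q hq).1
  have hpp := (hSp p hpS).1
  have hp2 := (hSp p hpS).2
  have hppos : (0 : ℝ) < p := by exact_mod_cast hpp.pos
  have hsq : 0 < Real.sqrt p := Real.sqrt_pos.2 hppos
  have hsY : Real.sqrt p ≤ Y := by
    have := Real.sqrt_le_sqrt hpY
    rwa [Real.sqrt_sq hYpos.le] at this
  have hZm' : Z ^ 0 ≤ Y / 16 := by
    rw [pow_zero]
    linarith
  obtain ⟨T1, T2, -⟩ := h2 S M ρ Y z Z 0 hSp' hM hρ1 hρ2 hY32 (by linarith) hZ hZm'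
  have hRR := KT2_.RR_nonneg S Y
  have hlast : 0 ≤ 60 * (RR S Y / Real.sqrt p) := by positivity
  set F : Set ℕ := {D : ℕ | Adm M ρ D ∧ K D p} with hF
  have hF1 : ∀ D ∈ F, 0 < D ∧ Squarefree D := by
    intro D hDF
    obtain ⟨a, c, ha, hDe, hac, -, hsq, -⟩ := hDF.1
    refine ⟨?_, hsq⟩
    exact Nat.pos_of_ne_zero hsq.ne_zero
  have hVF : ∀ t ∈ V, dd t ∈ F ∧ ((dd t : ℕ) : ℝ) ≤ 2 * Y ^ 2 := by
    intro t ht
    have h3 := T1 t (hV ht)
    exact ⟨⟨h3.1, hVK t ht⟩, h3.2.2.1⟩
  by_cases hN : 2 ≤ NS F (2 * Y ^ 2)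
  · obtain ⟨w, hw0, hw2, -, hwc⟩ := h1 p F hpp hp2 hF1 (hBin p hpS) (2 * Y ^ 2)
      (by nlinarith) hN
    set V1 := V.filter fun t => t.1 ∣ w with hV1
    set V3 := V.filter fun t => ¬ t.1 ∣ w with hV3
    have hcov : (V.card : ℝ) = V1.card + V3.card := by
      have := Finset.card_filter_add_card_filter_not (s := V) (fun t => t.1 ∣ w)
      rw [← this]
      push_cast
      rfl
    -- V1
    have hb1 : (V1.card : ℝ) ≤ 4 * Y := by
      have h3 := KT2_.fib V1 (((AA S Y).filter fun a => a ∣ w) ×ˢ ({∅} : Finset (Finset ℕ)))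
        (fun s => 2 * (s.1 : ℝ)) (by
          intro t ht
          rw [hV1, mem_filter] at ht
          obtain ⟨c1, c2, -⟩ := KM3_.mem (hV ht.1)
          rw [mem_product, mem_filter, mem_singleton]
          exact ⟨⟨c1, ht.2⟩, c2⟩) (fun s hs => by
            rw [mem_product, mem_singleton] at hs
            have h5 := KT2_.triv hρ2 hY32 (by linarith) hZ V1
              ((Finset.filter_subset _ _).trans hV) s
            rw [hs.2, Finset.prod_empty, mul_one] at h5
            exact h5)
      refine h3.trans ?_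
      rw [KM3_.sum _ (fun a => 2 * (a : ℝ))]
      calc ∑ a ∈ (AA S Y).filter (fun a => a ∣ w), 2 * (a : ℝ)
          ≤ ∑ a ∈ (AA S Y).filter (fun a => a ∣ w), 2 * Y := by
            refine Finset.sum_le_sum fun a ha => ?_
            rw [mem_filter] at ha
            have := (TUP_.memA hYpos.le ha.1).2.2.1
            linarith
        _ = (((AA S Y).filter fun a => a ∣ w).card : ℝ) * (2 * Y) := by
            rw [Finset.sum_const, nsmul_eq_mul]
        _ ≤ (2 : ℝ) * (2 * Y) := by
            refine mul_le_mul_of_nonneg_right ?_ (by positivity)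
            exact_mod_cast h4 S Y w hY hw0 (by linarith)
        _ = 4 * Y := by ring
    -- V3
    have hb3 : (V3.card : ℝ) ≤ 60 * (RR S Y / Real.sqrt p) := by
      have h3 := KT2_.fib V3 ((AA S Y) ×ˢ ({∅} : Finset (Finset ℕ)))
        (fun s => 60 / Real.sqrt p * (s.1 : ℝ)) (by
          intro t ht
          rw [hV3, mem_filter] at ht
          obtain ⟨c1, c2, -⟩ := KM3_.mem (hV ht.1)
          rw [mem_product, mem_singleton]
          exact ⟨c1, c2⟩) ?_
      · refine h3.trans (le_of_eq ?_)
        rw [KM3_.sum _ (fun a => 60 / Real.sqrt p * (a : ℝ)), ← Finset.mul_sum]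
        unfold RR
        ring
      · intro s hs
        rw [mem_product, mem_singleton] at hs
        obtain ⟨hsa, hsT⟩ := hs
        obtain ⟨a1, a2, a3, a4⟩ := TUP_.memA hYpos.le hsa
        have hapos : (0 : ℝ) < s.1 := by exact_mod_cast a1.pos
        rcases (V3.filter fun t => (t.1, t.2.1) = s).eq_empty_or_nonempty with he | ⟨t0, ht0⟩
        · rw [he, card_empty, Nat.cast_zero]
          positivity
        rw [mem_filter] at ht0
        have ht0V := mem_filter.1 ht0.1
        have hs1 : t0.1 = s.1 := by rw [← ht0.2]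
        have hnw : ¬ s.1 ∣ w := by
          rw [← hs1]
          exact ht0V.2
        have hmain := hwc s.1 (2 * s.1) a1.squarefree (by
          intro l hl hld
          have h5 : l = s.1 := (Nat.prime_dvd_prime_iff_eq hl a1).1 hld
          subst h5
          refine ⟨?_, ?_, hnw⟩
          · have h6 : (2 : ℝ) < ((s.1 : ℕ) : ℝ) := by
              have h7 : (2 : ℝ) ^ 15 / 16 = 2048 := by norm_num
              have h8 : (2 : ℝ) ^ 15 / 16 ≤ Y / 16 := by gcongr
              linarith
            exact_mod_cast h6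
          · intro h6
            exact a4 (h6 ▸ hpS)) (by positivity)
          ((V3.filter fun t => (t.1, t.2.1) = s).image fun t => t.2.2) (by
            intro h hh
            rw [mem_image] at hh
            obtain ⟨t, ht, rfl⟩ := hh
            rw [mem_filter] at ht
            have htV := (mem_filter.1 ht.1).1
            have e1 : t.1 = s.1 := by rw [← ht.2]
            obtain ⟨-, e2, c3⟩ := KM3_.mem (hV htV)
            have e3 : s.1 * t.2.2 = dd t := by
              unfold dd
              rw [e1, e2, Finset.prod_empty, mul_one]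
            rw [e3]
            refine ⟨(hVF t htV).1, (hVF t htV).2, ?_⟩
            obtain ⟨-, -, b2, -, -, -⟩ := TUP_.memH c3
            rw [e1, Nat.cast_one, one_mul] at b2
            nlinarith)
        have hcardim : ((V3.filter fun t => (t.1, t.2.1) = s).image fun t => t.2.2).card =
            (V3.filter fun t => (t.1, t.2.1) = s).card := by
          refine Finset.card_image_of_injOn ?_
          intro t ht t' ht' hh
          rw [Finset.mem_coe, mem_filter] at ht ht'
          have e := ht.2.trans ht'.2.symm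
          have e1 : t.1 = t'.1 := (Prod.mk.inj e).1
          have e2 : t.2.1 = t'.2.1 := (Prod.mk.inj e).2
          exact Prod.ext e1 (Prod.ext e2 hh)
        rw [hcardim, a1.primeFactors, Finset.card_singleton, pow_one] at hmain
        refine hmain.trans ?_
        have hX : 1 ≤ 16 * ((s.1 : ℝ) / Real.sqrt p) := by
          rw [← mul_div_assoc, le_div_iff₀ hsq, one_mul]
          linarith
        calc (2 : ℝ) * (1 + 7 * (2 * (s.1 : ℝ)) / Real.sqrt p)
            = 2 * 1 + 28 * ((s.1 : ℝ) / Real.sqrt p) := by ring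
          _ ≤ 2 * (16 * ((s.1 : ℝ) / Real.sqrt p)) + 28 * ((s.1 : ℝ) / Real.sqrt p) := by
              linarith
          _ = 60 / Real.sqrt p * (s.1 : ℝ) := by ring
    rw [hcov]
    linarith
  · -- at most one value of `dd`
    have hone : (V.card : ℝ) ≤ 1 := by
      rcases V.eq_empty_or_nonempty with he | ⟨t0, ht0⟩
      · rw [he, card_empty, Nat.cast_zero]
        norm_num
      have hfin : {D : ℕ | D ∈ F ∧ (D : ℝ) ≤ 2 * Y ^ 2}.Finite := by
        refine (Set.finite_Iic ⌊2 * Y ^ 2⌋₊).subset ?_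
        intro D hD
        exact Nat.le_floor hD.2
      have hall : ∀ t ∈ V, dd t = dd t0 := by
        intro t ht
        by_contra hne
        apply hN
        unfold NS
        have : ({dd t, dd t0} : Set ℕ) ⊆ {D : ℕ | D ∈ F ∧ (D : ℝ) ≤ 2 * Y ^ 2} := by
          intro D hD
          rcases hD with rfl | hD
          · exact hVF t ht
          · rw [Set.mem_singleton_iff] at hD
            rw [hD]
            exact hVF t0 ht0
        have h3 := Set.ncard_le_ncard this hfin
        rw [Set.ncard_pair hne] at h3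
        exact_mod_cast h3
      have h5 := T2 (dd t0)
      rw [pow_zero] at h5
      refine le_trans ?_ h5
      have : V ⊆ (UU S M ρ Y z Z 0).filter fun t => dd t = dd t0 := by
        intro t ht
        rw [mem_filter]
        exact ⟨hV ht, hall t ht⟩
      exact_mod_cast Finset.card_le_card this
    linarith

end SSG
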