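import Pool.Agent.SSG.Targets
import Pool.Agent.SSE.KT2

/-!
# KS3: the tuples (with `m = 0`) killed by one small prime `p ≤ z`
-/

set_option autoImplicit false

open scoped BigOperators Classical
open Finset

namespace SSG

open SSC SSE

/-- counting by fibres of `t ↦ (t.1, t.2.1)` for `m = 0` -/
theorem KS3_.fib0 {S : Set ℕ} {M : ℕ} {ρ Y z Z : ℝ} (V : Finset (ℕ × Finset ℕ × ℕ))
    (hV : V ⊆ UU S M ρ Y z Z 0) (A : Finset ℕ) (f : ℕ → ℝ) (h1 : ∀ t ∈ V, t.1 ∈ A)
    (h2 : ∀ a ∈ A, (((V.filter fun t => (t.1, t.2.1) = (a, (∅ : Finset ℕ))).card : ℕ) : ℝ) ≤ f a) :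
    (V.card : ℝ) ≤ ∑ a ∈ A, f a := by
  have h3 := KT2_.fib V (A ×ˢ {(∅ : Finset ℕ)}) (fun s => f s.1) (by
    intro t ht
    obtain ⟨-, c2, -⟩ := TUP_.mem (hV ht)
    rw [mem_powersetCard, Finset.card_eq_zero] at c2
    rw [mem_product, mem_singleton]
    exact ⟨h1 t ht, c2.2⟩) (by
    intro s hs
    rw [mem_product, mem_singleton] at hs
    have e : s = (s.1, (∅ : Finset ℕ)) := Prod.ext rfl hs.2
    rw [e]
    exact h2 s.1 hs.1)
  refine h3.trans (le_of_eq ?_)
  rw [Finset.sum_product]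
  simp

/-- the sum over the primes not dividing `w` -/
theorem KS3_.sumP (Y z G : ℝ) (w : ℕ) (hw : w ≠ 0) (hY : 32 ≤ Y) (hz : 3 ≤ z)
    (hw2 : (w : ℝ) ≤ 4 * Y ^ 2) (hG : 8 * Real.log Y ≤ G * z) (Q : Finset ℕ)
    (hQ : ∀ l ∈ Q, l.Prime ∧ z < (l : ℝ)) (hs : G ≤ ∑ l ∈ Q, 1 / (l : ℝ)) :
    G / 2 ≤ ∑ l ∈ Q.filter (fun l => ¬ l ∣ w), 1 / (l : ℝ) := by
  have hz0 : 0 < z := by linarith
  have h1 := Finset.sum_filter_add_sum_filter_not Q (fun l => ¬ l ∣ w) (fun l => 1 / (l : ℝ))
  have h2 : ∑ l ∈ Q.filter (fun l => ¬ ¬ l ∣ w), 1 / (l : ℝ) ≤ 4 * Real.log Y * (1 / z) := by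
    calc ∑ l ∈ Q.filter (fun l => ¬ ¬ l ∣ w), 1 / (l : ℝ)
        ≤ ∑ l ∈ Q.filter (fun l => ¬ ¬ l ∣ w), 1 / z := by
          refine Finset.sum_le_sum fun l hl => ?_
          rw [mem_filter] at hl
          exact one_div_le_one_div_of_le hz0 (hQ l hl.1).2.le
      _ = ((Q.filter (fun l => ¬ ¬ l ∣ w)).card : ℝ) * (1 / z) := by
          rw [Finset.sum_const, nsmul_eq_mul]
      _ ≤ (w.primeFactors.card : ℝ) * (1 / z) := by
          refine mul_le_mul_of_nonneg_right ?_ (by positivity)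
          have : Q.filter (fun l => ¬ ¬ l ∣ w) ⊆ w.primeFactors := by
            intro l hl
            rw [mem_filter, not_not] at hl
            exact Nat.mem_primeFactors.2 ⟨(hQ l hl.1).1, hl.2, hw⟩
          exact_mod_cast Finset.card_le_card this
      _ ≤ 4 * Real.log Y * (1 / z) :=
          mul_le_mul_of_nonneg_right (KT2_.omega Y w hw hY hw2) (by positivity)
  have h3 : 4 * Real.log Y * (1 / z) ≤ G / 2 := by
    rw [mul_one_div, div_le_iff₀ hz0]
    linarith
  linarith

/-- KS3 -/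
theorem p_KS3 (h1 : SSE.T_KI2) (h2 : SSC.T_TUP) (h3 : T_TUR) (h4 : T_CB3) : T_KS3 := by
  intro S K M ρ Y z Z G hD hY hz hZ hZY hG hGz p hpS hpz hsum V hV hVK
  obtain ⟨hM, hρ1, hρ2, hSp, -, hBin⟩ := hD
  have hY32 : 32 ≤ Y := by
    have : (32 : ℝ) ≤ 2 ^ 15 := by norm_num
    linarith
  have hYpos : 0 < Y := by linarith
  have hz0 : 0 < z := by linarith
  have hZ0 : 0 ≤ Z := by linarith
  have hSp' : ∀ p ∈ S, p.Prime := fun q hq => (hSp q hq).1
  have hpp := (hSp p hpS).1
  have hp2 := (hSp p hpS).2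
  have hZm' : Z ^ 0 ≤ Y / 16 := by
    rw [pow_zero]
    linarith
  obtain ⟨T1, T2, -⟩ := h2 S M ρ Y z Z 0 hSp' hM hρ1 hρ2 hY32 (by linarith) hZ hZm'
  have hRR := KT2_.RR_nonneg S Y
  have hRG : 0 ≤ 8 * (RR S Y / G) := by positivity
  set F : Set ℕ := {D : ℕ | Adm M ρ D ∧ K D p} with hF
  have hF1 : ∀ D ∈ F, 0 < D ∧ Squarefree D := by
    intro D hDF
    obtain ⟨a, c, ha, hDe, hac, -, hsq, -⟩ := hDF.1
    refine ⟨?_, hsq⟩
    exact Nat.pos_of_ne_zero hsq.ne_zero
  have hVF : ∀ t ∈ V, dd t ∈ F ∧ ((dd t : ℕ) : ℝ) ≤ 2 * Y ^ 2 := by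
    intro t ht
    have h3 := T1 t (hV ht)
    exact ⟨⟨h3.1, hVK t ht⟩, h3.2.2.1⟩
  by_cases hN : 2 ≤ NS F (2 * Y ^ 2)
  · obtain ⟨w, hw0, hw2, hwch, -⟩ := h1 p F hpp hp2 hF1 (hBin p hpS) (2 * Y ^ 2)
      (by nlinarith) hN
    have hw4 : (w : ℝ) ≤ 4 * Y ^ 2 := by linarith
    set V1 := V.filter fun t => t.1 ∣ w with hV1
    set V3 := V.filter fun t => ¬ t.1 ∣ w with hV3
    have hcov : (V.card : ℝ) = V1.card + V3.card := by
      have := Finset.card_filter_add_card_filter_not (s := V) (fun t => t.1 ∣ w)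
      exact_mod_cast this.symm
    -- the tuples with `a ∣ w`
    have hb1 : (V1.card : ℝ) ≤ 4 * Y := by
      have h5 := KS3_.fib0 V1 ((Finset.filter_subset _ _).trans hV)
        ((AA S Y).filter fun a => a ∣ w) (fun a => 2 * (a : ℝ)) (by
          intro t ht
          rw [hV1, mem_filter] at ht
          obtain ⟨c1, -, -⟩ := TUP_.mem (hV ht.1)
          rw [mem_filter]
          exact ⟨c1, ht.2⟩) (by
          intro a _
          have := KT2_.triv hρ2 hY32 (by linarith) hZ V1
            ((Finset.filter_subset _ _).trans hV) (a, ∅)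
          simpa using this)
      refine h5.trans ?_
      calc ∑ a ∈ (AA S Y).filter (fun a => a ∣ w), 2 * (a : ℝ)
          ≤ ∑ a ∈ (AA S Y).filter (fun a => a ∣ w), 2 * Y := by
            refine Finset.sum_le_sum fun a ha => ?_
            rw [mem_filter] at ha
            have := (TUP_.memA hYpos.le ha.1).2.2.1
            linarith
        _ = (((AA S Y).filter fun a => a ∣ w).card : ℝ) * (2 * Y) := by
            rw [Finset.sum_const, nsmul_eq_mul]
        _ ≤ 2 * (2 * Y) := by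
            refine mul_le_mul_of_nonneg_right ?_ (by positivity)
            exact_mod_cast h4 S Y w hY hw0 hw4
        _ = 4 * Y := by ring
    -- the other tuples
    have hb3 : (V3.card : ℝ) ≤ 8 * (RR S Y / G) := by
      set P := ((LL S z Z).filter (fun l => SSN.ch p l ≠ 1)).filter (fun l => ¬ l ∣ w) with hP
      have hPm : ∀ l ∈ P, l.Prime ∧ z < (l : ℝ) ∧ (l : ℝ) ≤ Z ∧ l ∉ S ∧ SSN.ch p l ≠ 1 ∧
          ¬ l ∣ w := by
        intro l hl
        rw [hP, mem_filter, mem_filter] at hl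
        obtain ⟨l1, l2, l3, l4⟩ := TUP_.memL hZ0 hl.1.1
        exact ⟨l1, l2, l3, l4, hl.1.2, hl.2⟩
      have hPs : G / 2 ≤ ∑ l ∈ P, 1 / (l : ℝ) :=
        KS3_.sumP Y z G w hw0.ne' hY32 hz hw4 hGz _ (by
          intro l hl
          rw [mem_filter] at hl
          obtain ⟨l1, l2, -, -⟩ := TUP_.memL hZ0 hl.1
          exact ⟨l1, l2⟩) hsum
      have hP0 : 0 < ∑ l ∈ P, 1 / (l : ℝ) := by linarith
      have h5 := KS3_.fib0 V3 ((Finset.filter_subset _ _).trans hV) (AA S Y)
        (fun a => 8 * ((a : ℝ) / G)) (by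
          intro t ht
          rw [hV3, mem_filter] at ht
          exact (TUP_.mem (hV ht.1)).1) (by
          intro a ha
          obtain ⟨a1, a2, a3, -⟩ := TUP_.memA hYpos.le ha
          have hapos : (0 : ℝ) < a := by exact_mod_cast a1.pos
          have h6 := h3 P (2 * (a : ℝ)) Z (fun l hl => ⟨(hPm l hl).1, (hPm l hl).2.2.1⟩)
            (by positivity) hZ0 hP0
          have h7 : (V3.filter fun t => (t.1, t.2.1) = (a, (∅ : Finset ℕ))).card ≤
              ((Icc 1 ⌊2 * (a : ℝ)⌋₊).filter fun h : ℕ => ∀ l ∈ P, ¬ l ∣ h).card := by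
            refine Finset.card_le_card_of_injOn (fun t => t.2.2) ?_ ?_
            · intro t ht
              rw [Finset.mem_coe, mem_filter, hV3, mem_filter] at ht
              obtain ⟨⟨htV, htw⟩, hte⟩ := ht
              have e1 : t.1 = a := (Prod.mk.inj hte).1
              have e2 : t.2.1 = ∅ := (Prod.mk.inj hte).2
              obtain ⟨-, -, c3⟩ := TUP_.mem (hV htV)
              obtain ⟨b0, -, b2, -, -, -⟩ := TUP_.memH c3
              rw [e1, e2, Finset.prod_empty, Nat.cast_one, one_mul] at b2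
              rw [Finset.mem_coe, mem_filter, mem_Icc]
              refine ⟨⟨b0, Nat.le_floor ?_⟩, ?_⟩
              · nlinarith
              · intro l hl hlh
                obtain ⟨l1, l2, l3, l4, l5, l6⟩ := hPm l hl
                refine l5 (hwch (dd t) (hVF t htV).1 (hVF t htV).2 l l1 ?_ ?_ ?_ l6)
                · have : (2 : ℝ) < l := by linarith
                  exact_mod_cast this
                · rintro rfl
                  exact l4 hpS
                · unfold dd
                  exact hlh.mul_left _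
            · intro t ht t' ht' hh
              rw [Finset.mem_coe, mem_filter] at ht ht'
              have e := ht.2.trans ht'.2.symm
              have e1 : t.1 = t'.1 := (Prod.mk.inj e).1
              have e2 : t.2.1 = t'.2.1 := (Prod.mk.inj e).2
              exact Prod.ext e1 (Prod.ext e2 hh)
          have h8 : (((V3.filter fun t => (t.1, t.2.1) = (a, (∅ : Finset ℕ))).card : ℕ) : ℝ) ≤
              (((Icc 1 ⌊2 * (a : ℝ)⌋₊).filter fun h : ℕ => ∀ l ∈ P, ¬ l ∣ h).card : ℝ) := by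
            exact_mod_cast h7
          refine h8.trans (h6.trans ?_)
          have h9 : 2 * (a : ℝ) + 2 * Z ≤ 4 * a := by linarith
          calc (2 * (a : ℝ) + 2 * Z) / ∑ l ∈ P, 1 / (l : ℝ)
              ≤ (4 * a) / (G / 2) := by
                refine div_le_div₀ (by positivity) h9 (by positivity) hPs
            _ = 8 * ((a : ℝ) / G) := by
                field_simp
                ring)
      refine h5.trans (le_of_eq ?_)
      unfold RR
      rw [← Finset.mul_sum, Finset.sum_div]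
    rw [hcov]
    linarith
  · -- at most one value of `dd`
    refine le_trans ?_ (by linarith : (1 : ℝ) ≤ 1 + 4 * Y + 8 * (RR S Y / G))
    rcases V.eq_empty_or_nonempty with he | ⟨t0, ht0⟩
    · rw [he, card_empty, Nat.cast_zero]
      norm_num
    have hfin : {D : ℕ | D ∈ F ∧ (D : ℝ) ≤ 2 * Y ^ 2}.Finite := by
      refine (Set.finite_Iic ⌊2 * Y ^ 2⌋₊).subset ?_
      intro D hD
      exact Nat.le_floor hD.2
    have hall : ∀ t ∈ V, dd t = dd t0 := by
      intro t ht
      by_contra hne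
      apply hN
      unfold NS
      have : ({dd t, dd t0} : Set ℕ) ⊆ {D : ℕ | D ∈ F ∧ (D : ℝ) ≤ 2 * Y ^ 2} := by
        intro D hD
        rcases hD with rfl | hD
        · exact hVF t ht
        · rw [Set.mem_singleton_iff] at hD
          rw [hD]
          exact hVF t0 ht0
      have h3 := Set.ncard_le_ncard this hfin
      rw [Set.ncard_pair hne] at h3
      exact_mod_cast h3
    have h5 := T2 (dd t0)
    rw [pow_zero] at h5
    refine le_trans ?_ h5
    have : V ⊆ (UU S M ρ Y z Z 0).filter fun t => dd t = dd t0 := by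
      intro t ht
      rw [mem_filter]
      exact ⟨hV ht, hall t ht⟩
    exact_mod_cast Finset.card_le_card this

end SSG
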