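import Pool.Agent.SSG.Targets
import Pool.Agent.SSE.DI2

/-!
# MP_d74fca_nt, sharper dichotomy, target LO3: lower bounds
-/

set_option autoImplicit false

open scoped BigOperators Classical
open Finset

namespace SSG

open SSC SSE

namespace LO3_

/-- the number of tuples with `m = 0` as a sum over `a` -/
lemma card_UU (S : Set ℕ) (M : ℕ) (ρ Y z Z : ℝ) :
    (∑ a ∈ AA S Y, ((HH S M ρ a 1).card : ℝ)) ≤ ((UU S M ρ Y z Z 0).card : ℝ) := by
  have hcard : ((UU S M ρ Y z Z 0).card : ℝ) =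
      ∑ a ∈ AA S Y, ∑ T ∈ (LL S z Z).powersetCard 0,
        (((Icc 1 (2 * ⌊Y⌋₊)).filter fun h => h ∈ HH S M ρ a (∏ l ∈ T, l)).card : ℝ) := by
    rw [UU, Finset.card_filter, Finset.sum_product]
    push_cast
    apply Finset.sum_congr rfl
    intro a _
    rw [Finset.sum_product]
    apply Finset.sum_congr rfl
    intro T _
    rw [Finset.card_filter]
    push_cast
    rfl
  rw [hcard]
  apply Finset.sum_le_sum
  intro a ha
  rw [Finset.powersetCard_zero, Finset.sum_singleton, Finset.prod_empty]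
  have haf := (Finset.mem_filter.1 ha).1
  obtain ⟨ha1, -, -⟩ := Finset.mem_filter.1 haf
  have haY : a ≤ ⌊Y⌋₊ := (Finset.mem_Icc.1 ha1).2
  have hsub : (HH S M ρ a 1).card ≤
      ((Icc 1 (2 * ⌊Y⌋₊)).filter fun h => h ∈ HH S M ρ a 1).card := by
    apply Finset.card_le_card
    intro h hh
    rw [Finset.mem_filter]
    refine ⟨?_, hh⟩
    have h7 := (Finset.mem_filter.1 hh).1
    rw [Finset.mem_Icc] at h7 ⊢
    omega
  exact_mod_cast hsub

end LO3_

open LO3_ in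
theorem p_LO3 (h1 : T_HL3) (h2 : SSC.T_CHEB) : T_LO3 := by
  intro S M ρ hT hS hM hρ hρ2
  obtain ⟨c0, Y₁, hc0, hY₁, H1⟩ := h1 S M ρ hT hS hM hρ hρ2
  obtain ⟨c1, Y₂, hc1, hY₂, H2⟩ := h2
  obtain ⟨x₁, hx₁, H3⟩ := hT 1 one_pos
  refine ⟨min c0 (c1 / 32), max (max Y₁ Y₂) (max x₁ (max (2 ^ 15) ((2 / c1) ^ 2))),
    lt_min hc0 (by positivity),
    ((le_max_left _ _).trans (le_max_right _ _)).trans (le_max_right _ _), ?_⟩
  intro Y hY
  have hYY₁ : Y₁ ≤ Y := ((le_max_left _ _).trans (le_max_left _ _)).trans hY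
  have hYY₂ : Y₂ ≤ Y := ((le_max_right _ _).trans (le_max_left _ _)).trans hY
  have hYx : x₁ ≤ Y := ((le_max_left _ _).trans (le_max_right _ _)).trans hY
  have hY15 : 2 ^ 15 ≤ Y :=
    (((le_max_left _ _).trans (le_max_right _ _)).trans (le_max_right _ _)).trans hY
  have hYc : (2 / c1) ^ 2 ≤ Y :=
    (((le_max_right _ _).trans (le_max_right _ _)).trans (le_max_right _ _)).trans hY
  have hY0 : 0 < Y := by
    have : (0 : ℝ) < 2 ^ 15 := by positivity
    linarith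
  have hY1 : 1 < Y := by
    have : (1 : ℝ) < 2 ^ 15 := by norm_num
    linarith
  have hL : 0 < Real.log Y := Real.log_pos hY1
  have hNS := (H3 Y hYx).1
  have hs : 2 * Real.sqrt Y ≤ c1 * Y := by
    have h4 : 2 / c1 ≤ Real.sqrt Y := by
      rw [← Real.sqrt_sq (show (0 : ℝ) ≤ 2 / c1 by positivity)]
      exact Real.sqrt_le_sqrt hYc
    rw [div_le_iff₀ hc1] at h4
    have h5 := mul_le_mul_of_nonneg_right h4 (Real.sqrt_nonneg Y)
    calc 2 * Real.sqrt Y ≤ Real.sqrt Y * c1 * Real.sqrt Y := h5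
      _ = c1 * (Real.sqrt Y * Real.sqrt Y) := by ring
      _ = c1 * Y := by rw [Real.mul_self_sqrt hY0.le]
  have hR : c1 / 32 * Y ^ 2 / Real.log Y ≤ RR S Y := by
    refine SSE.DI2_.R_low S (CT := 1 / Real.log Y) (σ := 1 / 2) hY0 hL (H2 Y hYY₂) ?_ ?_
    · rw [← Real.sqrt_eq_rpow]
      refine hNS.trans (le_of_eq ?_)
      ring
    · rw [← Real.sqrt_eq_rpow]
      refine le_trans (le_of_eq ?_) hs
      field_simp
  have hR0 : 0 ≤ RR S Y := le_trans (by positivity) hR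
  refine ⟨?_, ?_⟩
  · refine le_trans ?_ hR
    have h6 : c1 / 32 * Y ^ 2 / Real.log Y = c1 / 32 * (Y ^ 2 / Real.log Y) := by ring
    rw [h6]
    exact mul_le_mul_of_nonneg_right (min_le_right _ _) (by positivity)
  · intro z Z
    refine le_trans ?_ (card_UU S M ρ Y z Z)
    calc min c0 (c1 / 32) * RR S Y ≤ c0 * RR S Y :=
          mul_le_mul_of_nonneg_right (min_le_left _ _) hR0
      _ = ∑ a ∈ AA S Y, c0 * (a : ℝ) := by rw [RR, Finset.mul_sum]
      _ ≤ ∑ a ∈ AA S Y, ((HH S M ρ a 1).card : ℝ) :=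
          Finset.sum_le_sum fun a ha => H1 Y hYY₁ a ha

end SSG
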