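import Pool.Agent.SSG.Targets

/-!
# TL3: the hypothesis `Thn` from the counting function
-/

set_option autoImplicit false

open scoped BigOperators Classical
open Finset

namespace SSG

open SSC SSE

namespace TL3_

theorem fin (S : Set ℕ) (x : ℝ) : {p : ℕ | p ∈ S ∧ (p : ℝ) ≤ x}.Finite := by
  refine Set.Finite.subset (Set.finite_Iic ⌊x⌋₊) ?_
  rintro p ⟨-, hp⟩
  exact Nat.le_floor hp

theorem card_le_NS (S : Set ℕ) (x : ℝ) (G : Finset ℕ) (hG : ∀ p ∈ G, p ∈ S ∧ (p : ℝ) ≤ x) :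
    (G.card : ℝ) ≤ NS S x := by
  unfold NS
  have : G.card ≤ {p : ℕ | p ∈ S ∧ (p : ℝ) ≤ x}.ncard := by
    rw [← Set.ncard_coe_finset G]
    exact Set.ncard_le_ncard (fun p hp => hG p hp) (fin S x)
  exact_mod_cast this

/-- one dyadic block -/
theorem block {S : Set ℕ} {A Y : ℝ} (hY : 1 ≤ Y)
    (h : NS S (2 * Y) ≤ Real.sqrt (2 * Y) / (Real.log (2 * Y)) ^ A) (G : Finset ℕ)
    (hG : ∀ p ∈ G, p ∈ S ∧ Y ≤ (p : ℝ) ∧ (p : ℝ) ≤ 2 * Y) :
    ∑ p ∈ G, 1 / Real.sqrt p ≤ Real.sqrt 2 * (Real.log (2 * Y)) ^ (-A) := by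
  have hY0 : 0 < Y := by linarith
  have hl : 0 < Real.log (2 * Y) := Real.log_pos (by linarith)
  have h1 : (G.card : ℝ) ≤ Real.sqrt (2 * Y) / (Real.log (2 * Y)) ^ A :=
    (card_le_NS S (2 * Y) G fun p hp => ⟨(hG p hp).1, (hG p hp).2.2⟩).trans h
  have hs : 0 < Real.sqrt Y := Real.sqrt_pos.2 hY0
  have h2 : ∑ p ∈ G, 1 / Real.sqrt p ≤ G.card * (1 / Real.sqrt Y) := by
    rw [← nsmul_eq_mul, ← Finset.sum_const]
    refine Finset.sum_le_sum fun p hp => ?_
    exact one_div_le_one_div_of_le hs (Real.sqrt_le_sqrt (hG p hp).2.1)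
  have h3 : (0 : ℝ) ≤ 1 / Real.sqrt Y := by positivity
  calc ∑ p ∈ G, 1 / Real.sqrt p ≤ G.card * (1 / Real.sqrt Y) := h2
    _ ≤ (Real.sqrt (2 * Y) / (Real.log (2 * Y)) ^ A) * (1 / Real.sqrt Y) :=
        mul_le_mul_of_nonneg_right h1 h3
    _ = Real.sqrt 2 * (Real.log (2 * Y)) ^ (-A) := by
        rw [Real.sqrt_mul (by norm_num : (0 : ℝ) ≤ 2), Real.rpow_neg hl.le]
        field_simp

/-- the bound of one block against a telescoping term -/
theorem tele {b t A u : ℝ} (hb : 0 < b) (ht : 0 < t) (hA : 2 < A) (hu : b ≤ u) :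
    (u + t) ^ (-A) ≤ b ^ (-(A - 2)) * ((1 / t) * (1 / u - 1 / (u + t))) := by
  have hu0 : 0 < u := by linarith
  have hut : 0 < u + t := by linarith
  have e1 : (u + t) ^ (-A) = (u + t) ^ (-(A - 2)) * (u + t) ^ (-2 : ℝ) := by
    rw [← Real.rpow_add hut]
    congr 1
    ring
  have e2 : (u + t) ^ (-2 : ℝ) = 1 / (u + t) ^ 2 := by
    rw [Real.rpow_neg hut.le, one_div]
    norm_cast
  have e3 : (1 / t) * (1 / u - 1 / (u + t)) = 1 / (u * (u + t)) := by
    field_simp
    ring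
  have h4 : (u + t) ^ (-(A - 2)) ≤ b ^ (-(A - 2)) :=
    Real.rpow_le_rpow_of_nonpos hb (by linarith) (by linarith)
  have h5 : 1 / (u + t) ^ 2 ≤ 1 / (u * (u + t)) := by
    refine one_div_le_one_div_of_le (by positivity) ?_
    nlinarith
  rw [e1, e2, e3]
  exact mul_le_mul h4 h5 (by positivity) (Real.rpow_nonneg hb.le _)

/-- the sum over the part of `I` below `2 ^ J * x` -/
theorem upto {S : Set ℕ} {A x : ℝ} (hA : 2 < A) (hx : 3 ≤ x)
    (h : ∀ y : ℝ, x ≤ y → NS S y ≤ Real.sqrt y / (Real.log y) ^ A) (J : ℕ) :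
    ∀ I : Finset ℕ, (∀ p ∈ I, p ∈ S ∧ x < (p : ℝ) ∧ (p : ℝ) < 2 ^ J * x) →
      ∑ p ∈ I, 1 / Real.sqrt p ≤ Real.sqrt 2 * ((Real.log x) ^ (-(A - 2)) *
        ((1 / Real.log 2) * (1 / Real.log x - 1 / (Real.log x + J * Real.log 2)))) := by
  have hx0 : 0 < x := by linarith
  have hb : 0 < Real.log x := Real.log_pos (by linarith)
  have ht : 0 < Real.log 2 := Real.log_pos (by norm_num)
  induction J with
  | zero =>
    intro I hI
    have hI0 : I = ∅ := by
      rw [Finset.eq_empty_iff_forall_notMem]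
      intro p hp
      obtain ⟨-, h1, h2⟩ := hI p hp
      rw [pow_zero, one_mul] at h2
      linarith
    rw [hI0, Finset.sum_empty]
    simp
  | succ J ih =>
    intro I hI
    have h2J : (1 : ℝ) ≤ 2 ^ J := one_le_pow₀ (by norm_num)
    have hsplit : ∑ p ∈ I, 1 / Real.sqrt p =
        ∑ p ∈ I.filter (fun p : ℕ => (p : ℝ) < 2 ^ J * x), 1 / Real.sqrt p +
        ∑ p ∈ I.filter (fun p : ℕ => ¬ (p : ℝ) < 2 ^ J * x), 1 / Real.sqrt p :=
      (Finset.sum_filter_add_sum_filter_not I _ _).symm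
    have i1 := ih (I.filter (fun p : ℕ => (p : ℝ) < 2 ^ J * x)) (by
      intro p hp
      rw [Finset.mem_filter] at hp
      exact ⟨(hI p hp.1).1, (hI p hp.1).2.1, hp.2⟩)
    have hY : x ≤ 2 ^ J * x := by nlinarith
    have i2 := block (S := S) (A := A) (Y := 2 ^ J * x) (by linarith)
      (h _ (by linarith)) (I.filter (fun p : ℕ => ¬ (p : ℝ) < 2 ^ J * x)) (by
        intro p hp
        rw [Finset.mem_filter] at hp
        refine ⟨(hI p hp.1).1, not_lt.1 hp.2, ?_⟩
        have := (hI p hp.1).2.2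
        rw [pow_succ] at this
        linarith)
    have hlog : Real.log (2 * (2 ^ J * x)) = (Real.log x + J * Real.log 2) + Real.log 2 := by
      rw [Real.log_mul (by norm_num) (by positivity), Real.log_mul (by positivity) hx0.ne',
        Real.log_pow]
      ring
    rw [hlog] at i2
    have i3 := tele (b := Real.log x) (t := Real.log 2) (A := A)
      (u := Real.log x + J * Real.log 2) hb ht hA (by
        have : (0 : ℝ) ≤ J * Real.log 2 := by positivity
        linarith)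
    have i4 := mul_le_mul_of_nonneg_left i3 (Real.sqrt_nonneg 2)
    have hcast : Real.log x + ((J + 1 : ℕ) : ℝ) * Real.log 2 =
        (Real.log x + J * Real.log 2) + Real.log 2 := by
      push_cast
      ring
    rw [hsplit, hcast]
    calc _ ≤ Real.sqrt 2 * ((Real.log x) ^ (-(A - 2)) *
        ((1 / Real.log 2) * (1 / Real.log x - 1 / (Real.log x + J * Real.log 2)))) +
          Real.sqrt 2 * ((Real.log x) ^ (-(A - 2)) * ((1 / Real.log 2) *
            (1 / (Real.log x + J * Real.log 2) -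
              1 / ((Real.log x + J * Real.log 2) + Real.log 2)))) :=
          add_le_add i1 (i2.trans i4)
      _ = _ := by ring

/-- the tail -/
theorem tail {S : Set ℕ} {A x : ℝ} (hA : 2 < A) (hx : 3 ≤ x)
    (h : ∀ y : ℝ, x ≤ y → NS S y ≤ Real.sqrt y / (Real.log y) ^ A) (I : Finset ℕ)
    (hI : ∀ p ∈ I, p ∈ S ∧ x < (p : ℝ)) :
    ∑ p ∈ I, 1 / Real.sqrt p ≤ 3 * (Real.log x) ^ (-(A - 2)) / Real.log x := by
  have hx0 : 0 < x := by linarith
  have hb : 0 < Real.log x := Real.log_pos (by linarith)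
  have ht : 0 < Real.log 2 := Real.log_pos (by norm_num)
  have hex : ∃ J : ℕ, ∀ p ∈ I, (p : ℝ) < 2 ^ J * x := by
    refine ⟨I.sup id, fun p hp => ?_⟩
    have h1 : p ≤ I.sup id := Finset.le_sup (f := id) hp
    have h2 : (p : ℝ) < 2 ^ p := by exact_mod_cast Nat.lt_two_pow_self
    have h3 : (2 : ℝ) ^ p ≤ 2 ^ (I.sup id) := pow_le_pow_right₀ (by norm_num) h1
    have h4 : (0 : ℝ) < 2 ^ (I.sup id) := by positivity
    nlinarith
  obtain ⟨J, hJ⟩ := hex
  have h1 := upto hA hx h J I fun p hp => ⟨(hI p hp).1, (hI p hp).2, hJ p hp⟩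
  refine h1.trans ?_
  have h2 : (0 : ℝ) ≤ 1 / (Real.log x + J * Real.log 2) := by positivity
  have h3 : Real.sqrt 2 * (1 / Real.log 2) ≤ 3 := by
    have a1 : Real.sqrt 2 ≤ 3 / 2 := by
      rw [show (3 / 2 : ℝ) = Real.sqrt ((3 / 2) ^ 2) from (Real.sqrt_sq (by norm_num)).symm]
      exact Real.sqrt_le_sqrt (by norm_num)
    have a2 : (1 / 2 : ℝ) ≤ Real.log 2 := by
      have := Real.log_two_gt_d9
      linarith
    rw [mul_one_div, div_le_iff₀ ht]
    linarith
  have h4 : (0 : ℝ) ≤ (Real.log x) ^ (-(A - 2)) := Real.rpow_nonneg hb.le _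
  calc Real.sqrt 2 * ((Real.log x) ^ (-(A - 2)) *
        ((1 / Real.log 2) * (1 / Real.log x - 1 / (Real.log x + J * Real.log 2))))
      = (Real.sqrt 2 * (1 / Real.log 2)) * ((Real.log x) ^ (-(A - 2)) *
        (1 / Real.log x - 1 / (Real.log x + J * Real.log 2))) := by ring
    _ ≤ (Real.sqrt 2 * (1 / Real.log 2)) * ((Real.log x) ^ (-(A - 2)) * (1 / Real.log x)) := by
        refine mul_le_mul_of_nonneg_left ?_ (by positivity)
        exact mul_le_mul_of_nonneg_left (by linarith) h4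
    _ ≤ 3 * ((Real.log x) ^ (-(A - 2)) * (1 / Real.log x)) := by
        refine mul_le_mul_of_nonneg_right h3 ?_
        positivity
    _ = 3 * (Real.log x) ^ (-(A - 2)) / Real.log x := by ring

end TL3_

open TL3_ in
theorem p_TL3 : T_TL3 := by
  intro S A hA _hS hex η hη
  obtain ⟨x₀, hx₀⟩ := hex
  have hlim1 : Filter.Tendsto (fun x : ℝ => 3 * (Real.log x) ^ (-(A - 2))) Filter.atTop
      (nhds (3 * 0)) :=
    (((tendsto_rpow_neg_atTop (by linarith : 0 < A - 2)).comp Real.tendsto_log_atTop)).const_mul 3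
  rw [mul_zero] at hlim1
  obtain ⟨P, hP⟩ := Filter.eventually_atTop.1 (hlim1.eventually_le_const hη)
  refine ⟨max P (max x₀ 3), (le_max_right _ _).trans' (le_max_right _ _), fun x hx => ?_⟩
  have hxP : P ≤ x := (le_max_left _ _).trans hx
  have hxx : x₀ ≤ x := ((le_max_left _ _).trans (le_max_right _ _)).trans hx
  have hx3 : 3 ≤ x := ((le_max_right _ _).trans (le_max_right _ _)).trans hx
  have hx0 : 0 < x := by linarith
  have hb1 : 1 ≤ Real.log x := by
    rw [Real.le_log_iff_exp_le hx0]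
    have := Real.exp_one_lt_d9
    linarith
  have hb : 0 < Real.log x := by linarith
  have hPx : 3 * (Real.log x) ^ (-(A - 2)) ≤ η := hP x hxP
  have h0 : (0 : ℝ) ≤ (Real.log x) ^ (-(A - 2)) := Real.rpow_nonneg hb.le _
  constructor
  · refine (hx₀ x hxx).trans ?_
    have e1 : Real.sqrt x / (Real.log x) ^ A =
        ((Real.log x) ^ (-(A - 2)) * (Real.log x)⁻¹) * (Real.sqrt x / Real.log x) := by
      have e2 : (Real.log x) ^ A = (Real.log x) ^ (A - 2) * (Real.log x * Real.log x) := by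
        have e3 : Real.log x * Real.log x = (Real.log x) ^ (2 : ℝ) := by
          rw [← pow_two]
          norm_cast
        rw [e3, ← Real.rpow_add hb]
        congr 1
        ring
      rw [e2, Real.rpow_neg hb.le]
      field_simp
    rw [e1]
    refine mul_le_mul_of_nonneg_right ?_ (by positivity)
    have h5 : (Real.log x)⁻¹ ≤ 1 := inv_le_one_of_one_le₀ hb1
    calc (Real.log x) ^ (-(A - 2)) * (Real.log x)⁻¹ ≤ (Real.log x) ^ (-(A - 2)) * 1 :=
          mul_le_mul_of_nonneg_left h5 h0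
      _ ≤ η := by linarith
  · intro I hI
    refine (tail hA hx3 (fun y hy => hx₀ y (hxx.trans hy)) I hI).trans ?_
    exact div_le_div_of_nonneg_right hPx hb.le

end SSG
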