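import Pool.Agent.SSG.Targets

set_option autoImplicit false

/-!
# SSG-TUR: Turan's sieve
-/

open scoped BigOperators Classical
open Finset

namespace SSG

open SSC SSE

namespace TUR_

/-- the indicator of divisibility -/
noncomputable def c (l h : ℕ) : ℝ := if l ∣ h then 1 else 0

theorem sum_c (m N : ℕ) : ∑ h ∈ Icc 1 N, c m h = ((N / m : ℕ) : ℝ) := by
  unfold c
  rw [Finset.sum_boole, ← Nat.Ioc_filter_dvd_card_eq_div N m]
  rfl

theorem sum_c_le (m N : ℕ) : ∑ h ∈ Icc 1 N, c m h ≤ (N : ℝ) / m := by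
  rw [sum_c]
  exact Nat.cast_div_le

theorem le_sum_c (m N : ℕ) (hm : 0 < m) : (N : ℝ) / m - 1 ≤ ∑ h ∈ Icc 1 N, c m h := by
  rw [sum_c]
  have h1 := Nat.lt_floor_add_one ((N : ℝ) / m)
  rw [Nat.floor_div_eq_div] at h1
  linarith

theorem c_mul {l l' : ℕ} (hl : l.Prime) (hl' : l'.Prime) (hne : l ≠ l') (h : ℕ) :
    c l h * c l' h = c (l * l') h := by
  have hco : Nat.Coprime l l' := (Nat.coprime_primes hl hl').2 hne
  unfold c
  by_cases h1 : l ∣ h
  · by_cases h2 : l' ∣ h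
    · rw [if_pos h1, if_pos h2, if_pos (hco.mul_dvd_of_dvd_of_dvd h1 h2), one_mul]
    · rw [if_pos h1, if_neg h2, if_neg (fun h3 => h2 ((Dvd.intro_left l rfl).trans h3)), mul_zero]
  · rw [if_neg h1, if_neg (fun h3 => h1 ((Dvd.intro l' rfl).trans h3)), zero_mul]

theorem c_sq (l h : ℕ) : c l h * c l h = c l h := by
  unfold c
  split_ifs <;> simp

end TUR_

open TUR_ in
theorem p_TUR : T_TUR := by
  intro P H Z hP hH hZ hV
  set N : ℕ := ⌊H⌋₊ with hN
  set V : ℝ := ∑ l ∈ P, 1 / (l : ℝ) with hVd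
  set n : ℕ → ℝ := fun h => ∑ l ∈ P, c l h with hn
  have hNH : (N : ℝ) ≤ H := Nat.floor_le hH
  -- the second moment
  have h2 : ∑ h ∈ Icc 1 N, n h ^ 2 ≤ N * V + N * V ^ 2 := by
    have e1 : ∑ h ∈ Icc 1 N, n h ^ 2 = ∑ l ∈ P, ∑ l' ∈ P, ∑ h ∈ Icc 1 N, c l h * c l' h := by
      have e2 : ∀ h, n h ^ 2 = ∑ l ∈ P, ∑ l' ∈ P, c l h * c l' h := by
        intro h
        rw [hn, sq, Finset.sum_mul_sum]
      rw [Finset.sum_congr rfl fun h _ => e2 h, Finset.sum_comm]
      refine Finset.sum_congr rfl fun l _ => ?_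
      rw [Finset.sum_comm]
    have e3 : ∀ l ∈ P, ∀ l' ∈ P, ∑ h ∈ Icc 1 N, c l h * c l' h ≤
        (if l = l' then (N : ℝ) * (1 / l) else 0) + N * (1 / (l : ℝ) * (1 / (l' : ℝ))) := by
      intro l hl l' hl'
      by_cases h1 : l = l'
      · subst h1
        rw [if_pos rfl, Finset.sum_congr rfl fun h _ => c_sq l h]
        have h3 := sum_c_le l N
        have h4 : (0 : ℝ) ≤ N * (1 / (l : ℝ) * (1 / (l : ℝ))) := by positivity
        rw [div_eq_mul_one_div] at h3
        linarith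
      · rw [if_neg h1, zero_add,
          Finset.sum_congr rfl fun h _ => c_mul (hP l hl).1 (hP l' hl').1 h1 h]
        have h3 := sum_c_le (l * l') N
        rw [div_eq_mul_one_div] at h3
        refine h3.trans_eq ?_
        push_cast
        rw [one_div_mul_one_div]
    rw [e1]
    refine (Finset.sum_le_sum fun l hl => Finset.sum_le_sum fun l' hl' => e3 l hl l' hl').trans ?_
    have e4 : ∀ l ∈ P, ∑ l' ∈ P, ((if l = l' then (N : ℝ) * (1 / l) else 0) +
        N * (1 / (l : ℝ) * (1 / (l' : ℝ)))) = N * (1 / (l : ℝ)) + N * (1 / (l : ℝ) * V) := by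
      intro l hl
      rw [Finset.sum_add_distrib, Finset.sum_ite_eq, if_pos hl, ← Finset.mul_sum,
        ← Finset.mul_sum]
    rw [Finset.sum_congr rfl e4, Finset.sum_add_distrib, ← Finset.mul_sum, ← Finset.mul_sum,
      ← Finset.sum_mul]
    apply le_of_eq
    ring
  -- the first moment
  have h1 : (N : ℝ) * V - P.card ≤ ∑ h ∈ Icc 1 N, n h := by
    rw [hn, Finset.sum_comm]
    have e1 : (N : ℝ) * V - P.card = ∑ l ∈ P, ((N : ℝ) / l - 1) := by
      rw [Finset.sum_sub_distrib, Finset.sum_const, nsmul_eq_mul, mul_one, hVd, Finset.mul_sum]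
      congr 1
      refine Finset.sum_congr rfl fun l _ => ?_
      rw [mul_one_div]
    rw [e1]
    exact Finset.sum_le_sum fun l hl => le_sum_c l N (hP l hl).1.pos
  have h3 : ∑ h ∈ Icc 1 N, (n h - V) ^ 2 ≤ N * V + 2 * V * P.card := by
    have e1 : ∑ h ∈ Icc 1 N, (n h - V) ^ 2 =
        ∑ h ∈ Icc 1 N, n h ^ 2 - 2 * V * ∑ h ∈ Icc 1 N, n h + N * V ^ 2 := by
      have e2 : ∀ h, (n h - V) ^ 2 = n h ^ 2 - 2 * V * n h + V ^ 2 := fun h => by ring
      rw [Finset.sum_congr rfl fun h _ => e2 h, Finset.sum_add_distrib, Finset.sum_sub_distrib,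
        ← Finset.mul_sum, Finset.sum_const, Nat.card_Icc, Nat.add_sub_cancel, nsmul_eq_mul]
    rw [e1]
    nlinarith [mul_le_mul_of_nonneg_left h1 (by positivity : (0 : ℝ) ≤ 2 * V)]
  -- the sifted numbers
  set S : Finset ℕ := (Icc 1 N).filter fun h : ℕ => ∀ l ∈ P, ¬ l ∣ h with hS
  have h4 : (S.card : ℝ) * V ^ 2 ≤ ∑ h ∈ Icc 1 N, (n h - V) ^ 2 := by
    have e1 : (S.card : ℝ) * V ^ 2 = ∑ h ∈ S, (n h - V) ^ 2 := by
      rw [← nsmul_eq_mul, ← Finset.sum_const]
      refine Finset.sum_congr rfl fun h hh => ?_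
      have e2 : n h = 0 := by
        refine Finset.sum_eq_zero fun l hl => ?_
        unfold c
        rw [if_neg ((mem_filter.1 hh).2 l hl)]
      rw [e2]
      ring
    rw [e1]
    exact Finset.sum_le_sum_of_subset_of_nonneg (Finset.filter_subset _ _)
      fun h _ _ => sq_nonneg _
  have h5 : (P.card : ℝ) ≤ Z := by
    have e1 : P ⊆ Icc 1 ⌊Z⌋₊ := by
      intro l hl
      rw [mem_Icc]
      exact ⟨(hP l hl).1.one_lt.le, Nat.le_floor (hP l hl).2⟩
    have e2 := Finset.card_le_card e1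
    rw [Nat.card_Icc, Nat.add_sub_cancel] at e2
    exact (Nat.cast_le.2 e2).trans (Nat.floor_le hZ)
  rw [le_div_iff₀ hV]
  have h6 : (S.card : ℝ) * V * V ≤ (H + 2 * Z) * V := by
    calc (S.card : ℝ) * V * V = S.card * V ^ 2 := by ring
      _ ≤ N * V + 2 * V * P.card := h4.trans h3
      _ ≤ H * V + 2 * V * Z := by gcongr
      _ = (H + 2 * Z) * V := by ring
  exact le_of_mul_le_mul_right h6 hV

end SSG
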