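import Pool.Agent.SSE.Targets

/-!
# MP_d74fca_nt, sharper dichotomy (helper75)

If the set `S` of supersingular primes has at most `√x / (log x) ^ A` elements `≤ x` for all large
`x`, with some `A > 2`, then it has at least `(log x) ^ (2 - ε)` elements `≤ x` for all large `x`.

The tuples of `SSE` are used with `m = 0`: `t = (a, ∅, h)`, `dd t = a * 1 * h`. Every block is in
`Pool/Agent/SSG/P_XXX.lean`, `theorem p_XXX`, helper lemmas in the namespace `SSG.XXX_`.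
-/

set_option autoImplicit false

open scoped BigOperators Classical
open Finset

namespace SSG

open SSC SSE

/-- the hypothesis on `S` -/
def Thn (S : Set ℕ) : Prop := ∀ η : ℝ, 0 < η → ∃ x₁ : ℝ, 3 ≤ x₁ ∧ ∀ x : ℝ, x₁ ≤ x →
  NS S x ≤ η * (Real.sqrt x / Real.log x) ∧
  ∀ I : Finset ℕ, (∀ p ∈ I, p ∈ S ∧ x < (p : ℝ)) → ∑ p ∈ I, 1 / Real.sqrt p ≤ η / Real.log x

/-- TL3: the hypothesis from the counting function.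

PROOF. Let `δ = A - 2`, `x ≥ max x₀ 3`, `b = log x ≥ 1`, `t = log 2`. The part of `I` in
`(2^j x, 2^(j+1) x]` has at most `NS S (2^(j+1) x)` elements, so its sum is at most
`√(2^(j+1) x) / (b + (j+1) t)^A / √(2^j x) ≤ √2 (b + j t)^(-2-δ) ≤ √2 b^(-δ) (b + j t)^(-2)`.
`∑_j (b + j t)^(-2) ≤ b^(-2) + ∑_{j ≥ 1} 1/((b+(j-1)t)(b+jt)) ≤ b^(-2) + 1/(t b) ≤ 3/b`
(telescoping, `t ≥ 1/2`; `I` is finite, so only finitely many `j`). So the sum over `I` is at most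
`3 √2 b^(-δ) / b ≤ η / b` for `b` large. The first claim: `(log x)^(-A) ≤ η / log x`. -/
def T_TL3 : Prop := ∀ (S : Set ℕ) (A : ℝ), 2 < A → (∀ p ∈ S, p.Prime) →
  (∃ x₀ : ℝ, ∀ x : ℝ, x₀ ≤ x → NS S x ≤ Real.sqrt x / (Real.log x) ^ A) → Thn S

/-- HL3 (from BRU): many `h`, `Λ = 1`.

PROOF. `SSE/HL2.lean` with `k = 0`, `T = ∅`, `Λ = 1` (so `B1 = ∅`). `Thin` is used there only for
two facts: the tail `∑ 1/√p ≤ c/16` over finite subsets of `S ∩ (P0, ∞)` (here: `Thn` with `η`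
= `c/16` and `P0 = x₁`, `η / log x₁ ≤ η`), and a bound `C` for `∑ 1/p` over finite subsets of `S`
(here: `Thn` with `η = 1`, plus `∑_{p ≤ x₁} 1/p ≤ x₁`). -/
def T_HL3 : Prop := ∀ (S : Set ℕ) (M : ℕ) (ρ : ℝ), Thn S → (∀ p ∈ S, p.Prime ∧ p ≠ 2) →
  0 < M → 1 < ρ → ρ ≤ 2 → ∃ c Y₀ : ℝ, 0 < c ∧ 32 ≤ Y₀ ∧ ∀ Y : ℝ, Y₀ ≤ Y → ∀ a ∈ AA S Y,
    c * (a : ℝ) ≤ ((HH S M ρ a 1).card : ℝ)

/-- WW3 (from MER, CHI): the sums over the primes `l` with `(-p/l) ≠ 1`.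

PROOF. Edit of `SSE/WW2.lean` (there `Thin` is used only to bound `∑_{l ∈ S, l > z} 1/l ≤ 1`, here
`Thn` with `η = 1`, `1/l ≤ 1/√l`). As there `W = ∑_{LL} 1/l → ∞` and
`2 ∑_{LL, ch p l = 1} 1/l ≤ W + C`, so `∑_{LL, ch p l ≠ 1} 1/l ≥ (W - C)/2 ≥ G`. -/
def T_WW3 : Prop := ∀ S : Set ℕ, Thn S → (∀ p ∈ S, p.Prime ∧ p ≠ 2) →
  ∀ G : ℝ, ∃ Y₀ : ℝ, ∀ Y : ℝ, Y₀ ≤ Y → ∀ p ∈ S, (p : ℝ) ≤ z4 Y →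
    G ≤ ∑ l ∈ (LL S (z4 Y) (Z2 Y)).filter (fun l => SSN.ch p l ≠ 1), 1 / (l : ℝ)

/-- TUR: Turan's sieve.

PROOF. `N = ⌊H⌋₊`, `V = ∑_{l ∈ P} 1/l`, `n(h)` the number of `l ∈ P` which divide `h`.
`∑_{h ≤ N} n(h)^2 = ∑_{l ≠ l'} ⌊N/(l l')⌋ + ∑_l ⌊N/l⌋ ≤ N (V^2 + V)`, `∑_{h ≤ N} n(h) =`
`∑_l ⌊N/l⌋ ≥ N V - |P|`, so `∑_{h ≤ N} (n(h) - V)^2 ≤ N V + 2 V |P|`. Every `h` with `n(h) = 0`
contributes `V^2`. Finally `|P| ≤ Z`. -/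
def T_TUR : Prop := ∀ (P : Finset ℕ) (H Z : ℝ), (∀ l ∈ P, l.Prime ∧ (l : ℝ) ≤ Z) → 0 ≤ H →
  0 ≤ Z → 0 < ∑ l ∈ P, 1 / (l : ℝ) →
  ((((Icc 1 ⌊H⌋₊).filter fun h : ℕ => ∀ l ∈ P, ¬ l ∣ h).card : ℕ) : ℝ) ≤
    (H + 2 * Z) / ∑ l ∈ P, 1 / (l : ℝ)

/-- CB3: at most two of the primes `a` divide `w`.

PROOF. Three different ones would give `(Y/16)^3 < w ≤ 4 Y^2`, so `Y < 2^14`. -/
def T_CB3 : Prop := ∀ (S : Set ℕ) (Y : ℝ) (w : ℕ), 2 ^ 15 ≤ Y → 0 < w → (w : ℝ) ≤ 4 * Y ^ 2 →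
  ((AA S Y).filter fun a => a ∣ w).card ≤ 2

/-- KS3 (from KI2, TUP, TUR, CB3): the numbers killed by a small prime `p ≤ z`.

PROOF. As `SSE/KT2.lean` with `m = 0` (`t = (a, ∅, h)`, `F = {D | Adm M ρ D ∧ K D p}`,
`T0 = 2 Y^2`). If `NS F T0 < 2` then all `dd t` are equal and `V.card ≤ 1` (TUP (2), `m = 0`).
Otherwise take `w ≤ 4 Y^2` from KI2. The `t` with `a ∣ w`: at most two `a` (CB3), at most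
`2 a ≤ 2 Y` numbers `h` for each: at most `4 Y`. The other `t`: let `P` be the set of the
`l ∈ LL S z Z` with `ch p l ≠ 1`, `¬ l ∣ w`. No `l ∈ P` divides `h` (`l ∣ dd t`, `l ≠ p` as
`l ∉ S`, KI2), `h ≤ 2 a`, so by TUR for every `a` at most `(2 a + 2 Z)/∑_P 1/l ≤ 4 a/(G/2)`
numbers `h` (`Z ≤ Y/16 < a`), as
`∑_P 1/l ≥ G - (4 log Y)/z ≥ G/2` (at most `4 log Y` primes divide `w`: `KT2_.omega`; each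
`1/l ≤ 1/z`). Sum over `a`: `8 RR/G`. -/
def T_KS3 : Prop := ∀ (S : Set ℕ) (K : ℕ → ℕ → Prop) (M : ℕ) (ρ Y z Z G : ℝ),
  Data S K M ρ → 2 ^ 15 ≤ Y → 3 ≤ z → z ≤ Z → Z ≤ Y / 16 → 0 < G → 8 * Real.log Y ≤ G * z →
  ∀ p ∈ S, (p : ℝ) ≤ z →
  G ≤ ∑ l ∈ (LL S z Z).filter (fun l => SSN.ch p l ≠ 1), 1 / (l : ℝ) →
  ∀ V : Finset (ℕ × Finset ℕ × ℕ), V ⊆ UU S M ρ Y z Z 0 → (∀ t ∈ V, K (dd t) p) →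
  (V.card : ℝ) ≤ 1 + 4 * Y + 8 * (RR S Y / G)

/-- KM3 (from KI2, TUP, CB3): the numbers killed by a prime `p ≤ Y^2`.

PROOF. As KS3; for the `t` with `¬ a ∣ w` use the last part of KI2 with `N = a` (one prime factor,
`a ≠ p` as `a ∉ S`), `H = 2 a`, `G` = the set of the `h`: at most `2 (1 + 14 a/√p) ≤ 60 a/√p`
numbers `h` for every `a`, because `√p ≤ Y ≤ 16 a`. -/
def T_KM3 : Prop := ∀ (S : Set ℕ) (K : ℕ → ℕ → Prop) (M : ℕ) (ρ Y z Z : ℝ),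
  Data S K M ρ → 2 ^ 15 ≤ Y → 3 ≤ z → z ≤ Z → Z ≤ Y / 16 → ∀ p ∈ S, (p : ℝ) ≤ Y ^ 2 →
  ∀ V : Finset (ℕ × Finset ℕ × ℕ), V ⊆ UU S M ρ Y z Z 0 → (∀ t ∈ V, K (dd t) p) →
  (V.card : ℝ) ≤ 1 + 4 * Y + 60 * (RR S Y / Real.sqrt p)

/-- AS3 (from TUP, KIL, KS3, KM3): all killed numbers.

PROOF. Edit of `SSE/AS2.lean` with `m = 0`: choose a killing prime `p(t)` for every `t`; the fibres
of `p ≤ P` by KS3, of `P < p ≤ Y^2` by KM3, of `Y^2 < p ≤ 16 Y^4` by KIL (first part, `T = 2 Y^2`)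
and TUP (2) with `m = 0`, of `p > 16 Y^4` at most `1` (KIL). -/
def T_AS3 : Prop := ∀ (S : Set ℕ) (K : ℕ → ℕ → Prop) (M : ℕ) (ρ ε Y z Z G P : ℝ),
  Data S K M ρ → 2 ^ 15 ≤ Y → 3 ≤ z → z ≤ Z → Z ≤ Y / 16 → 0 < G → 8 * Real.log Y ≤ G * z →
  0 ≤ P → P ≤ z → 0 < ε →
  (∀ p ∈ S, (p : ℝ) ≤ P →
    G ≤ ∑ l ∈ (LL S z Z).filter (fun l => SSN.ch p l ≠ 1), 1 / (l : ℝ)) →
  (∀ t ∈ UU S M ρ Y z Z 0, ∃ p ∈ S, ¬ p ∣ dd t ∧ K (dd t) p ∧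
    (p : ℝ) ≤ Real.exp ((2 * Y ^ 2) ^ (1 / 2 + ε))) →
  ((UU S M ρ Y z Z 0).card : ℝ) ≤
    NS S P * (1 + 4 * Y + 8 * (RR S Y / G)) +
    (∑ p ∈ (Icc 1 ⌊Y ^ 2⌋₊).filter (fun p : ℕ => p ∈ S ∧ P < (p : ℝ)),
      (1 + 4 * Y + 60 * (RR S Y / Real.sqrt p))) +
    (∑ p ∈ (Icc 1 ⌊16 * Y ^ 4⌋₊).filter (fun p : ℕ => p ∈ S ∧ Y ^ 2 < (p : ℝ)),
      (1 + 14 * Y ^ 2 / Real.sqrt p)) +
    NS S (Real.exp ((2 * Y ^ 2) ^ (1 / 2 + ε)))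

/-- LO3 (from HL3, CHEB): lower bounds.

PROOF. `UU S M ρ Y z Z 0` is in bijection with the pairs `(a, h)`, `a ∈ AA S Y`, `h ∈ HH S M ρ a 1`
(`h ≤ 2 a` and `a ≤ ⌊Y⌋₊`), so `card ≥ ∑_a c a = c RR` by HL3. `RR ≥ (Y/16) |AA|`, `|AA| ≥`
`|pri (Y/16) Y| - NS S Y ≥ c' Y/log Y - √Y ≥ (c'/2) Y/log Y` (CHEB, `Thn` with `η = 1`). -/
def T_LO3 : Prop := ∀ (S : Set ℕ) (M : ℕ) (ρ : ℝ), Thn S → (∀ p ∈ S, p.Prime ∧ p ≠ 2) →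
  0 < M → 1 < ρ → ρ ≤ 2 → ∃ c Y₀ : ℝ, 0 < c ∧ 2 ^ 15 ≤ Y₀ ∧ ∀ Y : ℝ, Y₀ ≤ Y →
    c * (Y ^ 2 / Real.log Y) ≤ RR S Y ∧
    ∀ z Z : ℝ, c * RR S Y ≤ ((UU S M ρ Y z Z 0).card : ℝ)

/-- UP3 (from AS3, LO3, WW3, TUP).

PROOF. `c ≤ 1` from LO3, `R = RR S Y`, `L = log Y`, `z = z4 Y`, `Z = Z2 Y`. `Thn` (`c/480`) gives
`P` with `60 ∑ 1/√p ≤ c/8` over `S ∩ (P, ∞)`. `G = 64 (P + 1)/c`, so `NS S P * 8 R/G ≤ (c/8) R`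
(`NS S P ≤ P`). WW3 for this `G` and large `Y` (`P ≤ z`, `8 L ≤ G z`, `Z ≤ Y/16`). By `Data` every
`t ∈ UU` has a killing prime (`dd t ≥ Y^2/256 ≥ D₀`, TUP (1)), `≤ exp ((dd t)^(1/2+ε))`. So AS3.
`NS S P (1 + 4 Y) ≤ (c/16) R` for large `Y`; `∑_{p ≤ Y^2} (1 + 4 Y) ≤ 5 Y NS S (Y^2) ≤`
`5 Y η Y/(2 L) ≤ (c/16) R` with `η = c^2/200`, as `R ≥ c Y^2/L`; `∑_{p > P} 60 R/√p ≤ (c/8) R`;
`∑_{Y^2 < p ≤ 16 Y^4} (1 + 14 Y^2/√p) ≤ NS S (16 Y^4) + 14 Y^2 η/(2 L) ≤ η Y^2/L + 7 η Y^2/L ≤`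
`(c/16) R` (`Thn` at `x = Y^2` and at `x = 16 Y^4`, with the same `η`). So the last term of AS3 is
at least `(c/2) R ≥ (c^2/2) Y^2/L`. -/
def T_UP3 : Prop := ∀ (S : Set ℕ) (K : ℕ → ℕ → Prop) (M : ℕ) (ρ : ℝ), Data S K M ρ → Thn S →
  ∀ ε : ℝ, 0 < ε → ∃ c Y₀ : ℝ, 0 < c ∧ 32 ≤ Y₀ ∧ ∀ Y : ℝ, Y₀ ≤ Y →
    c * (Y ^ 2 / Real.log Y) ≤ NS S (Real.exp ((2 * Y ^ 2) ^ (1 / 2 + ε)))

/-- DI3 (from TL3, UP3).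

PROOF. As the end of `SSE/DI2.lean`: for large `x` take `Y = (log x)^(1/(1+4 ε₁))` (so that
`(2 Y^2)^(1/2+ε₁) ≤ Y^(1+4 ε₁)` for large `Y`); `NS S x ≥ c Y^2/log Y ≥ Y^(2-δ)`, and this is
at least `(log x)^(2-ε')`. -/
def T_DI3 : Prop := ∀ (S : Set ℕ) (K : ℕ → ℕ → Prop) (M : ℕ) (ρ : ℝ), Data S K M ρ →
  ∀ A : ℝ, 2 < A → (∃ x₀ : ℝ, ∀ x : ℝ, x₀ ≤ x → NS S x ≤ Real.sqrt x / (Real.log x) ^ A) →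
  ∀ ε' : ℝ, 0 < ε' → ∃ x₁ : ℝ, ∀ x : ℝ, x₁ ≤ x → (Real.log x) ^ (2 - ε') ≤ NS S x

end SSG
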