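import Pool.Agent.SSE.All
import Pool.Agent.SSG.Targets
import Pool.Agent.SSG.P_TL3
import Pool.Agent.SSG.P_HL3
import Pool.Agent.SSG.P_WW3
import Pool.Agent.SSG.P_TUR
import Pool.Agent.SSG.P_CB3
import Pool.Agent.SSG.P_KS3
import Pool.Agent.SSG.P_KM3
import Pool.Agent.SSG.P_LO3

/-!
# MP_d74fca_nt: the sharper dichotomy, counting part, unconditional (helper75)
-/

set_option autoImplicit false

namespace SSG.All

open SSF.All SSE.All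

theorem a_TL3 : SSG.T_TL3 := SSG.p_TL3

theorem a_HL3 : SSG.T_HL3 := SSG.p_HL3 SSC_BRU

theorem a_WW3 : SSG.T_WW3 := SSG.p_WW3 SSC_MER SSC_CHI

theorem a_TUR : SSG.T_TUR := SSG.p_TUR

theorem a_CB3 : SSG.T_CB3 := SSG.p_CB3

theorem a_KS3 : SSG.T_KS3 := SSG.p_KS3 SSE_KI2 SSC_TUP a_TUR a_CB3

theorem a_KM3 : SSG.T_KM3 := SSG.p_KM3 SSE_KI2 SSC_TUP a_CB3

theorem a_LO3 : SSG.T_LO3 := SSG.p_LO3 a_HL3 SSC_CHEB

end SSG.All
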