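import Pool.Agent.SSG.Targets2
import Pool.Agent.SSE.AS2

/-!
# AS4: all killed numbers, arbitrary bound (adapted from `SSG.P_AS3`)
-/

set_option autoImplicit false

open scoped BigOperators Classical
open Finset

namespace SSG

open SSC SSE

namespace AS4_

/-- splitting a sum over a finite set of primes at `P`, `w` and `u` -/
theorem split_sum {I : Finset ℕ} {S : Set ℕ} {f X X' : ℕ → ℝ} {P w u v c₀ : ℝ}
    (hI : ∀ p ∈ I, p ∈ S ∧ 1 ≤ p ∧ (p : ℝ) ≤ v) (hX : ∀ p ∈ S, 0 ≤ X p) (hX' : ∀ p ∈ S, 0 ≤ X' p)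
    (hc₀ : 0 ≤ c₀)
    (h1 : ∀ p ∈ I, (p : ℝ) ≤ P → f p ≤ c₀)
    (h2 : ∀ p ∈ I, P < (p : ℝ) → (p : ℝ) ≤ w → f p ≤ X p)
    (h3 : ∀ p ∈ I, w < (p : ℝ) → (p : ℝ) ≤ u → f p ≤ X' p)
    (h4 : ∀ p ∈ I, w < (p : ℝ) → u < (p : ℝ) → f p ≤ 1) :
    ∑ p ∈ I, f p ≤ NS S P * c₀ +
      (∑ p ∈ (Icc 1 ⌊w⌋₊).filter (fun p : ℕ => p ∈ S ∧ P < (p : ℝ)), X p) +
      (∑ p ∈ (Icc 1 ⌊u⌋₊).filter (fun p : ℕ => p ∈ S ∧ w < (p : ℝ)), X' p) +
      NS S v := by
  have e1 : ∑ p ∈ I, f p = ∑ p ∈ I.filter (fun p : ℕ => (p : ℝ) ≤ P), f p +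
      (∑ p ∈ (I.filter (fun p : ℕ => ¬ (p : ℝ) ≤ P)).filter (fun p : ℕ => (p : ℝ) ≤ w), f p +
      (∑ p ∈ ((I.filter (fun p : ℕ => ¬ (p : ℝ) ≤ P)).filter
        (fun p : ℕ => ¬ (p : ℝ) ≤ w)).filter (fun p : ℕ => (p : ℝ) ≤ u), f p +
      ∑ p ∈ ((I.filter (fun p : ℕ => ¬ (p : ℝ) ≤ P)).filter
        (fun p : ℕ => ¬ (p : ℝ) ≤ w)).filter (fun p : ℕ => ¬ (p : ℝ) ≤ u), f p)) := by
    rw [Finset.sum_filter_add_sum_filter_not, Finset.sum_filter_add_sum_filter_not,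
      Finset.sum_filter_add_sum_filter_not]
  rw [e1, add_assoc, add_assoc]
  apply add_le_add
  · calc ∑ p ∈ I.filter (fun p : ℕ => (p : ℝ) ≤ P), f p
        ≤ ∑ _p ∈ I.filter (fun p : ℕ => (p : ℝ) ≤ P), c₀ := by
          apply Finset.sum_le_sum
          intro p hp
          exact h1 p (Finset.mem_filter.1 hp).1 (Finset.mem_filter.1 hp).2
      _ = ((I.filter (fun p : ℕ => (p : ℝ) ≤ P)).card : ℝ) * c₀ := by
          rw [Finset.sum_const, nsmul_eq_mul]
      _ ≤ NS S P * c₀ := by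
          apply mul_le_mul_of_nonneg_right _ hc₀
          apply SSC.ASM_.card_le_NS
          intro p hp
          obtain ⟨hp1, hp2⟩ := Finset.mem_filter.1 hp
          exact ⟨(hI p hp1).1, hp2⟩
  · apply add_le_add
    · calc ∑ p ∈ (I.filter (fun p : ℕ => ¬ (p : ℝ) ≤ P)).filter (fun p : ℕ => (p : ℝ) ≤ w), f p
          ≤ ∑ p ∈ (I.filter (fun p : ℕ => ¬ (p : ℝ) ≤ P)).filter
              (fun p : ℕ => (p : ℝ) ≤ w), X p := by
            apply Finset.sum_le_sum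
            intro p hp
            obtain ⟨hp1, hp2⟩ := Finset.mem_filter.1 hp
            obtain ⟨hp3, hp4⟩ := Finset.mem_filter.1 hp1
            exact h2 p hp3 (not_le.1 hp4) hp2
        _ ≤ ∑ p ∈ (Icc 1 ⌊w⌋₊).filter (fun p : ℕ => p ∈ S ∧ P < (p : ℝ)), X p := by
            apply Finset.sum_le_sum_of_subset_of_nonneg
            · intro p hp
              obtain ⟨hp1, hp2⟩ := Finset.mem_filter.1 hp
              obtain ⟨hp3, hp4⟩ := Finset.mem_filter.1 hp1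
              exact Finset.mem_filter.2 ⟨Finset.mem_Icc.2 ⟨(hI p hp3).2.1, Nat.le_floor hp2⟩,
                (hI p hp3).1, not_le.1 hp4⟩
            · intro p hp _
              exact hX p (Finset.mem_filter.1 hp).2.1
    · apply add_le_add
      · calc ∑ p ∈ ((I.filter (fun p : ℕ => ¬ (p : ℝ) ≤ P)).filter
              (fun p : ℕ => ¬ (p : ℝ) ≤ w)).filter (fun p : ℕ => (p : ℝ) ≤ u), f p
            ≤ ∑ p ∈ ((I.filter (fun p : ℕ => ¬ (p : ℝ) ≤ P)).filter
              (fun p : ℕ => ¬ (p : ℝ) ≤ w)).filter (fun p : ℕ => (p : ℝ) ≤ u), X' p := by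
              apply Finset.sum_le_sum
              intro p hp
              obtain ⟨hp1, hp2⟩ := Finset.mem_filter.1 hp
              obtain ⟨hp3, hp4⟩ := Finset.mem_filter.1 hp1
              exact h3 p (Finset.mem_filter.1 hp3).1 (not_le.1 hp4) hp2
          _ ≤ ∑ p ∈ (Icc 1 ⌊u⌋₊).filter (fun p : ℕ => p ∈ S ∧ w < (p : ℝ)), X' p := by
              apply Finset.sum_le_sum_of_subset_of_nonneg
              · intro p hp
                obtain ⟨hp1, hp2⟩ := Finset.mem_filter.1 hp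
                obtain ⟨hp3, hp4⟩ := Finset.mem_filter.1 hp1
                have hp5 := hI p (Finset.mem_filter.1 hp3).1
                exact Finset.mem_filter.2 ⟨Finset.mem_Icc.2 ⟨hp5.2.1, Nat.le_floor hp2⟩,
                  hp5.1, not_le.1 hp4⟩
              · intro p hp _
                exact hX' p (Finset.mem_filter.1 hp).2.1
      · calc ∑ p ∈ ((I.filter (fun p : ℕ => ¬ (p : ℝ) ≤ P)).filter
              (fun p : ℕ => ¬ (p : ℝ) ≤ w)).filter (fun p : ℕ => ¬ (p : ℝ) ≤ u), f p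
            ≤ ∑ _p ∈ ((I.filter (fun p : ℕ => ¬ (p : ℝ) ≤ P)).filter
              (fun p : ℕ => ¬ (p : ℝ) ≤ w)).filter (fun p : ℕ => ¬ (p : ℝ) ≤ u), (1 : ℝ) := by
              apply Finset.sum_le_sum
              intro p hp
              obtain ⟨hp1, hp2⟩ := Finset.mem_filter.1 hp
              obtain ⟨hp3, hp4⟩ := Finset.mem_filter.1 hp1
              exact h4 p (Finset.mem_filter.1 hp3).1 (not_le.1 hp4) (not_le.1 hp2)
          _ = ((((I.filter (fun p : ℕ => ¬ (p : ℝ) ≤ P)).filter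
              (fun p : ℕ => ¬ (p : ℝ) ≤ w)).filter (fun p : ℕ => ¬ (p : ℝ) ≤ u)).card : ℝ) := by
              rw [Finset.sum_const, nsmul_eq_mul, mul_one]
          _ ≤ NS S v := by
              apply SSC.ASM_.card_le_NS
              intro p hp
              obtain ⟨hp1, hp2⟩ := Finset.mem_filter.1 hp
              obtain ⟨hp3, hp4⟩ := Finset.mem_filter.1 hp1
              have hp5 := hI p (Finset.mem_filter.1 hp3).1
              exact ⟨hp5.1, hp5.2.2⟩

end AS4_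

open AS4_

theorem p_AS4 (h1 : SSC.T_TUP) (h2 : SSC.T_KIL) (h3 : T_KS3) (h4 : T_KM3) : T_AS4 := by
  intro S K M ρ Y z Z G P E hD hY hz hzZ hZY hG hLG hP0 hPz hch hkill
  obtain ⟨hM, hρ1, hρ2, hS, -, hBin⟩ := id hD
  have hSp : ∀ p ∈ S, p.Prime := fun p hp => (hS p hp).1
  have hY32 : (32 : ℝ) ≤ Y := by linarith
  have hZ0' : Z ^ 0 ≤ Y / 16 := by
    rw [pow_zero]
    linarith
  obtain ⟨hT1, hT2, -⟩ := h1 S M ρ Y z Z 0 hSp hM hρ1 hρ2 hY32 (by linarith) hzZ hZ0'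
  have hY1 : (1 : ℝ) ≤ Y := by linarith
  have hT0 : (1 : ℝ) ≤ 2 * Y ^ 2 := by nlinarith
  have hR := SSE.AS2_.RR_nonneg S Y
  have hkil := fun (p : ℕ) (hp : p ∈ S) => h2 p {D : ℕ | Adm M ρ D ∧ K D p} (hSp p hp) (hS p hp).2
    (fun D hD => SSC.ASM_.adm_pos hD.1) (hBin p hp) (2 * Y ^ 2) hT0
  choose! pf hpf using hkill
  -- the fibers
  have hfib : ∀ p ∈ (UU S M ρ Y z Z 0).image pf,
      (((UU S M ρ Y z Z 0).filter fun t => pf t = p).card : ℝ) ≤
        NS {D : ℕ | Adm M ρ D ∧ K D p} (2 * Y ^ 2) := by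
    intro p _
    have key : (((UU S M ρ Y z Z 0).filter fun t => pf t = p).card : ℝ) ≤
        NS {D : ℕ | Adm M ρ D ∧ K D p} (2 * Y ^ 2) * 1 := by
      apply SSC.ASM_.card_tuples zero_le_one
      · intro t ht
        obtain ⟨ht1, ht2⟩ := Finset.mem_filter.1 ht
        obtain ⟨ha, -, hle, -, -⟩ := hT1 t ht1
        have := (hpf t ht1).2.2.1
        rw [ht2] at this
        exact ⟨⟨ha, this⟩, hle⟩
      · intro D
        refine le_trans ?_ ((hT2 D).trans (le_of_eq (pow_zero _)))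
        have : (((UU S M ρ Y z Z 0).filter fun t => pf t = p).filter fun t => dd t = D).card ≤
            ((UU S M ρ Y z Z 0).filter fun t => dd t = D).card := by
          apply Finset.card_le_card
          intro t ht
          obtain ⟨ht1, ht2⟩ := Finset.mem_filter.1 ht
          exact Finset.mem_filter.2 ⟨(Finset.mem_filter.1 ht1).1, ht2⟩
        exact_mod_cast this
    rwa [mul_one] at key
  rw [Finset.card_eq_sum_card_image pf (UU S M ρ Y z Z 0)]
  push_cast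
  have hmem : ∀ p ∈ (UU S M ρ Y z Z 0).image pf, p ∈ S ∧ 1 ≤ p ∧
      (p : ℝ) ≤ E := by
    intro p hp
    obtain ⟨t, ht, rfl⟩ := Finset.mem_image.1 hp
    have h := hpf t ht
    exact ⟨h.1, (hSp _ h.1).one_lt.le, h.2.2.2⟩
  apply split_sum hmem
  · intro p _
    positivity
  · intro p _
    positivity
  · positivity
  · -- small primes
    intro p hp hpP
    obtain ⟨hpS, -, -⟩ := hmem p hp
    refine h3 S K M ρ Y z Z G hD hY hz hzZ hZY hG hLG p hpS (hpP.trans hPz) (hch p hpS hpP) _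
      (Finset.filter_subset _ _) ?_
    intro t ht
    obtain ⟨ht1, ht2⟩ := Finset.mem_filter.1 ht
    have := (hpf t ht1).2.2.1
    rwa [ht2] at this
  · -- primes up to `Y ^ 2`
    intro p hp _ hpY
    obtain ⟨hpS, -, -⟩ := hmem p hp
    refine h4 S K M ρ Y z Z hD hY hz hzZ hZY p hpS hpY _ (Finset.filter_subset _ _) ?_
    intro t ht
    obtain ⟨ht1, ht2⟩ := Finset.mem_filter.1 ht
    have := (hpf t ht1).2.2.1
    rwa [ht2] at this
  · -- medium primes
    intro p hp _ _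
    obtain ⟨hpS, -, -⟩ := hmem p hp
    refine (hfib p hp).trans ((hkil p hpS).1.trans (le_of_eq ?_))
    ring
  · -- large primes
    intro p hp _ hwp
    obtain ⟨hpS, -, -⟩ := hmem p hp
    refine (hfib p hp).trans ?_
    apply (hkil p hpS).2.1
    have e : 4 * (2 * Y ^ 2) ^ 2 = 16 * Y ^ 4 := by ring
    rw [e]
    exact hwp

end SSG
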