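import Pool.Agent.SSG.Targets2
import Pool.Agent.SSF.BRG

/-!
# MP_d74fca_nt, SSG-BR3: bridge between the modular function part and the assembly, with the
explicit bound
-/

set_option autoImplicit false

open scoped BigOperators Classical
open Finset Polynomial

namespace SSG

open SSC SSE

open SSF.BRG_ in
/-- the bridge -/
theorem p_BR3 (h1 : T_OU3) (h2 : SSW.T_CMC) : T_BR3 := by
  intro r s hs hr hrs
  obtain ⟨B, ρ, C, D₀, hρ, hC, hO⟩ := h1 r s hs hrs
  refine ⟨Pb B, min ρ 2, C, max D₀ (B + 1), oddPr B, lt_min hρ (by norm_num), min_le_right _ _,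
    hC, ?_⟩
  intro M hM D hD hsq hMD hor
  have hD1 : D₀ ≤ D := le_trans (le_max_left _ _) hD
  have hD2 : B < D := lt_of_lt_of_le (Nat.lt_succ_self B) (le_trans (le_max_right _ _) hD)
  have hAdm : SSM.Adm B ρ D := by
    refine ⟨hsq, (dvd24 B).trans (hM.trans hMD), hD2, fun ℓ hℓ h => big hM hMD hℓ h, ?_⟩
    rcases hor with h | ⟨a, c, ha, hac, hlt, hρ', -, -⟩
    · exact Or.inl h
    · refine Or.inr ⟨a, c, hac, ha, hlt, lt_of_lt_of_le hρ' ?_⟩
      exact mul_le_mul_of_nonneg_right (min_le_left _ _) (Nat.cast_nonneg a)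
  obtain ⟨Q, hQm, hQd, hQC, hQ0, hQb, hQ⟩ := hO D hD1 hAdm
  have hDpos : 0 < D := by omega
  refine ⟨Q, hQm, hQd, ?_, hQ0, ?_, ?_⟩
  · intro z hz
    obtain ⟨hz0, hz1, t, ⟨ht, α, β, γ, hα, hdet, heq⟩, hJ⟩ := hQC z hz
    have hjt : SSM.J t = SSW.jt ⟨t, ht⟩ := by
      unfold SSM.J SSW.jt
      rw [UpperHalfPlane.ofComplex_apply_of_im_pos ht]
    have hzj : SSW.jt ⟨t, ht⟩ = z := by rw [← hjt, hJ]
    have := h2 ⟨t, ht⟩ D α β γ hDpos hdet (by simpa using heq) (by rw [hzj]; exact hz0)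
      (by rw [hzj]; exact hz1)
    rw [hzj] at this
    exact this
  · exact_mod_cast hQb
  · rcases hQ with h | ⟨p, hp, hp2, hns, hodd⟩
    · exact Or.inl h
    · refine Or.inr ⟨p, hp, hp2, hodd, ?_⟩
      have : Fact p.Prime := ⟨hp⟩
      rw [← jacobiSym.legendreSym.to_jacobiSym, legendreSym.eq_neg_one_iff]
      rintro ⟨x, hx⟩
      apply hns x
      push_cast at hx
      rw [hx]
      ring

end SSG
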