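import Pool.Agent.SSG.Targets2
import Pool.Agent.SSF.DATA

/-!
# DA3: the hypotheses of the counting part with the explicit bound (adapted from `SSF.p_DATA`)
-/

set_option autoImplicit false

open scoped BigOperators Classical
open Finset Polynomial

namespace SSG

open SSC SSE

namespace DA3_

/-- the explicit bound is smaller than a power -/
theorem sz_le (C ε : ℝ) (hC : 0 < C) (hε : 0 < ε) :
    ∃ D₁ : ℕ, ∀ D : ℕ, D₁ ≤ D → sz C D ≤ (D : ℝ) ^ (1 / 2 + ε) := by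
  have h := ((tendsto_rpow_atTop (half_pos hε)).comp
    tendsto_natCast_atTop_atTop).eventually_ge_atTop (C / (ε / 4) ^ 2)
  obtain ⟨N, hN⟩ := Filter.eventually_atTop.1 h
  refine ⟨max N 1, fun D hD => ?_⟩
  have hD1 : 1 ≤ D := (le_max_right _ _).trans hD
  have hDr : (1 : ℝ) ≤ D := by exact_mod_cast hD1
  have hD0 : (0 : ℝ) < D := by linarith
  have h1 : C / (ε / 4) ^ 2 ≤ (D : ℝ) ^ (ε / 2) := hN D ((le_max_left _ _).trans hD)
  have h2 : Real.log D ≤ (D : ℝ) ^ (ε / 4) / (ε / 4) :=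
    Real.log_le_rpow_div hD0.le (by positivity)
  have h3 : 0 ≤ Real.log D := Real.log_nonneg hDr
  have h4 : (Real.log D) ^ 2 ≤ ((D : ℝ) ^ (ε / 4) / (ε / 4)) ^ 2 := pow_le_pow_left₀ h3 h2 2
  have h5 : ((D : ℝ) ^ (ε / 4)) ^ 2 = (D : ℝ) ^ (ε / 2) := by
    rw [← Real.rpow_natCast, ← Real.rpow_mul hD0.le]
    congr 1
    push_cast
    ring
  have h6 : (D : ℝ) ^ (1 / 2 + ε) = Real.sqrt D * ((D : ℝ) ^ (ε / 2) * (D : ℝ) ^ (ε / 2)) := by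
    rw [Real.sqrt_eq_rpow, ← Real.rpow_add hD0, ← Real.rpow_add hD0]
    congr 1
    ring
  unfold sz
  rw [h6]
  calc C * (Real.sqrt D * (Real.log D) ^ 2)
      ≤ C * (Real.sqrt D * ((D : ℝ) ^ (ε / 4) / (ε / 4)) ^ 2) := by gcongr
    _ = Real.sqrt D * (C / (ε / 4) ^ 2 * (D : ℝ) ^ (ε / 2)) := by
        rw [div_pow, h5]
        ring
    _ ≤ Real.sqrt D * ((D : ℝ) ^ (ε / 2) * (D : ℝ) ^ (ε / 2)) := by gcongr

end DA3_

theorem p_DA3 (h1 : T_BR3) (h2 : SSP.T_KIN) (h3 : SSP.T_KRM) (h4 : SSP.T_TWI) (h5 : SSA.T_SPW)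
    (h6 : SSP.T_JHP) : T_DA3 := by
  intro A B hA hB hs
  have hs : SSF.sj A B ≠ 0 := hs
  have hr : SSF.rj A ≠ 0 := mul_ne_zero (by norm_num) (pow_ne_zero 3 hA)
  have hr' : SSF.rj A ≠ 1728 * SSF.sj A B := by
    intro h
    have e : SSF.rj A - 1728 * SSF.sj A B = -46656 * B ^ 2 := by
      unfold SSF.rj SSF.sj
      ring
    rw [h, sub_self] at e
    have := mul_ne_zero (show (-46656 : ℤ) ≠ 0 by norm_num) (pow_ne_zero 2 hB)
    exact this e.symm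
  obtain ⟨P, ρ, C, D₀, hP, hρ1, hρ2, hC0, hout⟩ := h1 (SSF.rj A) (SSF.sj A B) hs hr hr'
  have hN : 0 < (6 * A * B * SSF.sj A B).natAbs :=
    Int.natAbs_pos.2 (mul_ne_zero (mul_ne_zero (mul_ne_zero (by norm_num) hA) hB) hs)
  -- the explicit alternative
  have key : ∀ D : ℕ, max D₀ 2 ≤ D →
      Adm (SSN.MM P * (6 * A * B * SSF.sj A B).natAbs) ρ D →
      (∃ q ∈ SSF.SS A B, q ∣ D) ∨ ∃ p ∈ SSF.SS A B, ¬ p ∣ D ∧ SSF.KK A B D p ∧
        (p : ℝ) ≤ Real.exp (sz C D) := by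
    intro D hD hadm
    obtain ⟨a, c, -, -, -, -, hsq, hMD⟩ := id hadm
    obtain ⟨Q, hQ, hQd, hC, hv0, hvb, halt⟩ := hout _ (dvd_mul_right _ _) D
      ((le_max_left _ _).trans hD) hsq hMD (Or.inr hadm)
    rcases halt with ⟨l, hl, hlD, hlv⟩ | ⟨p, hp, -, hodd, hj⟩
    · exact Or.inl ⟨l, SSF.DATA_.ram h3 h4 A B D l _ (dvd_mul_left _ _) hMD hsq Q hQ hQd hC hl
        hlD hlv, hlD⟩
    · obtain ⟨m1, m2, m3, m4⟩ := SSF.DATA_.inert h2 h4 A B D p _ ((le_max_right _ _).trans hD)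
        (dvd_mul_left _ _) hMD hsq Q hQ hv0 hC hp hodd hj
      refine Or.inr ⟨p, m1, m2, m3, le_trans ?_ hvb⟩
      have : ((p : ℤ) : ℝ) ≤ ((|SSP.hv Q (SSF.rj A) (SSF.sj A B)| : ℤ) : ℝ) := Int.cast_le.2 m4
      simpa using this
  refine ⟨SSN.MM P * (6 * A * B * SSF.sj A B).natAbs, ρ, C,
    ⟨Nat.mul_pos (SSF.DATA_.mod_pos P hP) hN, hρ1, hρ2, ?_, ?_, ?_⟩, hC0, max D₀ 2, key⟩
  · rintro p ⟨hp, h7, -⟩
    refine ⟨hp, ?_⟩
    rintro rfl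
    exact h7 ⟨3 * (4 * A ^ 3 + 27 * B ^ 2), by push_cast; ring⟩
  · intro ε hε
    obtain ⟨D₁, hD₁⟩ := DA3_.sz_le C ε hC0 hε
    refine ⟨max (max D₀ 2) D₁, fun D hD hadm => ?_⟩
    rcases key D ((le_max_left _ _).trans hD) hadm with h | ⟨p, m1, m2, m3, m4⟩
    · exact Or.inl h
    · exact Or.inr ⟨p, m1, m2, m3,
        m4.trans (Real.exp_le_exp.2 (hD₁ D ((le_max_right _ _).trans hD)))⟩
  · rintro p ⟨hp, h7, h8⟩ G hG hGF
    have hf : Fact p.Prime := ⟨hp⟩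
    have hne : G.Nonempty := Finset.card_pos.1 (by omega)
    obtain ⟨D₁, hD₁⟩ := hne
    obtain ⟨-, -, g5, hbad, -⟩ := hGF D₁ hD₁
    obtain ⟨_, gA, gB, gs, gr, gr', g6⟩ := SSF.DATA_.good A B p hp hbad
    have key := (h5 p (SSF.plc p).k g5 _ _
      (SSP.KRM_.hyp p h6 (k := (SSF.plc p).k) g5 (SSF.rj A) (SSF.sj A B) gs gr gr') G
      (fun D hD => by
        obtain ⟨hadm, hf2, -, -, hdat⟩ := hGF D hD
        obtain ⟨a, c, -, -, -, -, hsq, -⟩ := hadm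
        exact ⟨hsq, hdat⟩)).2 hG
    exact key

end SSG
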