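import Pool.Agent.SSG.Targets2
import Pool.Agent.SSM.OUT

/-!
# MP_d74fca_nt, sharper dichotomy: output with the explicit size (OU3)
-/

set_option autoImplicit false

open scoped BigOperators Classical
open Finset Polynomial

namespace SSG

open SSC SSE

theorem p_OU3 (h_CMP : SSM.T_CMP) (h_PSG : SSM.T_PSG) (h_NVN : SSM.T_NVN) (h_SZ3 : T_SZ3)
    (h_JAC : SSM.T_JAC) : T_OU3 := by
  intro r s hs hrs
  have hs' : (s : ℝ) ≠ 0 := by exact_mod_cast hs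
  have hx : (r : ℝ) / s ≠ 1728 := by
    intro h
    rw [div_eq_iff hs'] at h
    exact hrs (by exact_mod_cast h)
  obtain ⟨B, ρ, hρ, hP⟩ := h_PSG ((r : ℝ) / s) hx
  obtain ⟨C, hC, hsz⟩ := h_SZ3 ((r : ℝ) / s)
  have habs : 1 ≤ |(s : ℝ)| := by
    have : (1 : ℤ) ≤ |s| := Int.one_le_abs hs
    exact_mod_cast this
  have hlog : 0 ≤ Real.log |(s : ℝ)| := Real.log_nonneg habs
  -- the exceptional discriminant
  obtain ⟨D₂, hD₂⟩ : ∃ D₂ : ℕ, ∀ (D : ℕ) (P : ℤ[X]), D₂ ≤ D → Squarefree D →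
      SSM.IsPD D P → aeval (((r : ℝ) / s : ℝ) : ℂ) P ≠ 0 := by
    by_cases hex : ∃ (D : ℕ) (P : ℤ[X]), Squarefree D ∧ SSM.IsPD D P ∧
        aeval (((r : ℝ) / s : ℝ) : ℂ) P = 0
    · obtain ⟨D, P, h1, h2, h3⟩ := hex
      refine ⟨D + 1, ?_⟩
      intro D' P' hD' h1' h2' h3'
      have := h_NVN _ D D' P P' h1 h1' h2 h2' h3 h3'
      omega
    · refine ⟨0, ?_⟩
      intro D P _ h1 h2 h3
      exact hex ⟨D, P, h1, h2, h3⟩
  refine ⟨B, ρ, C * (1 + Real.log |(s : ℝ)|), max 3 D₂, hρ, by positivity, ?_⟩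
  intro D hD hAdm
  have hD3 : 3 ≤ D := le_trans (le_max_left _ _) hD
  have hDD₂ : D₂ ≤ D := le_trans (le_max_right _ _) hD
  obtain ⟨hsq, h24, _⟩ := id hAdm
  obtain ⟨Q, hQ⟩ := h_CMP D hsq h24
  have hroot : aeval (((r : ℝ) / s : ℝ) : ℂ) Q ≠ 0 := hD₂ D Q hDD₂ hsq hQ
  have hrootR : aeval ((r : ℝ) / s) Q ≠ 0 := by
    intro h
    apply hroot
    have h2 : aeval (((r : ℝ) / s : ℝ) : ℂ) Q = ((aeval ((r : ℝ) / s) Q : ℝ) : ℂ) := by
      rw [← Complex.coe_algebraMap, aeval_algebraMap_apply]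
    rw [h2, h]
    simp
  have hneg : aeval ((r : ℝ) / s) Q < 0 := lt_of_le_of_ne (hP D Q hAdm hQ) hrootR
  have hspos : 0 < (s : ℝ) ^ Q.natDegree := hQ.even.pow_pos hs'
  have hvR := SSM.OUT_hvR Q r s hs
  have hvneg : SSP.hv Q r s < 0 := by
    have : ((SSP.hv Q r s : ℤ) : ℝ) < 0 := by
      rw [hvR]
      exact mul_neg_of_pos_of_neg hspos hneg
    exact_mod_cast this
  refine ⟨Q, hQ.monic, hQ.pos, ?_, ne_of_lt hvneg, ?_, ?_⟩
  · intro x hx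
    obtain ⟨h1, h2⟩ := hQ.nz x hx
    exact ⟨h1, h2, (hQ.roots x).mp hx⟩
  · obtain ⟨hs1, hs2⟩ := hsz D Q hD3 hsq hQ
    rw [hvR, abs_mul, abs_pow]
    have h1 : |(s : ℝ)| ^ Q.natDegree = Real.exp (Q.natDegree * Real.log |(s : ℝ)|) := by
      rw [Real.exp_nat_mul, Real.exp_log (by linarith)]
    rw [h1]
    calc Real.exp (Q.natDegree * Real.log |(s : ℝ)|) * |aeval ((r : ℝ) / s) Q|
        ≤ Real.exp (sz C D * Real.log |(s : ℝ)|) * Real.exp (sz C D) := by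
          refine mul_le_mul (Real.exp_le_exp.mpr (mul_le_mul_of_nonneg_right hs2 hlog)) hs1
            (abs_nonneg _) (Real.exp_pos _).le
      _ = Real.exp (sz (C * (1 + Real.log |(s : ℝ)|)) D) := by
          rw [← Real.exp_add]
          congr 1
          unfold sz
          ring
  · by_cases hex : ∃ ℓ : ℕ, ℓ.Prime ∧ ℓ ∣ D ∧ (ℓ : ℤ) ∣ SSP.hv Q r s
    · exact Or.inl hex
    · right
      refine h_JAC D (SSP.hv Q r s) hsq (by omega) hvneg ?_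
      intro ℓ hℓ hℓD
      refine ⟨fun h => hex ⟨ℓ, hℓ, hℓD, h⟩, ?_⟩
      obtain ⟨S, hS⟩ := hQ.sq ℓ hℓ hℓD
      exact SSM.OUT_hvZ Q hQ.monic r s ℓ hℓ S hS

end SSG
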