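import Pool.Agent.SSG.Targets2
import Pool.Agent.SSM.SIZ

/-!
# MP_d74fca_nt, SSG part 2: explicit size of `P_D(x)` (job SSG-SZ3, after SSM/SIZ)
-/

set_option autoImplicit false

open scoped BigOperators Classical
open Finset Polynomial

namespace SSG

open SSC SSE

namespace SZ3_

/-- index set -/
def Om (D : ℕ) : Finset (Σ _ : ℕ, Bool × ℕ) :=
  (Finset.Icc 1 (Nat.sqrt (4 * D))).sigma (fun α =>
    (Finset.univ : Finset Bool) ×ˢ ((Finset.range α).filter (fun β => α ∣ β ^ 2 + D)))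

theorem sqrtN (D : ℕ) : (Nat.sqrt (4 * D) : ℝ) ≤ 2 * Real.sqrt D := by
  have h1 : (Nat.sqrt (4 * D) : ℝ) ≤ Real.sqrt (4 * D) := by
    apply Real.le_sqrt_of_sq_le
    exact_mod_cast Nat.sqrt_le' (4 * D)
  have h2 : Real.sqrt (4 * D) = 2 * Real.sqrt D := by
    rw [Real.sqrt_mul (by norm_num), show (4 : ℝ) = 2 ^ 2 by norm_num,
      Real.sqrt_sq (by norm_num)]
  rw [← h2]
  exact h1

theorem log_ge_one (D : ℕ) (hD : 3 ≤ D) : 1 ≤ Real.log D := by
  have h1 : (3 : ℝ) ≤ D := by exact_mod_cast hD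
  rw [Real.le_log_iff_exp_le (by linarith)]
  exact (Real.exp_one_lt_d9.le.trans (by norm_num)).trans h1

theorem logN (D : ℕ) (hD : 3 ≤ D) : 1 + Real.log (Nat.sqrt (4 * D) : ℝ) ≤ 3 * Real.log D := by
  have h1 : (3 : ℝ) ≤ D := by exact_mod_cast hD
  have hl := log_ge_one D hD
  have h0 : 0 < Nat.sqrt (4 * D) := Nat.sqrt_pos.2 (by omega)
  have h2 : Real.log (Nat.sqrt (4 * D) : ℝ) ≤ Real.log (2 * Real.sqrt D) :=
    Real.log_le_log (by exact_mod_cast h0) (sqrtN D)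
  have hs : 0 < Real.sqrt D := Real.sqrt_pos.2 (by linarith)
  rw [Real.log_mul (by norm_num) hs.ne', Real.log_sqrt (by linarith)] at h2
  have h3 := Real.log_two_lt_d9
  linarith

theorem sum_le (h_SZA : T_SZA) (h_SZS : T_SZS) (D : ℕ) (hD : 3 ≤ D) (hq : Squarefree D)
    (K : ℝ) (hK : 0 ≤ K) :
    ∑ w ∈ Om D, (K + 2 * Real.pi * (Real.sqrt D / (w.1 : ℝ))) ≤
      (24 * K + 72 * Real.pi) * (Real.sqrt D * (Real.log D) ^ 2) := by
  have hπ := Real.pi_pos
  have hs0 : 0 ≤ Real.sqrt D := Real.sqrt_nonneg _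
  have hl := log_ge_one D hD
  have hN0 : 1 ≤ Nat.sqrt (4 * D) := Nat.sqrt_pos.2 (by omega)
  set N := Nat.sqrt (4 * D) with hN
  have hN1 : (N : ℝ) ≤ 2 * Real.sqrt D := sqrtN D
  have hN2 : 1 + Real.log (N : ℝ) ≤ 3 * Real.log D := logN D hD
  have hN3 : 0 ≤ 1 + Real.log (N : ℝ) := by
    have : 0 ≤ Real.log (N : ℝ) := Real.log_nonneg (by exact_mod_cast hN0)
    linarith
  obtain ⟨hS1, hS2⟩ := h_SZS N hN0
  unfold Om
  rw [Finset.sum_sigma]
  have h1 : ∀ α ∈ Finset.Icc 1 N,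
      ∑ p ∈ (Finset.univ : Finset Bool) ×ˢ
        ((Finset.range α).filter (fun β => α ∣ β ^ 2 + D)),
        (K + 2 * Real.pi * (Real.sqrt D / (α : ℝ))) ≤
      4 * K * (α.divisors.card : ℝ) +
        8 * Real.pi * Real.sqrt D * ((α.divisors.card : ℝ) / α) := by
    intro α hα
    rw [Finset.mem_Icc] at hα
    have hα0 : (0 : ℝ) < α := by exact_mod_cast hα.1
    rw [Finset.sum_const, nsmul_eq_mul, Finset.card_product]
    have h2 : (((Finset.range α).filter (fun β => α ∣ β ^ 2 + D)).card : ℝ) ≤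
        2 * (α.divisors.card : ℝ) := by exact_mod_cast h_SZA D α hq (by omega)
    have h3 : 0 ≤ K + 2 * Real.pi * (Real.sqrt D / (α : ℝ)) := by positivity
    have h4 : (((Finset.univ : Finset Bool).card *
        ((Finset.range α).filter (fun β => α ∣ β ^ 2 + D)).card : ℕ) : ℝ) ≤
        4 * (α.divisors.card : ℝ) := by
      simp only [Finset.card_univ, Fintype.card_bool]
      push_cast
      linarith
    refine (mul_le_mul_of_nonneg_right h4 h3).trans (le_of_eq ?_)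
    field_simp
    ring
  refine (Finset.sum_le_sum h1).trans ?_
  rw [Finset.sum_add_distrib, ← Finset.mul_sum, ← Finset.mul_sum]
  have h5 : ∑ n ∈ Finset.Icc 1 N, (n.divisors.card : ℝ) ≤
      2 * Real.sqrt D * (3 * Real.log D) :=
    hS1.trans (mul_le_mul hN1 hN2 hN3 (by positivity))
  have h6 : ∑ n ∈ Finset.Icc 1 N, (n.divisors.card : ℝ) / n ≤ (3 * Real.log D) ^ 2 :=
    hS2.trans (pow_le_pow_left₀ hN3 hN2 2)
  have h7 : Real.log D ≤ Real.log D ^ 2 := by nlinarith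
  have h8 : Real.sqrt D * Real.log D ≤ Real.sqrt D * Real.log D ^ 2 :=
    mul_le_mul_of_nonneg_left h7 hs0
  calc 4 * K * ∑ n ∈ Finset.Icc 1 N, (n.divisors.card : ℝ) +
        8 * Real.pi * Real.sqrt D * ∑ n ∈ Finset.Icc 1 N, (n.divisors.card : ℝ) / n
      ≤ 4 * K * (2 * Real.sqrt D * (3 * Real.log D)) +
        8 * Real.pi * Real.sqrt D * (3 * Real.log D) ^ 2 :=
        add_le_add (mul_le_mul_of_nonneg_left h5 (by positivity))
          (mul_le_mul_of_nonneg_left h6 (by positivity))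
    _ = 24 * K * (Real.sqrt D * Real.log D) +
        72 * Real.pi * (Real.sqrt D * Real.log D ^ 2) := by ring
    _ ≤ 24 * K * (Real.sqrt D * Real.log D ^ 2) +
        72 * Real.pi * (Real.sqrt D * Real.log D ^ 2) := by
        have := mul_le_mul_of_nonneg_left h8 (show 0 ≤ 24 * K by positivity)
        linarith
    _ = _ := by ring

/-- the point attached to an index -/
noncomputable def U (D : ℕ) (w : Σ _ : ℕ, Bool × ℕ) : ℂ :=
  (-((if w.2.1 then (w.2.2 : ℤ) else -(w.2.2 : ℤ)) : ℤ) + Real.sqrt D * Complex.I) / (w.1 : ℕ)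

theorem U_im (D : ℕ) (w : Σ _ : ℕ, Bool × ℕ) : (U D w).im = Real.sqrt D / (w.1 : ℝ) := by
  unfold U
  rw [show ((w.1 : ℕ) : ℂ) = ((w.1 : ℝ) : ℂ) by push_cast; rfl, Complex.div_ofReal_im]
  split_ifs <;> simp

theorem root_index (h_RDS : SSM.T_RDS) (D : ℕ) (hD : 1 ≤ D) (t : ℂ) (ht : SSM.CMt D t) :
    ∃ w ∈ Om D, SSM.J (U D w) = SSM.J t ∧ 1 / 2 ≤ (U D w).im := by
  obtain ⟨α, β, γ, s, u, hs, hα, hαγ, hβα, hdet, hJ, hu⟩ := h_RDS D t hD ht
  have h3 : β + 1 ≤ α := by omega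
  have h4 : α ∣ β ^ 2 + D := ⟨γ, hdet.symm⟩
  have h5 : α ^ 2 ≤ 4 * D := by nlinarith
  have hmem : ∀ b : Bool, (⟨α, (b, β)⟩ : Σ _ : ℕ, Bool × ℕ) ∈ Om D := by
    intro b
    unfold Om
    rw [Finset.mem_sigma, Finset.mem_product, Finset.mem_filter, Finset.mem_Icc,
      Finset.mem_range]
    exact ⟨⟨hα, Nat.le_sqrt'.2 h5⟩, Finset.mem_univ _, h3, h4⟩
  have him : ∀ b : Bool, 1 / 2 ≤ (U D ⟨α, (b, β)⟩).im := by
    intro b
    rw [U_im]
    have hα' : (0 : ℝ) < α := by exact_mod_cast hα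
    rw [le_div_iff₀ hα']
    apply Real.le_sqrt_of_sq_le
    have h6 : ((α : ℝ)) ^ 2 ≤ 4 * D := by exact_mod_cast h5
    nlinarith
  rcases hs with hs | hs
  · refine ⟨⟨α, (true, β)⟩, hmem _, ?_, him _⟩
    rw [← hJ, hu, hs]
    simp [U]
  · refine ⟨⟨α, (false, β)⟩, hmem _, ?_, him _⟩
    rw [← hJ, hu, hs]
    simp [U]

end SZ3_

open SZ3_ SSM.SIZ_ in
theorem p_SZ3 (h1 : T_SZA) (h2 : T_SZS) (h3 : SSM.T_RDS) (h4 : SSM.T_JBD) : T_SZ3 := by
  intro x
  obtain ⟨⟨C, hC, hb⟩, -⟩ := h4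
  have hx := abs_nonneg x
  have hπ := Real.pi_pos
  refine ⟨24 * (|x| + C + 1) + 72 * Real.pi, by positivity, fun D P hD hq hP => ?_⟩
  have hD1 : 1 ≤ D := by omega
  have hsum := SZ3_.sum_le h1 h2 D hD hq (|x| + C + 1) (by positivity)
  set S := (P.map (Int.castRingHom ℂ)).roots.toFinset with hS
  set g : (Σ _ : ℕ, Bool × ℕ) → ℝ :=
    fun w => |x| + C + 1 + 2 * Real.pi * (Real.sqrt D / (w.1 : ℝ)) with hg
  have hg0 : ∀ w, 1 ≤ g w := by
    intro w
    have : 0 ≤ 2 * Real.pi * (Real.sqrt D / (w.1 : ℝ)) := by positivity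
    simp only [hg]
    linarith
  have hroot : ∀ r ∈ S, ∃ w ∈ SZ3_.Om D, SSM.J (SZ3_.U D w) = r ∧
      1 / 2 ≤ (SZ3_.U D w).im := by
    intro r hr
    rw [hS, Multiset.mem_toFinset, Polynomial.mem_roots'] at hr
    have h3' : aeval r P = 0 := by
      rw [Polynomial.aeval_def, Polynomial.eval₂_eq_eval_map]
      exact hr.2
    obtain ⟨t, ht, htr⟩ := (hP.roots r).1 h3'
    obtain ⟨w, hw, hw1, hw2⟩ := SZ3_.root_index h3 D hD1 t ht
    exact ⟨w, hw, hw1.trans htr, hw2⟩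
  choose! ω hω1 hω2 hω3 using hroot
  have hinj : Set.InjOn ω S := by
    intro r hr r' hr' h
    rw [← hω2 r hr, ← hω2 r' hr', h]
  have hle : ∑ r ∈ S, g (ω r) ≤ sz (24 * (|x| + C + 1) + 72 * Real.pi) D := by
    unfold sz
    refine le_trans ?_ hsum
    rw [← Finset.sum_image (f := g) hinj]
    refine Finset.sum_le_sum_of_subset_of_nonneg ?_ (fun w _ _ => zero_le_one.trans (hg0 w))
    intro w hw
    obtain ⟨r, hr, rfl⟩ := Finset.mem_image.1 hw
    exact hω1 r hr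
  constructor
  · rw [prod_roots P hP.monic hP.simple x, ← hS]
    have h4 : ∏ r ∈ S, ‖(x : ℂ) - r‖ ≤ ∏ r ∈ S, Real.exp (g (ω r)) := by
      refine Finset.prod_le_prod (fun r _ => norm_nonneg _) (fun r hr => ?_)
      have h5 := (hb (SZ3_.U D (ω r)) (hω3 r hr)).1
      rw [hω2 r hr, SZ3_.U_im] at h5
      have h6 : ‖(x : ℂ) - r‖ ≤ |x| + ‖r‖ := by
        refine (norm_sub_le _ _).trans ?_
        rw [Complex.norm_real, Real.norm_eq_abs]
      set E := Real.exp (2 * Real.pi * (Real.sqrt D / ((ω r).1 : ℝ))) with hE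
      have h7 : 1 ≤ E := by
        rw [hE]
        apply Real.one_le_exp
        positivity
      have h8 : |x| + C ≤ Real.exp (|x| + C + 1) := by
        have := Real.add_one_le_exp (|x| + C + 1)
        linarith
      have h9 : Real.exp (g (ω r)) = Real.exp (|x| + C + 1) * E := by
        rw [hE, ← Real.exp_add]
      rw [h9]
      calc ‖(x : ℂ) - r‖ ≤ |x| + C * E := h6.trans (by linarith)
        _ ≤ (|x| + C) * E := by nlinarith
        _ ≤ _ := mul_le_mul_of_nonneg_right h8 (by linarith)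
    refine h4.trans ?_
    rw [← Real.exp_sum]
    exact Real.exp_le_exp.2 hle
  · rw [card_roots P hP.monic hP.simple, ← hS]
    refine le_trans ?_ hle
    calc ((S.card : ℕ) : ℝ) = ∑ r ∈ S, (1 : ℝ) := by simp
      _ ≤ _ := Finset.sum_le_sum (fun r _ => hg0 _)

end SSG
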