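import Pool.Agent.SSG.Targets2

/-!
# SZA: number of square roots of `-D` modulo `α`
-/

set_option autoImplicit false

open scoped BigOperators Classical
open Finset Polynomial

namespace SSG

open SSC SSE

namespace SZA_

theorem le_two {D h b : ℕ} (hD : Squarefree D) (h1 : h ∣ 2 * b) (h2 : h * h ∣ b ^ 2 + D) :
    h ≤ 2 := by
  rcases Nat.even_or_odd' h with ⟨k, hk | hk⟩
  · have hkb : k ∣ b := by
      rw [hk] at h1
      exact Nat.dvd_of_mul_dvd_mul_left (by norm_num) h1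
    have h3 : k * k ∣ h * h := by
      rw [hk]
      exact mul_dvd_mul (Dvd.intro_left 2 rfl) (Dvd.intro_left 2 rfl)
    have h4 : k * k ∣ b ^ 2 := by
      rw [sq]
      exact mul_dvd_mul hkb hkb
    have h5 : k * k ∣ D := (Nat.dvd_add_right h4).1 (h3.trans h2)
    have h6 : k = 1 := Nat.isUnit_iff.1 (hD k h5)
    omega
  · have hc : Nat.Coprime h 2 := by
      rw [Nat.coprime_two_right]
      exact ⟨k, hk⟩
    have hb : h ∣ b := hc.dvd_of_dvd_mul_left h1
    have h4 : h * h ∣ b ^ 2 := by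
      rw [sq]
      exact mul_dvd_mul hb hb
    have h5 : h * h ∣ D := (Nat.dvd_add_right h4).1 h2
    have h6 : h = 1 := Nat.isUnit_iff.1 (hD h h5)
    omega

/-- the divisor attached to a solution -/
def gg (α b₀ b : ℕ) : ℕ := Nat.gcd α (((b : ℤ) - b₀).natAbs)

theorem dvd_sum {α D b₀ b : ℕ} (hα : 0 < α) (h0 : α ∣ b₀ ^ 2 + D) (h : α ∣ b ^ 2 + D) :
    α / gg α b₀ b ∣ b + b₀ := by
  have h1 : (α : ℤ) ∣ ((b : ℤ) - b₀) * ((b + b₀ : ℕ) : ℤ) := by
    have e1 : (α : ℤ) ∣ ((b ^ 2 + D : ℕ) : ℤ) := Int.natCast_dvd_natCast.2 h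
    have e2 : (α : ℤ) ∣ ((b₀ ^ 2 + D : ℕ) : ℤ) := Int.natCast_dvd_natCast.2 h0
    have e3 := dvd_sub e1 e2
    have e4 : ((b ^ 2 + D : ℕ) : ℤ) - ((b₀ ^ 2 + D : ℕ) : ℤ) =
        ((b : ℤ) - b₀) * ((b + b₀ : ℕ) : ℤ) := by
      push_cast
      ring
    rwa [e4] at e3
  have h2 : α ∣ ((b : ℤ) - b₀).natAbs * (b + b₀) := by
    have e1 := Int.natAbs_dvd_natAbs.2 h1
    rwa [Int.natAbs_natCast, Int.natAbs_mul, Int.natAbs_natCast] at e1
  have h3 : α ∣ gg α b₀ b * (b + b₀) := Nat.dvd_gcd_mul_iff_dvd_mul.2 h2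
  have hg : gg α b₀ b ∣ α := Nat.gcd_dvd_left _ _
  have hg0 : 0 < gg α b₀ b := Nat.pos_of_dvd_of_pos hg hα
  have h4 : gg α b₀ b * (α / gg α b₀ b) ∣ gg α b₀ b * (b + b₀) := by
    rwa [Nat.mul_div_cancel' hg]
  exact Nat.dvd_of_mul_dvd_mul_left hg0 h4

theorem gg_dvd (α b₀ b : ℕ) : (gg α b₀ b : ℤ) ∣ (b : ℤ) - b₀ := by
  have h : gg α b₀ b ∣ ((b : ℤ) - b₀).natAbs := Nat.gcd_dvd_right _ _
  exact Int.natCast_dvd.2 h

theorem fib_le {α D b₀ : ℕ} (hD : Squarefree D) (hα : 0 < α) (h0 : α ∣ b₀ ^ 2 + D) (g : ℕ) :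
    (((range α).filter fun b => α ∣ b ^ 2 + D).filter fun b => gg α b₀ b = g).card ≤ 2 := by
  rcases Finset.eq_empty_or_nonempty
    (((range α).filter fun b => α ∣ b ^ 2 + D).filter fun b => gg α b₀ b = g) with he | ⟨b₁, hb₁⟩
  · rw [he]
    simp
  rw [Finset.mem_filter, Finset.mem_filter, Finset.mem_range] at hb₁
  obtain ⟨⟨hb1, hb2⟩, hb3⟩ := hb₁
  have hgα : g ∣ α := by
    rw [← hb3]
    exact Nat.gcd_dvd_left _ _
  have hga : g * (α / g) = α := Nat.mul_div_cancel' hgα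
  -- the gcd
  have hh : Nat.gcd g (α / g) ≤ 2 := by
    refine le_two (b := b₀) hD ?_ ?_
    · have e1 : ((Nat.gcd g (α / g) : ℕ) : ℤ) ∣ (b₁ : ℤ) - b₀ := by
        have := gg_dvd α b₀ b₁
        rw [hb3] at this
        exact (Int.natCast_dvd_natCast.2 (Nat.gcd_dvd_left _ _)).trans this
      have e2 : ((Nat.gcd g (α / g) : ℕ) : ℤ) ∣ ((b₁ + b₀ : ℕ) : ℤ) := by
        have := dvd_sum hα h0 hb2
        rw [hb3] at this
        exact Int.natCast_dvd_natCast.2 ((Nat.gcd_dvd_right _ _).trans this)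
      have e3 := dvd_sub e2 e1
      have e4 : ((b₁ + b₀ : ℕ) : ℤ) - ((b₁ : ℤ) - b₀) = ((2 * b₀ : ℕ) : ℤ) := by
        push_cast
        ring
      rw [e4] at e3
      exact Int.natCast_dvd_natCast.1 e3
    · refine dvd_trans ?_ h0
      have := mul_dvd_mul (Nat.gcd_dvd_left g (α / g)) (Nat.gcd_dvd_right g (α / g))
      rwa [hga] at this
  set m := Nat.lcm g (α / g) with hm
  have hm1 : Nat.gcd g (α / g) * m = α := by
    rw [hm, Nat.gcd_mul_lcm, hga]
  have hm2 : α ≤ 2 * m := by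
    calc α = Nat.gcd g (α / g) * m := hm1.symm
      _ ≤ 2 * m := Nat.mul_le_mul_right _ hh
  have hm0 : 0 < m := by
    rcases Nat.eq_zero_or_pos m with h | h
    · rw [h] at hm2
      omega
    · exact h
  have hcard : (range 2).card = 2 := by simp
  rw [← hcard]
  refine Finset.card_le_card_of_injOn (fun b => b / m) ?_ ?_
  · intro b hb
    rw [Finset.mem_coe, Finset.mem_filter, Finset.mem_filter, Finset.mem_range] at hb
    rw [Finset.mem_coe, Finset.mem_range]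
    rw [Nat.div_lt_iff_lt_mul hm0]
    exact lt_of_lt_of_le hb.1.1 hm2
  · intro b hb b' hb' hbb
    rw [Finset.mem_coe, Finset.mem_filter, Finset.mem_filter, Finset.mem_range] at hb hb'
    have hbb' : b / m = b' / m := hbb
    have f1 : (g : ℤ) ∣ (b : ℤ) - b' := by
      have e1 := gg_dvd α b₀ b
      have e2 := gg_dvd α b₀ b'
      rw [hb.2] at e1
      rw [hb'.2] at e2
      have := dvd_sub e1 e2
      simpa using this
    have f2 : ((α / g : ℕ) : ℤ) ∣ (b : ℤ) - b' := by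
      have e1 := dvd_sum hα h0 hb.1.2
      have e2 := dvd_sum hα h0 hb'.1.2
      rw [hb.2] at e1
      rw [hb'.2] at e2
      have := dvd_sub (Int.natCast_dvd_natCast.2 e1) (Int.natCast_dvd_natCast.2 e2)
      have e4 : ((b + b₀ : ℕ) : ℤ) - ((b' + b₀ : ℕ) : ℤ) = (b : ℤ) - b' := by
        push_cast
        ring
      rwa [e4] at this
    have f3 : (m : ℤ) ∣ (b : ℤ) - b' := by
      rw [Int.natCast_dvd] at f1 f2 ⊢
      exact Nat.lcm_dvd f1 f2
    have f4 : |(b : ℤ) - b'| < m := by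
      have e1 := Nat.div_add_mod b m
      have e2 := Nat.div_add_mod b' m
      have e3 := Nat.mod_lt b hm0
      have e4 := Nat.mod_lt b' hm0
      rw [hbb'] at e1
      rw [abs_lt]
      constructor <;> omega
    have f5 := Int.eq_zero_of_abs_lt_dvd f3 f4
    omega

end SZA_

open SZA_ in
theorem p_SZA : T_SZA := by
  intro D α hD hα
  rcases Finset.eq_empty_or_nonempty ((range α).filter fun β => α ∣ β ^ 2 + D) with he | ⟨b₀, hb₀⟩
  · rw [he]
    simp
  rw [Finset.mem_filter] at hb₀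
  refine Finset.card_le_mul_card_image_of_maps_to (f := gg α b₀) ?_ 2 ?_
  · intro b _
    exact Nat.mem_divisors.2 ⟨Nat.gcd_dvd_left _ _, hα.ne'⟩
  · intro g _
    exact fib_le hD hα hb₀.2 g

end SSG
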