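import Pool.Agent.SSG.Targets2
set_option autoImplicit false
open scoped BigOperators Classical
open Finset Polynomial

namespace SSG
open SSC SSE

namespace SZS_

theorem divisors_eq {N n : ℕ} (hn : n ∈ Icc 1 N) :
    n.divisors = (Icc 1 N).filter (fun d => d ∣ n) := by
  rw [mem_Icc] at hn
  ext d
  rw [Nat.mem_divisors, mem_filter, mem_Icc]
  constructor
  · rintro ⟨h1, h2⟩
    exact ⟨⟨Nat.pos_of_dvd_of_pos h1 (by omega), (Nat.le_of_dvd (by omega) h1).trans hn.2⟩, h1⟩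
  · rintro ⟨-, h⟩
    exact ⟨h, by omega⟩

theorem double (f : ℕ → ℝ) (N : ℕ) :
    ∑ n ∈ Icc 1 N, (n.divisors.card : ℝ) * f n =
      ∑ d ∈ Icc 1 N, ∑ n ∈ (Icc 1 N).filter (fun n => d ∣ n), f n := by
  have h : ∀ n ∈ Icc 1 N, (n.divisors.card : ℝ) * f n =
      ∑ d ∈ Icc 1 N, if d ∣ n then f n else 0 := by
    intro n hn
    rw [divisors_eq hn, ← sum_filter, sum_const, nsmul_eq_mul]
  rw [sum_congr rfl h, sum_comm]
  refine sum_congr rfl fun d _ => ?_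
  rw [sum_filter]

theorem har (N : ℕ) : ∑ d ∈ Icc 1 N, ((d : ℝ))⁻¹ ≤ 1 + Real.log N := by
  have h := harmonic_le_one_add_log N
  rw [harmonic_eq_sum_Icc] at h
  push_cast at h
  exact h

theorem one (N : ℕ) : ∑ n ∈ Icc 1 N, (n.divisors.card : ℝ) ≤ N * (1 + Real.log N) := by
  have h1 := double (fun _ => (1 : ℝ)) N
  simp only [mul_one] at h1
  rw [h1]
  refine le_trans (sum_le_sum (g := fun d : ℕ => (N : ℝ) * (d : ℝ)⁻¹) fun d _ => ?_) ?_
  · rw [sum_const, nsmul_eq_mul, mul_one]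
    have h2 : ((Icc 1 N).filter (fun n => d ∣ n)).card = N / d :=
      Nat.Ioc_filter_dvd_card_eq_div N d
    rw [h2, ← div_eq_mul_inv]
    exact Nat.cast_div_le
  · rw [← mul_sum]
    exact mul_le_mul_of_nonneg_left (har N) (Nat.cast_nonneg N)

theorem two (N : ℕ) :
    ∑ n ∈ Icc 1 N, (n.divisors.card : ℝ) / n ≤ (1 + Real.log N) ^ 2 := by
  have h1 := double (fun n => ((n : ℝ))⁻¹) N
  simp only [div_eq_mul_inv]
  rw [h1]
  have h0 : (0 : ℝ) ≤ ∑ d ∈ Icc 1 N, ((d : ℝ))⁻¹ := sum_nonneg fun d _ => by positivity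
  have h2 : ∀ d ∈ Icc 1 N, ∑ n ∈ (Icc 1 N).filter (fun n => d ∣ n), ((n : ℝ))⁻¹ ≤
      ((d : ℝ))⁻¹ * ∑ m ∈ Icc 1 N, ((m : ℝ))⁻¹ := by
    intro d hd
    rw [mem_Icc] at hd
    have h3 : ∀ n ∈ (Icc 1 N).filter (fun n => d ∣ n), ((n : ℝ))⁻¹ =
        ((d : ℝ))⁻¹ * (((n / d : ℕ) : ℝ))⁻¹ := by
      intro n hn
      rw [mem_filter] at hn
      obtain ⟨m, hm⟩ := hn.2
      rw [hm, Nat.mul_div_cancel_left m (by omega)]
      push_cast
      rw [mul_inv]
    rw [sum_congr rfl h3, ← mul_sum]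
    refine mul_le_mul_of_nonneg_left ?_ (by positivity)
    have h4 : Set.InjOn (fun n => n / d) ((Icc 1 N).filter (fun n => d ∣ n) : Set ℕ) := by
      intro a ha b hb hab
      rw [mem_coe, mem_filter] at ha hb
      have h5 : a / d = b / d := hab
      rw [← Nat.div_mul_cancel ha.2, ← Nat.div_mul_cancel hb.2, h5]
    rw [← sum_image (f := fun m : ℕ => ((m : ℝ))⁻¹) h4]
    refine sum_le_sum_of_subset_of_nonneg ?_ fun m _ _ => by positivity
    intro m hm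
    rw [mem_image] at hm
    obtain ⟨n, hn, rfl⟩ := hm
    rw [mem_filter, mem_Icc] at hn
    rw [mem_Icc]
    exact ⟨Nat.div_pos (Nat.le_of_dvd (by omega) hn.2) (by omega),
      (Nat.div_le_self _ _).trans hn.1.2⟩
  refine (sum_le_sum h2).trans ?_
  rw [← sum_mul, sq]
  have h5 := har N
  exact mul_le_mul h5 h5 h0 (h0.trans h5)

end SZS_

/-- Two divisor sums. -/
theorem p_SZS : T_SZS := fun N _ => ⟨SZS_.one N, SZS_.two N⟩

end SSG
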