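import Pool.Agent.SSG.Targets2
import Pool.Agent.SSC.DIC

/-!
# MP_d74fca_nt, SSG-UP4: the upper bound with the explicit size
-/

set_option autoImplicit false

open scoped BigOperators Classical
open Finset

namespace SSG

open SSC SSE

namespace UP4_

open Filter

lemma ev_exp (K : ℝ) (j : ℕ) : ∀ᶠ L : ℝ in atTop, K * L ^ j ≤ Real.exp L := by
  filter_upwards [SSC.DIC_.ev_const (2 * Real.log (|K| + 1)) (b := 1) one_pos,
    SSC.DIC_.ev_log_le (2 * j) (b := 1) one_pos, eventually_ge_atTop (1:ℝ)] with L h1 h2 h3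
  rw [Real.rpow_one] at h1 h2
  have hL0 : 0 < L := by linarith
  have hK : 0 < |K| + 1 := by positivity
  calc K * L ^ j ≤ (|K| + 1) * L ^ j := by
        apply mul_le_mul_of_nonneg_right _ (by positivity)
        linarith [le_abs_self K]
    _ = Real.exp (Real.log (|K| + 1) + j * Real.log L) := by
        rw [Real.exp_add, Real.exp_log hK, Real.exp_nat_mul, Real.exp_log hL0]
    _ ≤ Real.exp L := Real.exp_le_exp.2 (by linarith)

/-- all inequalities that are needed for large `L = log Y` -/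
structure Good (P c G A L : ℝ) : Prop where
  g1 : 6 ≤ L
  g2 : L ^ (1 / 2 : ℝ) + Real.log 16 ≤ L
  g3 : A ≤ Real.exp (L ^ (1 / 4 : ℝ))
  g4 : 8 * L ≤ G * Real.exp (L ^ (1 / 4 : ℝ))
  g5 : 80 * P * L ≤ c ^ 2 * Real.exp L
  g6 : A ≤ Real.exp L

lemma ev_good (P A : ℝ) {c G : ℝ} (hc : 0 < c) (hG : 0 < G) :
    ∀ᶠ L : ℝ in atTop, Good P c G A L := by
  have hq : (0:ℝ) < 1 / 4 := by norm_num
  have hhalf : (1 / 2 : ℝ) < 1 := by norm_num
  have ht : Tendsto (fun L : ℝ => L ^ (1 / 4 : ℝ)) atTop atTop := tendsto_rpow_atTop hq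
  filter_upwards [eventually_ge_atTop (6:ℝ), SSC.DIC_.ev_rpow_le 2 hhalf,
    ht.eventually (ev_exp A 0), ht.eventually (ev_exp (8 / G) 4),
    ev_exp (80 * P / c ^ 2) 1, ev_exp A 0]
    with L a1 a2 a3 a4 a5 a6
  have hL1 : 1 ≤ L := by linarith
  have hL0 : 0 < L := by linarith
  rw [Real.rpow_one] at a2
  rw [pow_zero, mul_one] at a3 a6
  rw [pow_one] at a5
  refine ⟨a1, ?_, a3, ?_, ?_, a6⟩
  · have h16 : Real.log 16 ≤ 3 := by
      rw [Real.log_le_iff_le_exp (by norm_num)]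
      have := Real.exp_one_gt_d9
      have h3 : Real.exp 3 = Real.exp 1 ^ 3 := by rw [← Real.exp_nat_mul]; norm_num
      rw [h3]
      have h4 : (2.7:ℝ) ^ 3 ≤ Real.exp 1 ^ 3 := pow_le_pow_left₀ (by norm_num) (by linarith) 3
      norm_num at h4 ⊢
      linarith
    linarith
  · have e1 : (L ^ (1 / 4 : ℝ)) ^ 4 = L := by
      rw [← Real.rpow_natCast, ← Real.rpow_mul hL0.le]
      norm_num
    rw [e1] at a4
    rw [div_mul_eq_mul_div, div_le_iff₀ hG] at a4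
    linarith
  · rw [div_mul_eq_mul_div, div_le_iff₀ (by positivity)] at a5
    linarith

lemma NS_le_self {S : Set ℕ} (hS : ∀ p ∈ S, p.Prime) {P : ℝ} (hP : 0 ≤ P) : NS S P ≤ P := by
  have h1 : {p : ℕ | p ∈ S ∧ (p : ℝ) ≤ P} ⊆ ((Icc 1 ⌊P⌋₊ : Finset ℕ) : Set ℕ) := by
    intro p hp
    rw [Finset.mem_coe, Finset.mem_Icc]
    exact ⟨(hS p hp.1).one_lt.le, (Nat.le_floor_iff hP).2 hp.2⟩
  have h2 := Set.ncard_le_ncard h1 (Finset.finite_toSet _)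
  rw [Set.ncard_coe_finset, Nat.card_Icc, Nat.add_sub_cancel] at h2
  unfold NS
  have h3 : (({p : ℕ | p ∈ S ∧ (p : ℝ) ≤ P}.ncard : ℕ) : ℝ) ≤ (⌊P⌋₊ : ℝ) := by exact_mod_cast h2
  exact h3.trans (Nat.floor_le hP)

lemma NS_nonneg (S : Set ℕ) (x : ℝ) : 0 ≤ NS S x := by
  unfold NS
  exact Nat.cast_nonneg _

/-- the sum over the primes up to `Y ^ 2` -/
lemma mid_sum (S : Set ℕ) {c P R Y L η : ℝ} (hR : 0 ≤ R) (hY : 1 ≤ Y)
    (hL : 0 < L) (hlog : Real.log Y = L)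
    (hNS : NS S (Y ^ 2) ≤ η * (Real.sqrt (Y ^ 2) / Real.log (Y ^ 2)))
    (hT : ∀ I : Finset ℕ, (∀ p ∈ I, p ∈ S ∧ P < (p : ℝ)) → ∑ p ∈ I, 1 / Real.sqrt p ≤ c / 480) :
    ∑ p ∈ (Icc 1 ⌊Y ^ 2⌋₊).filter (fun p : ℕ => p ∈ S ∧ P < (p : ℝ)),
      (1 + 4 * Y + 60 * (R / Real.sqrt p)) ≤ 5 / 2 * η * (Y ^ 2 / L) + c / 8 * R := by
  set J := (Icc 1 ⌊Y ^ 2⌋₊).filter (fun p : ℕ => p ∈ S ∧ P < (p : ℝ)) with hJ
  have hY2 : (0:ℝ) ≤ Y ^ 2 := by positivity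
  have h1 : ∑ p ∈ J, (1 + 4 * Y + 60 * (R / Real.sqrt p)) =
      (J.card : ℝ) * (1 + 4 * Y) + 60 * R * ∑ p ∈ J, 1 / Real.sqrt p := by
    rw [Finset.sum_add_distrib, Finset.sum_const, nsmul_eq_mul, Finset.mul_sum]
    congr 1
    apply Finset.sum_congr rfl
    intro p _
    ring
  rw [h1]
  have h2 : (J.card : ℝ) ≤ NS S (Y ^ 2) := by
    refine SSC.DIC_.card_le_NS S _ _ ?_
    intro p hp
    obtain ⟨hp1, hp2, -⟩ := Finset.mem_filter.1 hp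
    exact ⟨hp2, (Nat.le_floor_iff hY2).1 (Finset.mem_Icc.1 hp1).2⟩
  have h3 := hT J (fun p hp => (Finset.mem_filter.1 hp).2)
  have h4 : Real.sqrt (Y ^ 2) = Y := Real.sqrt_sq (by linarith)
  have h5 : Real.log (Y ^ 2) = 2 * L := by rw [Real.log_pow, hlog]; norm_num
  rw [h4, h5] at hNS
  have h6 : (J.card : ℝ) * (1 + 4 * Y) ≤ η * (Y / (2 * L)) * (5 * Y) := by
    have h7 : (1 + 4 * Y) ≤ 5 * Y := by linarith
    exact mul_le_mul (h2.trans hNS) h7 (by linarith) (le_trans (NS_nonneg S _) hNS)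
  have h7 : 60 * R * ∑ p ∈ J, 1 / Real.sqrt p ≤ 60 * R * (c / 480) :=
    mul_le_mul_of_nonneg_left h3 (by positivity)
  have h8 : η * (Y / (2 * L)) * (5 * Y) = 5 / 2 * η * (Y ^ 2 / L) := by
    field_simp
  rw [h8] at h6
  linarith

/-- the sum over the primes between `Y ^ 2` and `16 Y ^ 4` -/
lemma big_sum (S : Set ℕ) {Y L η : ℝ} (hη : 0 < η) (hY : 1 ≤ Y)
    (hL : 0 < L) (hlog : Real.log Y = L)
    (hNS : NS S (16 * Y ^ 4) ≤ η * (Real.sqrt (16 * Y ^ 4) / Real.log (16 * Y ^ 4)))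
    (hT : ∀ I : Finset ℕ, (∀ p ∈ I, p ∈ S ∧ Y ^ 2 < (p : ℝ)) →
      ∑ p ∈ I, 1 / Real.sqrt p ≤ η / Real.log (Y ^ 2)) :
    ∑ p ∈ (Icc 1 ⌊16 * Y ^ 4⌋₊).filter (fun p : ℕ => p ∈ S ∧ Y ^ 2 < (p : ℝ)),
      (1 + 14 * Y ^ 2 / Real.sqrt p) ≤ 8 * η * (Y ^ 2 / L) := by
  set J := (Icc 1 ⌊16 * Y ^ 4⌋₊).filter (fun p : ℕ => p ∈ S ∧ Y ^ 2 < (p : ℝ)) with hJ
  have hY4 : (0:ℝ) ≤ 16 * Y ^ 4 := by positivity
  have hY0 : 0 < Y := by linarith
  have h1 : ∑ p ∈ J, (1 + 14 * Y ^ 2 / Real.sqrt p) =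
      (J.card : ℝ) + 14 * Y ^ 2 * ∑ p ∈ J, 1 / Real.sqrt p := by
    rw [Finset.sum_add_distrib, Finset.sum_const, nsmul_eq_mul, mul_one, Finset.mul_sum]
    congr 1
    apply Finset.sum_congr rfl
    intro p _
    ring
  rw [h1]
  have h2 : (J.card : ℝ) ≤ NS S (16 * Y ^ 4) := by
    refine SSC.DIC_.card_le_NS S _ _ ?_
    intro p hp
    obtain ⟨hp1, hp2, -⟩ := Finset.mem_filter.1 hp
    exact ⟨hp2, (Nat.le_floor_iff hY4).1 (Finset.mem_Icc.1 hp1).2⟩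
  have h3 := hT J (fun p hp => (Finset.mem_filter.1 hp).2)
  have h4 : Real.sqrt (16 * Y ^ 4) = 4 * Y ^ 2 := by
    rw [show 16 * Y ^ 4 = (4 * Y ^ 2) ^ 2 by ring]
    exact Real.sqrt_sq (by positivity)
  have h5 : 4 * L ≤ Real.log (16 * Y ^ 4) := by
    rw [Real.log_mul (by norm_num) (by positivity), Real.log_pow, hlog]
    have : 0 ≤ Real.log 16 := Real.log_nonneg (by norm_num)
    push_cast
    linarith
  have h6 : Real.log (Y ^ 2) = 2 * L := by rw [Real.log_pow, hlog]; norm_num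
  rw [h4] at hNS
  rw [h6] at h3
  have h7 : NS S (16 * Y ^ 4) ≤ η * (Y ^ 2 / L) := by
    refine hNS.trans ?_
    refine mul_le_mul_of_nonneg_left ?_ hη.le
    calc 4 * Y ^ 2 / Real.log (16 * Y ^ 4) ≤ 4 * Y ^ 2 / (4 * L) :=
          div_le_div_of_nonneg_left (by positivity) (by positivity) h5
      _ = Y ^ 2 / L := by field_simp
  have h8 : 14 * Y ^ 2 * ∑ p ∈ J, 1 / Real.sqrt p ≤ 14 * Y ^ 2 * (η / (2 * L)) :=
    mul_le_mul_of_nonneg_left h3 (by positivity)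
  have h9 : 14 * Y ^ 2 * (η / (2 * L)) = 7 * η * (Y ^ 2 / L) := by
    field_simp
    ring
  rw [h9] at h8
  linarith

/-- `C √D (log D)^2` is monotone -/
lemma sz_mono {C a b : ℝ} (hC : 0 < C) (ha : 1 ≤ a) (hab : a ≤ b) : sz C a ≤ sz C b := by
  unfold sz
  have h1 : 0 ≤ Real.log a := Real.log_nonneg ha
  have h2 : Real.log a ≤ Real.log b := Real.log_le_log (by linarith) hab
  have h3 : Real.sqrt a ≤ Real.sqrt b := Real.sqrt_le_sqrt hab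
  exact mul_le_mul_of_nonneg_left (mul_le_mul h3 (pow_le_pow_left₀ h1 h2 2) (by positivity)
    (Real.sqrt_nonneg _)) hC.le

/-- the main step, for an arbitrary bound `E` -/
lemma main (h1 : T_AS4) (h2 : T_LO3) (h3 : T_WW3) (S : Set ℕ) (K : ℕ → ℕ → Prop) (M : ℕ)
    (ρ : ℝ) (hD : Data S K M ρ) (hTh : Thn S) (A : ℝ) :
    ∃ c Y₀ : ℝ, 0 < c ∧ 32 ≤ Y₀ ∧ A ≤ Y₀ ∧ ∀ Y : ℝ, Y₀ ≤ Y → ∃ z Z : ℝ, 2 ≤ z ∧ z ≤ Z ∧
      1 ≤ Y / 16 ∧ ∀ E : ℝ,
      (∀ t ∈ UU S M ρ Y z Z 0, ∃ p ∈ S, ¬ p ∣ dd t ∧ K (dd t) p ∧ (p : ℝ) ≤ E) →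
      c * (Y ^ 2 / Real.log Y) ≤ NS S E := by
  obtain ⟨hM, hρ1, hρ2, hS, -, -⟩ := id hD
  have hSp : ∀ p ∈ S, p.Prime := fun p hp => (hS p hp).1
  obtain ⟨c₀, Y1, hc₀, hY1, hLO⟩ := h2 S M ρ hTh hS hM hρ1 hρ2
  obtain ⟨c, hcdef⟩ : ∃ c, min c₀ 1 = c := ⟨_, rfl⟩
  have hc : 0 < c := by rw [← hcdef]; exact lt_min hc₀ one_pos
  have hc1 : c ≤ 1 := by rw [← hcdef]; exact min_le_right _ _
  have hcc₀ : c ≤ c₀ := by rw [← hcdef]; exact min_le_left _ _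
  obtain ⟨P, hP3, hPt⟩ := hTh (c / 480) (by positivity)
  obtain ⟨G, hG⟩ : ∃ G, 64 * (P + 1) / c = G := ⟨_, rfl⟩
  have hG0 : 0 < G := by rw [← hG]; positivity
  obtain ⟨Y2, hWW⟩ := h3 S hTh hS G
  obtain ⟨η, hη⟩ : ∃ η, c ^ 2 / 200 = η := ⟨_, rfl⟩
  have hη0 : 0 < η := by rw [← hη]; positivity
  obtain ⟨x₁, hx3, hx₁⟩ := hTh η hη0
  obtain ⟨L₀, hL₀⟩ := Filter.eventually_atTop.1 (ev_good P (max P (max 3 x₁)) hc hG0)
  refine ⟨c ^ 2 / 2, max (max (max Y1 Y2) (Real.exp L₀)) (max A x₁), by positivity, ?_, ?_, ?_⟩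
  · refine le_trans ?_ (le_max_left _ _)
    refine le_trans ?_ (le_max_left _ _)
    refine le_trans ?_ (le_max_left _ _)
    linarith
  · exact le_trans (le_max_left _ _) (le_max_right _ _)
  intro Y hY
  have hYa : Y1 ≤ Y := le_trans (le_max_left _ _) (le_trans (le_max_left _ _)
    (le_trans (le_max_left _ _) hY))
  have hYb : Y2 ≤ Y := le_trans (le_max_right _ _) (le_trans (le_max_left _ _)
    (le_trans (le_max_left _ _) hY))
  have hYL : Real.exp L₀ ≤ Y := le_trans (le_max_right _ _) (le_trans (le_max_left _ _) hY)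
  have hYx : x₁ ≤ Y := le_trans (le_max_right _ _) (le_trans (le_max_right _ _) hY)
  clear hY
  have hY15 : (2:ℝ) ^ 15 ≤ Y := hY1.trans hYa
  have hY32 : 32 ≤ Y := by
    have : (32:ℝ) ≤ 2 ^ 15 := by norm_num
    linarith
  have hYpos : 0 < Y := by linarith
  obtain ⟨L, hL⟩ : ∃ L, Real.log Y = L := ⟨_, rfl⟩
  have hYe : Y = Real.exp L := by rw [← hL, Real.exp_log hYpos]
  obtain ⟨g1, g2, g3, g4, g5, g6⟩ :=
    hL₀ L (by rw [← hL, Real.le_log_iff_exp_le hYpos]; exact hYL)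
  rw [← hYe] at g5 g6
  obtain ⟨z, hz⟩ : ∃ z, z4 Y = z := ⟨_, rfl⟩
  obtain ⟨Z, hZ⟩ : ∃ Z, Z2 Y = Z := ⟨_, rfl⟩
  have hzL : Real.exp (L ^ (1 / 4 : ℝ)) = z := by rw [← hz, z4, hL]
  have hZL : Real.exp (L ^ (1 / 2 : ℝ)) = Z := by rw [← hZ, Z2, hL]
  rw [hzL] at g3 g4
  have W1 := hWW Y hYb
  rw [hz, hZ] at W1
  have hLpos : 0 < L := by linarith
  have hL1 : 1 ≤ L := by linarith
  have hPz : P ≤ z := (le_max_left _ _).trans g3
  have hz3 : 3 ≤ z := ((le_max_left _ _).trans (le_max_right _ _)).trans g3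
  have hzZ : z ≤ Z := by
    rw [← hzL, ← hZL]
    exact Real.exp_le_exp.2 (Real.rpow_le_rpow_of_exponent_le hL1 (by norm_num))
  have hZY : Z ≤ Y / 16 := by
    rw [← hZL, hYe, le_div_iff₀ (by norm_num)]
    have h16 : (16:ℝ) = Real.exp (Real.log 16) := by rw [Real.exp_log (by norm_num)]
    rw [h16, ← Real.exp_add]
    exact Real.exp_le_exp.2 g2
  refine ⟨z, Z, by linarith, hzZ, by linarith, ?_⟩
  intro E hkill
  have hP0 : 0 ≤ P := by linarith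
  have hle := h1 S K M ρ Y z Z G P E hD hY15 hz3 hzZ hZY hG0 (by rw [hL]; exact g4) hP0 hPz
    (fun p hp hpP => W1 p hp (hpP.trans hPz)) hkill
  obtain ⟨hRlow0, hlow⟩ := hLO Y hYa
  have hlow := hlow z Z
  rw [hL] at hRlow0 ⊢
  obtain ⟨R, hR⟩ : ∃ R, RR S Y = R := ⟨_, rfl⟩
  rw [hR] at hRlow0 hlow hle
  obtain ⟨V, hV⟩ : ∃ V, Y ^ 2 / L = V := ⟨_, rfl⟩
  have hVpos : 0 < V := by rw [← hV]; positivity
  rw [hV] at hRlow0 ⊢
  have hRlow : c * V ≤ R := le_trans (mul_le_mul_of_nonneg_right hcc₀ hVpos.le) hRlow0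
  have hR0 : 0 ≤ R := le_trans (by positivity) hRlow
  have hlow2 : c * R ≤ ((UU S M ρ Y z Z 0).card : ℝ) :=
    le_trans (mul_le_mul_of_nonneg_right hcc₀ hR0) hlow
  have hYsq : Y ≤ Y ^ 2 := by
    rw [sq]
    exact le_mul_of_one_le_right hYpos.le (by linarith)
  have hx2 : x₁ ≤ Y ^ 2 := hYx.trans hYsq
  have hx4 : x₁ ≤ 16 * Y ^ 4 := by
    have h5 : Y ^ 2 ≤ Y ^ 4 := pow_le_pow_right₀ (by linarith) (by norm_num)
    have h6 : (0:ℝ) ≤ Y ^ 4 := by positivity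
    linarith
  -- the tail beyond `P`
  have hlogP : 1 ≤ Real.log P := by
    rw [Real.le_log_iff_exp_le (by linarith)]
    have := Real.exp_one_lt_d9
    linarith
  have hT : ∀ I : Finset ℕ, (∀ p ∈ I, p ∈ S ∧ P < (p : ℝ)) →
      ∑ p ∈ I, 1 / Real.sqrt p ≤ c / 480 := fun I hI =>
    ((hPt P le_rfl).2 I hI).trans (div_le_self (by positivity) hlogP)
  have hmid := mid_sum S (c := c) (P := P) (R := R) (η := η) hR0 (by linarith) hLpos hL
    (hx₁ _ hx2).1 hT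
  have hbig := big_sum S (η := η) hη0 (by linarith) hLpos hL (hx₁ _ hx4).1 (hx₁ _ hx2).2
  rw [hV] at hmid hbig
  -- the small primes
  have hNP0 := NS_nonneg S P
  have hNP := NS_le_self hSp hP0
  have hsm : NS S P * (1 + 4 * Y + 8 * (R / G)) ≤ c / 16 * R + c / 8 * R := by
    have e1 : NS S P * (1 + 4 * Y) ≤ c / 16 * R := by
      have e2 : NS S P * (1 + 4 * Y) ≤ P * (5 * Y) :=
        mul_le_mul hNP (by linarith) (by linarith) hP0
      have e3 : P * (5 * Y) ≤ c ^ 2 / 16 * V := by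
        rw [← hV, ← mul_div_assoc, le_div_iff₀ hLpos]
        have e4 := mul_le_mul_of_nonneg_right g5 hYpos.le
        have e5 : 80 * P * L * Y = 16 * (P * (5 * Y) * L) := by ring
        have e6 : c ^ 2 * Y * Y = 16 * (c ^ 2 / 16 * Y ^ 2) := by ring
        rw [e5, e6] at e4
        linarith
      have e4 : c ^ 2 / 16 * V = c / 16 * (c * V) := by ring
      rw [e4] at e3
      exact e2.trans (e3.trans (mul_le_mul_of_nonneg_left hRlow (by positivity)))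
    have e2 : NS S P * (8 * (R / G)) ≤ c / 8 * R := by
      have e3 : NS S P * (8 * (R / G)) ≤ (P + 1) * (8 * (R / G)) :=
        mul_le_mul_of_nonneg_right (by linarith) (by positivity)
      have e4 : (P + 1) * (8 * (R / G)) = c / 8 * R := by
        rw [← hG]
        have : (P + 1) ≠ 0 := by linarith
        field_simp
        ring
      linarith
    have e3 : NS S P * (1 + 4 * Y + 8 * (R / G)) =
        NS S P * (1 + 4 * Y) + NS S P * (8 * (R / G)) := by ring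
    rw [e3]
    linarith
  have f1 : 5 / 2 * η * V ≤ c / 16 * R := by
    have e1 : 5 / 2 * η * V = c / 80 * (c * V) := by rw [← hη]; ring
    have e2 : c / 80 * (c * V) ≤ c / 80 * R := mul_le_mul_of_nonneg_left hRlow (by positivity)
    have e3 : 0 ≤ c * R := by positivity
    rw [e1]
    linarith
  have f2 : 8 * η * V ≤ c / 16 * R := by
    have e1 : 8 * η * V = c / 25 * (c * V) := by rw [← hη]; ring
    have e2 : c / 25 * (c * V) ≤ c / 25 * R := mul_le_mul_of_nonneg_left hRlow (by positivity)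
    have e3 : 0 ≤ c * R := by positivity
    rw [e1]
    linarith
  have f3 : c ^ 2 / 2 * V ≤ c / 2 * R := by
    have e1 : c ^ 2 / 2 * V = c / 2 * (c * V) := by ring
    rw [e1]
    exact mul_le_mul_of_nonneg_left hRlow (by positivity)
  have f4 : 0 ≤ c * R := by positivity
  linarith

end UP4_

open UP4_ in
theorem p_UP4 (h1 : T_AS4) (h2 : T_LO3) (h3 : T_WW3) (h4 : SSC.T_TUP) : T_UP4 := by
  intro S K M ρ C hDS hTh
  obtain ⟨hD, hC, D₀, hD₀⟩ := hDS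
  obtain ⟨hM, hρ1, hρ2, hS, -, -⟩ := id hD
  have hSp : ∀ p ∈ S, p.Prime := fun p hp => (hS p hp).1
  obtain ⟨c, Y₀, hc, hY₀, hA, H⟩ := main h1 h2 h3 S K M ρ hD hTh (256 * (D₀ + 1))
  refine ⟨c, Y₀, hc, hY₀, ?_⟩
  intro Y hY
  obtain ⟨z, Z, hz, hzZ, hY16, H⟩ := H Y hY
  refine H _ ?_
  have hY32 : 32 ≤ Y := hY₀.trans hY
  have hYpos : 0 < Y := by linarith
  obtain ⟨hT1, -, -⟩ := h4 S M ρ Y z Z 0 hSp hM hρ1 hρ2 hY32 hz hzZ (by rw [pow_zero]; exact hY16)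
  intro t ht
  obtain ⟨q1, q2, q3, q4, -⟩ := hT1 t ht
  have q5 : (D₀:ℝ) + 1 ≤ dd t := by
    refine le_trans ?_ q4
    rw [le_div_iff₀ (by norm_num)]
    have h9 : Y ≤ Y ^ 2 := by
      rw [sq]
      exact le_mul_of_one_le_right hYpos.le (by linarith)
    have h10 : 256 * ((D₀:ℝ) + 1) ≤ Y := hA.trans hY
    linarith
  have q6 : D₀ ≤ dd t := by
    have : (D₀:ℝ) ≤ dd t := by linarith
    exact_mod_cast this
  have q7 : (1:ℝ) ≤ dd t := by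
    have : (0:ℝ) ≤ D₀ := Nat.cast_nonneg _
    linarith
  rcases hD₀ (dd t) q6 q1 with ⟨q, hq, hqd⟩ | ⟨p, hp, hpd, hK, hple⟩
  · exact absurd hqd (q2 q hq)
  · exact ⟨p, hp, hpd, hK, hple.trans (Real.exp_le_exp.2 (sz_mono hC q7 q3))⟩

end SSG
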