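import Pool.Agent.SSG.Targets
import Pool.Agent.SSM.Targets
import Pool.Agent.SSW.Targets
import Pool.Agent.SSF.Targets

/-!
# MP_d74fca_nt, sharper dichotomy, part 2 (helper75)

Explicit bound for the value of the polynomial `P_D`: `exp (C √D (log D)^2)` instead of
`exp (D^(1/2+ε))`. This gives `c (log x)^2 / (log log x)^5` instead of `(log x)^(2-ε)` in the
second alternative.
-/

set_option autoImplicit false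

open scoped BigOperators Classical
open Finset Polynomial

namespace SSG

open SSC SSE

/-- `C √D (log D)^2` -/
noncomputable def sz (C D : ℝ) : ℝ := C * (Real.sqrt D * (Real.log D) ^ 2)

/-- the hypotheses of the counting part with the explicit bound -/
def DataS (S : Set ℕ) (K : ℕ → ℕ → Prop) (M : ℕ) (ρ C : ℝ) : Prop :=
  Data S K M ρ ∧ 0 < C ∧ ∃ D₀ : ℕ, ∀ D : ℕ, D₀ ≤ D → Adm M ρ D →
    (∃ q ∈ S, q ∣ D) ∨ ∃ p ∈ S, ¬ p ∣ D ∧ K D p ∧ (p : ℝ) ≤ Real.exp (sz C D)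

/-! ## Size -/

/-- SZA: number of square roots of `-D` modulo `α`, `D` squarefree.

PROOF. Let `β₀` be one solution in `range α` (if there is none, clear). To a solution `β` attach
the divisor `g = gcd (α, |β - β₀|)` of `α`. As `α ∣ (β - β₀)(β + β₀)`, `α/g ∣ β + β₀`. The number
`h = gcd (g, α/g)` divides `β - β₀` and `β + β₀`, so `h ∣ 2 β₀`, and `h^2 ∣ α`. If an odd prime `p`
divides `h` then `p ∣ β₀`, `p^2 ∣ α ∣ β₀^2 + D`, so `p^2 ∣ D`, impossible. If `2 ∣ h` then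
`4 ∣ α ∣ β₀^2 + D`, `β₀` is odd (otherwise `4 ∣ D`) and `h ∣ 2 β₀` gives `4 ∤ h`. So `h ≤ 2`. Two
solutions `β`, `β'` with the same `g` are congruent modulo `g` (both `= β₀`) and modulo `α/g` (both
`= -β₀`), hence modulo `lcm (g, α/g) = α/h`, and `α/h ≥ α/2`: at most two of them in `range α`. -/
def T_SZA : Prop := ∀ D α : ℕ, Squarefree D → 0 < α →
  ((range α).filter fun β => α ∣ β ^ 2 + D).card ≤ 2 * α.divisors.card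

/-- SZS: sums of the divisor function.

PROOF. `∑_{n ≤ N} τ(n) = ∑_{d ≤ N} ⌊N/d⌋ ≤ N ∑ 1/d ≤ N (1 + log N)` (`harmonic_le_one_add_log`);
`∑_{n ≤ N} τ(n)/n = ∑_{d e ≤ N} 1/(d e) ≤ (∑_{d ≤ N} 1/d)^2`. -/
def T_SZS : Prop := ∀ N : ℕ, 1 ≤ N →
  ∑ n ∈ Icc 1 N, (n.divisors.card : ℝ) ≤ N * (1 + Real.log N) ∧
  ∑ n ∈ Icc 1 N, (n.divisors.card : ℝ) / n ≤ (1 + Real.log N) ^ 2

/-- SZ3 (from SZA, SZS, RDS, JBD): size of `P_D(x)`.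

PROOF. Edit of `SSM/SIZ.lean` (lemmas in `SSM.SIZ_`: `prod_roots`, `card_roots`, `U`, `U_im`). By
RDS every root is `J u`, `u = (-s + √-D)/α`, `s = ± β`, `2 β ≤ α ≤ γ`, `α γ = β^2 + D`; so
`α^2 ≤ α γ ≤ α^2/4 + D`, `α ≤ N := ⌊2 √D⌋₊` (even `α^2 ≤ 4 D/3`), `β < α`, `α ∣ β^2 + D`. Index set:
`α ∈ Icc 1 N`, `β ∈ (range α).filter (α ∣ β^2 + D)`, a sign: by SZA at most `4 τ(α)` elements for
every `α`. As in SIZ the factor of a root is at most `exp (K + 2 π √D/α)`, `K = |x| + C + 1`. The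
sum over the index set is at most `4 K ∑ τ(α) + 8 π √D ∑ τ(α)/α ≤ 4 K N (1 + log N) +`
`8 π √D (1 + log N)^2` by SZS, and `N ≤ 2 √D`, `1 + log N ≤ 3 log D` for `D ≥ 3`. The degree is at
most the number of indices. -/
def T_SZ3 : Prop := ∀ x : ℝ, ∃ C : ℝ, 0 < C ∧ ∀ (D : ℕ) (P : ℤ[X]), 3 ≤ D → Squarefree D →
  SSM.IsPD D P → |aeval x P| ≤ Real.exp (sz C D) ∧ (P.natDegree : ℝ) ≤ sz C D

/-! ## Output of the modular function part -/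

/-- OU3 (from SSM.T_CMP, SSM.T_PSG, SSM.T_NVN, SZ3, SSM.T_JAC). Edit of `SSM/OUT.lean`: there the
size is `|s|^(deg Q) |Q(r/s)| ≤ exp (deg Q log |s|) exp (sz C D)`, take `C (1 + log |s|)`. -/
def T_OU3 : Prop := ∀ r s : ℤ, s ≠ 0 → r ≠ 1728 * s → ∃ (B : ℕ) (ρ C : ℝ) (D₀ : ℕ), 1 < ρ ∧
  0 < C ∧ ∀ D : ℕ, D₀ ≤ D → SSM.Adm B ρ D → ∃ Q : ℤ[X], Q.Monic ∧ 0 < Q.natDegree ∧
  (∀ x : ℂ, aeval x Q = 0 → x ≠ 0 ∧ x ≠ 1728 ∧ ∃ t : ℂ, SSM.CMt D t ∧ SSM.J t = x) ∧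
  SSP.hv Q r s ≠ 0 ∧ |((SSP.hv Q r s : ℤ) : ℝ)| ≤ Real.exp (sz C D) ∧
  ((∃ ℓ : ℕ, ℓ.Prime ∧ ℓ ∣ D ∧ (ℓ : ℤ) ∣ SSP.hv Q r s) ∨
    ∃ p : ℕ, p.Prime ∧ p ≠ 2 ∧ (∀ x : ZMod p, x ^ 2 ≠ -(D : ZMod p)) ∧
      Odd (padicValInt p (SSP.hv Q r s)))

/-- BR3 (from OU3, SSW.T_CMC). Edit of `p_BRG` in `SSF/BRG.lean` (lemmas in `SSF.BRG_`). -/
def T_BR3 : Prop := ∀ r s : ℤ, s ≠ 0 → r ≠ 0 → r ≠ 1728 * s →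
  ∃ (P : Finset ℕ) (ρ C : ℝ) (D₀ : ℕ), SSN.OddPr P ∧ 1 < ρ ∧ ρ ≤ 2 ∧ 0 < C ∧
  ∀ M : ℕ, SSN.MM P ∣ M → ∀ D : ℕ, D₀ ≤ D → Squarefree D → M ∣ D + 1 →
  (D.Prime ∨ SSC.Adm M ρ D) → ∃ Q : ℤ[X], Q.Monic ∧ 0 < Q.natDegree ∧
  (∀ z : ℂ, aeval z Q = 0 → SSP.CME ℂ z D) ∧ SSP.hv Q r s ≠ 0 ∧
  ((|SSP.hv Q r s| : ℤ) : ℝ) ≤ Real.exp (sz C D) ∧
  ((∃ l : ℕ, l.Prime ∧ l ∣ D ∧ (l : ℤ) ∣ SSP.hv Q r s) ∨
    ∃ p : ℕ, p.Prime ∧ p ≠ 2 ∧ Odd (padicValInt p (SSP.hv Q r s)) ∧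
      jacobiSym (-(D : ℤ)) p = -1)

/-- DA3 (from BR3, SSP.T_KIN, SSP.T_KRM, SSP.T_TWI, SSA.T_SPW, SSP.T_JHP). Edit of `p_DATA` in
`SSF/DATA.lean` (lemmas in `SSF.DATA_`): the clause of `Data` with `ε` follows from the explicit
bound since `sz C D ≤ D^(1/2+ε)` for large `D`. -/
def T_DA3 : Prop := ∀ A B : ℤ, A ≠ 0 → B ≠ 0 → 4 * A ^ 3 + 27 * B ^ 2 ≠ 0 →
  ∃ (M : ℕ) (ρ C : ℝ), DataS (SSF.SS A B) (SSF.KK A B) M ρ C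

/-! ## Counting -/

/-- AS4 (from TUP, KIL, KS3, KM3): AS3 with an arbitrary bound `E`. Edit of `SSG/P_AS3.lean`. -/
def T_AS4 : Prop := ∀ (S : Set ℕ) (K : ℕ → ℕ → Prop) (M : ℕ) (ρ Y z Z G P E : ℝ),
  Data S K M ρ → 2 ^ 15 ≤ Y → 3 ≤ z → z ≤ Z → Z ≤ Y / 16 → 0 < G → 8 * Real.log Y ≤ G * z →
  0 ≤ P → P ≤ z →
  (∀ p ∈ S, (p : ℝ) ≤ P →
    G ≤ ∑ l ∈ (LL S z Z).filter (fun l => SSN.ch p l ≠ 1), 1 / (l : ℝ)) →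
  (∀ t ∈ UU S M ρ Y z Z 0, ∃ p ∈ S, ¬ p ∣ dd t ∧ K (dd t) p ∧ (p : ℝ) ≤ E) →
  ((UU S M ρ Y z Z 0).card : ℝ) ≤
    NS S P * (1 + 4 * Y + 8 * (RR S Y / G)) +
    (∑ p ∈ (Icc 1 ⌊Y ^ 2⌋₊).filter (fun p : ℕ => p ∈ S ∧ P < (p : ℝ)),
      (1 + 4 * Y + 60 * (RR S Y / Real.sqrt p))) +
    (∑ p ∈ (Icc 1 ⌊16 * Y ^ 4⌋₊).filter (fun p : ℕ => p ∈ S ∧ Y ^ 2 < (p : ℝ)),
      (1 + 14 * Y ^ 2 / Real.sqrt p)) +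
    NS S E

/-- UP4 (from AS4, LO3, WW3, TUP). Edit of `SSG/P_UP3.lean` (`E = exp (sz C (2 Y^2))`, `sz C` is
monotone on `[1, ∞)`, `dd t ≤ 2 Y^2`). -/
def T_UP4 : Prop := ∀ (S : Set ℕ) (K : ℕ → ℕ → Prop) (M : ℕ) (ρ C : ℝ), DataS S K M ρ C →
  Thn S → ∃ c Y₀ : ℝ, 0 < c ∧ 32 ≤ Y₀ ∧ ∀ Y : ℝ, Y₀ ≤ Y →
    c * (Y ^ 2 / Real.log Y) ≤ NS S (Real.exp (sz C (2 * Y ^ 2)))

/-- DI4 (from TL3, UP4).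

PROOF. `L = log x`, `C' = max C 1`, `Y = L/(16 C' (log L)^2)`. For large `x`: `Y ≥ Y₀`,
`2 Y^2 ≤ L^2`, so `sz C (2 Y^2) ≤ C √2 Y (2 log L)^2 ≤ 6 C Y (log L)^2 ≤ L` and
`NS S x ≥ c Y^2/log Y ≥ c Y^2/log L = c L^2/(256 C'^2 (log L)^5)`. -/
def T_DI4 : Prop := ∀ (S : Set ℕ) (K : ℕ → ℕ → Prop) (M : ℕ) (ρ C : ℝ), DataS S K M ρ C →
  ∀ A : ℝ, 2 < A → (∃ x₀ : ℝ, ∀ x : ℝ, x₀ ≤ x → NS S x ≤ Real.sqrt x / (Real.log x) ^ A) →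
  ∃ c x₁ : ℝ, 0 < c ∧ ∀ x : ℝ, x₁ ≤ x →
    c * ((Real.log x) ^ 2 / (Real.log (Real.log x)) ^ 5) ≤ NS S x

end SSG
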