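import Pool.Agent.SSG.All
import Pool.Agent.SSG.Targets2
import Pool.Agent.SSG.P_SZA
import Pool.Agent.SSG.P_SZS
import Pool.Agent.SSG.P_SZ3
import Pool.Agent.SSG.P_OU3
import Pool.Agent.SSG.P_BR3
import Pool.Agent.SSG.P_DA3
import Pool.Agent.SSG.P_AS4
import Pool.Agent.SSG.P_UP4
import Pool.Agent.SSG.P_TL5
import Pool.Agent.SSG.P_DI5

/-!
# MP_d74fca_nt: the sharper dichotomy, part 2, unconditional (helper75)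
-/

set_option autoImplicit false

namespace SSG.All

open SSF.All SSE.All

theorem a_SZA : SSG.T_SZA := SSG.p_SZA

theorem a_SZS : SSG.T_SZS := SSG.p_SZS

theorem a_SZ3 : SSG.T_SZ3 := SSG.p_SZ3 a_SZA a_SZS SSM_RDS SSM_JBD

theorem a_OU3 : SSG.T_OU3 := SSG.p_OU3 SSM_CMP SSM_PSG SSM_NVN a_SZ3 SSM_JAC

theorem a_BR3 : SSG.T_BR3 := SSG.p_BR3 a_OU3 SSW_CMC

theorem a_DA3 : SSG.T_DA3 := SSG.p_DA3 a_BR3 SSP_KIN SSP_KRM SSP_TWI SSA_SPW SSP_JHP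

theorem a_AS4 : SSG.T_AS4 := SSG.p_AS4 SSC_TUP SSC_KIL a_KS3 a_KM3

theorem a_UP4 : SSG.T_UP4 := SSG.p_UP4 a_AS4 a_LO3 a_WW3 SSC_TUP

theorem a_TL5 : SSG.T_TL5 := SSG.p_TL5

theorem a_DI5 : SSG.T_DI5 := SSG.p_DI5 a_UP4

/-- the dichotomy for the supersingular primes of `y ^ 2 = x ^ 3 + A x + B` -/
theorem dichotomy2 (A B : ℤ) (hA : A ≠ 0) (hB : B ≠ 0) (hd : 4 * A ^ 3 + 27 * B ^ 2 ≠ 0) :
    (∃ c : ℝ, 0 < c ∧ ∀ x₀ : ℝ, ∃ x : ℝ, x₀ ≤ x ∧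
      c * (Real.sqrt x / (Real.log x) ^ 2) < SSC.NS (SSF.SS A B) x) ∨
    (∃ c x₁ : ℝ, 0 < c ∧ ∀ x : ℝ, x₁ ≤ x →
      c * ((Real.log x) ^ 2 / (Real.log (Real.log x)) ^ 5) ≤ SSC.NS (SSF.SS A B) x) := by
  obtain ⟨M, ρ, C, hD⟩ := a_DA3 A B hA hB hd
  by_cases h : ∀ η : ℝ, 0 < η → ∃ x₀ : ℝ, ∀ x : ℝ, x₀ ≤ x →
      SSC.NS (SSF.SS A B) x ≤ η * (Real.sqrt x / (Real.log x) ^ 2)
  · exact Or.inr (a_DI5 _ _ M ρ C hD (a_TL5 _ h))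
  · push Not at h
    exact Or.inl h

end SSG.All
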