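import Pool.Agent.SSG.Targets
import Pool.Agent.SSC.DIC

/-!
# MP_d74fca_nt, SSG-DI3: the sharper dichotomy, last step
-/

set_option autoImplicit false

open scoped BigOperators Classical
open Finset

namespace SSG

open SSC SSE

namespace DI3_

open Filter

lemma main (h2 : T_UP3) (S : Set ℕ) (K : ℕ → ℕ → Prop) (M : ℕ) (ρ : ℝ) (hD : Data S K M ρ)
    (hT : Thn S) (ε₁ δ : ℝ) (hε₁ : 0 < ε₁) (hδ : 0 < δ) :
    ∃ Y₀ : ℝ, ∀ Y : ℝ, Y₀ ≤ Y →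
      Y ^ (2 - δ) ≤ NS S (Real.exp ((2 * Y ^ 2) ^ (1 / 2 + ε₁))) := by
  obtain ⟨c, Y₀, hc, hY₀, H⟩ := h2 S K M ρ hD hT ε₁ hε₁
  obtain ⟨Y₁, hY₁⟩ := Filter.eventually_atTop.1
    ((SSC.DIC_.ev_log_le (1 / c) hδ).and (eventually_ge_atTop Y₀))
  refine ⟨Y₁, fun Y hY => ?_⟩
  obtain ⟨a1, a2⟩ := hY₁ Y hY
  refine le_trans ?_ (H Y a2)
  have hY1 : 1 < Y := by linarith
  have hY0 : 0 < Y := by linarith
  have hl : 0 < Real.log Y := Real.log_pos hY1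
  have hp : 0 < Y ^ δ := Real.rpow_pos_of_pos hY0 δ
  rw [Real.rpow_sub hY0, Real.rpow_two, div_le_iff₀ hp]
  have e : c * (Y ^ 2 / Real.log Y) * Y ^ δ = c * Y ^ δ / Real.log Y * Y ^ 2 := by
    field_simp
  rw [e]
  have h3 : 1 ≤ c * Y ^ δ / Real.log Y := by
    rw [le_div_iff₀ hl, one_mul]
    have h4 := mul_le_mul_of_nonneg_left a1 hc.le
    have h5 : c * (1 / c * Real.log Y) = Real.log Y := by
      field_simp
    rwa [h5] at h4
  exact le_mul_of_one_le_left (by positivity) h3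

end DI3_

open DI3_ in
theorem p_DI3 (h1 : T_TL3) (h2 : T_UP3) : T_DI3 := by
  intro S K M ρ hD A hA hx ε' hε'
  have hSp : ∀ p ∈ S, p.Prime := fun p hp => (hD.2.2.2.1 p hp).1
  have hTh : Thn S := h1 S A hA hSp hx
  obtain ⟨Y₀, H⟩ := main h2 S K M ρ hD hTh (ε' / 16) (ε' / 2) (by positivity) (by positivity)
  -- `Y = (log x) ^ (1 / (1 + ε' / 4))`
  have hb : 0 < 1 / (1 + ε' / 4) := by positivity
  obtain ⟨L₁, hL₁⟩ := Filter.eventually_atTop.1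
    ((Filter.eventually_ge_atTop (1:ℝ)).and ((SSC.DIC_.ev_const Y₀ hb).and
      (SSC.DIC_.ev_const ((2:ℝ) ^ (1 / 2 + ε' / 16))
        (b := 1 / (1 + ε' / 4) * (ε' / 8)) (by positivity))))
  refine ⟨Real.exp L₁, ?_⟩
  intro x hx1
  have hxpos : 0 < x := lt_of_lt_of_le (Real.exp_pos _) hx1
  obtain ⟨a1, a2, a3⟩ := hL₁ (Real.log x) (by rw [Real.le_log_iff_exp_le hxpos]; exact hx1)
  obtain ⟨L, hL⟩ : ∃ L, Real.log x = L := ⟨_, rfl⟩
  rw [hL] at a1 a2 a3 ⊢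
  have hL0 : 0 < L := by linarith
  have hxe : x = Real.exp L := by rw [← hL, Real.exp_log hxpos]
  have h9 := H _ a2
  have e1 : (L ^ (1 / (1 + ε' / 4))) ^ (2 - ε' / 2) = L ^ (1 / (1 + ε' / 4) * (2 - ε' / 2)) := by
    rw [← Real.rpow_mul hL0.le]
  have e2 : L ^ (2 - ε') ≤ L ^ (1 / (1 + ε' / 4) * (2 - ε' / 2)) := by
    apply Real.rpow_le_rpow_of_exponent_le a1
    rw [one_div, inv_mul_eq_div, le_div_iff₀ (by positivity)]
    nlinarith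
  have e3 : ((2:ℝ) * (L ^ (1 / (1 + ε' / 4))) ^ 2) ^ (1 / 2 + ε' / 16) ≤ L := by
    have q1 : (0:ℝ) ≤ L ^ (1 / (1 + ε' / 4)) := Real.rpow_nonneg hL0.le _
    rw [Real.mul_rpow (by norm_num) (by positivity), ← Real.rpow_natCast, ← Real.rpow_mul hL0.le,
      ← Real.rpow_mul hL0.le]
    calc (2:ℝ) ^ (1 / 2 + ε' / 16) *
          L ^ (1 / (1 + ε' / 4) * ((2:ℕ):ℝ) * (1 / 2 + ε' / 16))
        ≤ L ^ (1 / (1 + ε' / 4) * (ε' / 8)) *
          L ^ (1 / (1 + ε' / 4) * ((2:ℕ):ℝ) * (1 / 2 + ε' / 16)) :=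
          mul_le_mul_of_nonneg_right a3 (Real.rpow_nonneg hL0.le _)
      _ = L ^ (1:ℝ) := by
          rw [← Real.rpow_add hL0]
          congr 1
          push_cast
          field_simp
          ring
      _ = L := Real.rpow_one L
  rw [e1] at h9
  refine (e2.trans h9).trans ?_
  rw [hxe]
  exact SSC.DIC_.NS_mono S (Real.exp_le_exp.2 e3)

end SSG
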