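import Pool.Agent.SSG.Targets2
import Pool.Agent.SSC.DIC

/-!
# MP_d74fca_nt, SSG-DI4: the sharper dichotomy with an explicit bound, last step
-/

set_option autoImplicit false

open scoped BigOperators Classical
open Finset

namespace SSG

open SSC SSE

namespace DI4_

open Filter

/-- `L / (log L)^2` tends to infinity -/
lemma ev_big (b : ℝ) : ∀ᶠ L : ℝ in atTop, b ≤ L / (Real.log L) ^ 2 := by
  have h1 : Tendsto (fun L : ℝ => (Real.log L) ^ 2 / L) atTop (nhds 0) := by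
    have := (Real.isLittleO_pow_log_id_atTop (n := 2)).tendsto_div_nhds_zero
    simpa using this
  have h2 : ∀ᶠ L : ℝ in atTop, (Real.log L) ^ 2 / L < 1 / (|b| + 1) :=
    h1.eventually (gt_mem_nhds (by positivity))
  filter_upwards [h2, eventually_gt_atTop (1 : ℝ)] with L h3 h4
  have hl : 0 < Real.log L := Real.log_pos h4
  have hL : 0 < L := by linarith
  rw [div_lt_div_iff₀ hL (by positivity)] at h3
  rw [le_div_iff₀ (by positivity)]
  have h5 : b * (Real.log L) ^ 2 ≤ (|b| + 1) * (Real.log L) ^ 2 :=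
    mul_le_mul_of_nonneg_right (by linarith [le_abs_self b]) (by positivity)
  linarith

end DI4_

open DI4_ in
theorem p_DI4 (h1 : T_TL3) (h2 : T_UP4) : T_DI4 := by
  intro S K M ρ C hD A hA hx
  have hSp : ∀ p ∈ S, p.Prime := fun p hp => (hD.1.2.2.2.1 p hp).1
  have hTh : Thn S := h1 S A hA hSp hx
  obtain ⟨c, Y₀, hc, hY₀, H⟩ := h2 S K M ρ C hD hTh
  have hC : 0 < C := hD.2.1
  obtain ⟨C', hC'⟩ : ∃ C', max C 1 = C' := ⟨_, rfl⟩
  have hC1 : C ≤ C' := hC' ▸ le_max_left C 1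
  have hC2 : 1 ≤ C' := hC' ▸ le_max_right C 1
  have hC0 : 0 < C' := by linarith
  obtain ⟨L₁, hL₁⟩ := Filter.eventually_atTop.1
    ((Filter.eventually_ge_atTop (Real.exp 1)).and (ev_big (16 * C' * Y₀)))
  refine ⟨c / (256 * C' ^ 2), Real.exp L₁, by positivity, ?_⟩
  intro x hx1
  have hxpos : 0 < x := lt_of_lt_of_le (Real.exp_pos _) hx1
  obtain ⟨a1, a2⟩ := hL₁ (Real.log x) (by rw [Real.le_log_iff_exp_le hxpos]; exact hx1)
  obtain ⟨L, hL⟩ : ∃ L, Real.log x = L := ⟨_, rfl⟩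
  rw [hL] at a1 a2 ⊢
  have hL0 : 0 < L := lt_of_lt_of_le (Real.exp_pos 1) a1
  have hxe : x = Real.exp L := by rw [← hL, Real.exp_log hxpos]
  have hl1 : 1 ≤ Real.log L := by
    rw [Real.le_log_iff_exp_le hL0]
    exact a1
  obtain ⟨l, hl⟩ : ∃ l, Real.log L = l := ⟨_, rfl⟩
  rw [hl] at a2 hl1 ⊢
  have hl0 : 0 < l := by linarith
  obtain ⟨Y, hY⟩ : ∃ Y, L / (16 * C' * l ^ 2) = Y := ⟨_, rfl⟩
  have hYY : Y₀ ≤ Y := by
    rw [← hY, le_div_iff₀ (by positivity)]
    rw [le_div_iff₀ (by positivity)] at a2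
    linarith
  have hY32 : 32 ≤ Y := hY₀.trans hYY
  have hY0 : 0 < Y := by linarith
  have hYl : Y * (16 * C' * l ^ 2) = L := by
    rw [← hY]
    field_simp
  have hl2 : 1 ≤ l ^ 2 := one_le_pow₀ hl1
  have hYL : 16 * Y ≤ L := by
    have h3 : 1 ≤ C' * l ^ 2 := by nlinarith
    nlinarith
  have hlY : Real.log Y ≤ l := by
    rw [← hl]
    exact Real.log_le_log hY0 (by linarith)
  have hlY0 : 0 < Real.log Y := Real.log_pos (by linarith)
  have hsz : sz C (2 * Y ^ 2) ≤ L := by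
    have h3 : Real.sqrt (2 * Y ^ 2) ≤ 2 * Y := by
      rw [Real.sqrt_le_left (by positivity)]
      nlinarith
    have h4 : Real.log (2 * Y ^ 2) ≤ 2 * l := by
      rw [← hl]
      have h5 : 2 * Y ^ 2 ≤ L ^ 2 := by nlinarith
      have h6 := Real.log_le_log (by positivity) h5
      rwa [Real.log_pow, Nat.cast_ofNat] at h6
    have h5 : 0 ≤ Real.log (2 * Y ^ 2) := Real.log_nonneg (by nlinarith)
    have h6 : (Real.log (2 * Y ^ 2)) ^ 2 ≤ (2 * l) ^ 2 := pow_le_pow_left₀ h5 h4 2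
    calc sz C (2 * Y ^ 2) = C * (Real.sqrt (2 * Y ^ 2) * (Real.log (2 * Y ^ 2)) ^ 2) := rfl
      _ ≤ C' * ((2 * Y) * (2 * l) ^ 2) := by
          apply mul_le_mul hC1 _ (by positivity) hC0.le
          exact mul_le_mul h3 h6 (by positivity) (by positivity)
      _ = Y * (16 * C' * l ^ 2) / 2 := by ring
      _ ≤ L := by rw [hYl]; linarith
  have h9 := H Y hYY
  have h10 : NS S (Real.exp (sz C (2 * Y ^ 2))) ≤ NS S x := by
    rw [hxe]
    exact SSC.DIC_.NS_mono S (Real.exp_le_exp.2 hsz)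
  refine le_trans ?_ (h9.trans h10)
  have h11 : c * (Y ^ 2 / l) ≤ c * (Y ^ 2 / Real.log Y) := by
    apply mul_le_mul_of_nonneg_left _ hc.le
    exact div_le_div_of_nonneg_left (by positivity) hlY0 hlY
  refine le_trans (le_of_eq ?_) h11
  rw [← hY]
  field_simp
  ring

end SSG
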