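import Pool.Agent.SSG.Targets
import Pool.Agent.SSE.DI2

/-!
# MP_d74fca_nt, sharper dichotomy, target UP3: the assembly of the upper bound
-/

set_option autoImplicit false

open scoped BigOperators Classical
open Finset

namespace SSG

open SSC SSE

namespace UP3_

open Filter

/-- the conditions for large `L = log Y` -/
structure Good (P c G L : ℝ) : Prop where
  g1 : 1 ≤ L
  g2 : max P 3 ≤ Real.exp (L ^ (1 / 4 : ℝ))
  g3 : 16 * Real.exp (L ^ (1 / 2 : ℝ)) ≤ Real.exp L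
  g4 : 8 * L ≤ G * Real.exp (L ^ (1 / 4 : ℝ))
  g5 : 80 * P * L ≤ c ^ 2 * Real.exp L

lemma ev_good {P c G : ℝ} (hc : 0 < c) (hG : 0 < G) : ∀ᶠ L : ℝ in atTop, Good P c G L := by
  have hq : (0:ℝ) < 1 / 4 := by norm_num
  have hhalf : (1 / 2 : ℝ) < 1 := by norm_num
  filter_upwards [eventually_ge_atTop (1:ℝ), SSE.DI2_.ev_main (max P 3) 0 one_pos hq,
    SSC.DIC_.ev_rpow_le 4 hhalf, SSE.DI2_.ev_main (8 / G) 1 one_pos hq,
    SSE.DI2_.ev_main (80 * P / c ^ 2) 1 one_pos one_pos] with L a1 a2 a3 a4 a5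
  rw [pow_zero, mul_one, one_mul] at a2
  rw [pow_one, one_mul] at a4
  rw [pow_one, one_mul, Real.rpow_one] at a5
  rw [Real.rpow_one] at a3
  refine ⟨a1, a2, ?_, ?_, ?_⟩
  · have h1 : (1:ℝ) ≤ L ^ (1 / 2 : ℝ) := Real.one_le_rpow a1 (by norm_num)
    have h2 : (16:ℝ) ≤ Real.exp (3 * L ^ (1 / 2 : ℝ)) := by
      have h3 : Real.exp 3 ≤ Real.exp (3 * L ^ (1 / 2 : ℝ)) := Real.exp_le_exp.2 (by linarith)
      have h4 : (16:ℝ) ≤ Real.exp 3 := by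
        have := Real.exp_one_gt_d9
        have h5 : Real.exp 3 = Real.exp 1 ^ 3 := by rw [← Real.exp_nat_mul]; norm_num
        rw [h5]
        have h6 : (2.7:ℝ) ^ 3 ≤ Real.exp 1 ^ 3 := pow_le_pow_left₀ (by norm_num) (by linarith) 3
        norm_num at h6 ⊢
        linarith
      linarith
    calc 16 * Real.exp (L ^ (1 / 2 : ℝ))
        ≤ Real.exp (3 * L ^ (1 / 2 : ℝ)) * Real.exp (L ^ (1 / 2 : ℝ)) :=
          mul_le_mul_of_nonneg_right h2 (Real.exp_pos _).le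
      _ = Real.exp (4 * L ^ (1 / 2 : ℝ)) := by
          rw [← Real.exp_add]
          congr 1
          ring
      _ ≤ Real.exp L := Real.exp_le_exp.2 a3
  · rw [div_mul_eq_mul_div, div_le_iff₀ hG] at a4
    linarith
  · rw [div_mul_eq_mul_div, div_le_iff₀ (by positivity)] at a5
    linarith

lemma NS_le (S : Set ℕ) (hS : ∀ p ∈ S, p.Prime) {P : ℝ} (hP : 0 ≤ P) : NS S P ≤ P := by
  unfold NS
  have h1 : {p : ℕ | p ∈ S ∧ (p : ℝ) ≤ P} ⊆ ((Icc 1 ⌊P⌋₊ : Finset ℕ) : Set ℕ) := by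
    rintro p ⟨h1, h2⟩
    rw [Finset.coe_Icc, Set.mem_Icc]
    exact ⟨(hS p h1).one_lt.le, Nat.le_floor h2⟩
  have h2 := Set.ncard_le_ncard h1 (Finset.finite_toSet _)
  rw [Set.ncard_coe_finset, Nat.card_Icc, Nat.add_sub_cancel] at h2
  calc (({p : ℕ | p ∈ S ∧ (p : ℝ) ≤ P}.ncard : ℕ) : ℝ) ≤ (⌊P⌋₊ : ℝ) := by exact_mod_cast h2
    _ ≤ P := Nat.floor_le hP

/-- the primes up to `Y ^ 2` -/
lemma sum_mid (S : Set ℕ) (Q : Finset ℕ) {Y P R B c : ℝ} (hR : 0 ≤ R) (hY : 1 ≤ Y)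
    (hQ : ∀ p ∈ Q, p ∈ S ∧ (p : ℝ) ≤ Y ^ 2 ∧ P < (p : ℝ)) (hNS : NS S (Y ^ 2) ≤ B)
    (hT : ∀ I : Finset ℕ, (∀ p ∈ I, p ∈ S ∧ P < (p : ℝ)) →
      ∑ p ∈ I, 1 / Real.sqrt p ≤ c / 480) :
    ∑ p ∈ Q, (1 + 4 * Y + 60 * (R / Real.sqrt p)) ≤ 5 * Y * B + c / 8 * R := by
  have h1 : ∑ p ∈ Q, (1 + 4 * Y + 60 * (R / Real.sqrt p)) =
      (Q.card : ℝ) * (1 + 4 * Y) + 60 * R * ∑ p ∈ Q, 1 / Real.sqrt p := by
    rw [Finset.sum_add_distrib, Finset.sum_const, nsmul_eq_mul, Finset.mul_sum]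
    congr 1
    apply Finset.sum_congr rfl
    intro p _
    ring
  rw [h1]
  have h2 : (Q.card : ℝ) ≤ B :=
    (SSC.DIC_.card_le_NS S (Y ^ 2) Q fun p hp => ⟨(hQ p hp).1, (hQ p hp).2.1⟩).trans hNS
  have hc0 : (0:ℝ) ≤ (Q.card : ℝ) := Nat.cast_nonneg _
  have h3 := hT Q fun p hp => ⟨(hQ p hp).1, (hQ p hp).2.2⟩
  have h4 : (Q.card : ℝ) * (1 + 4 * Y) ≤ B * (5 * Y) :=
    mul_le_mul h2 (by linarith) (by linarith) (hc0.trans h2)
  have h5 := mul_le_mul_of_nonneg_left h3 (show 0 ≤ 60 * R by positivity)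
  linarith

/-- the primes beyond `Y ^ 2` -/
lemma sum_far (S : Set ℕ) (Q : Finset ℕ) {Y U B1 B2 : ℝ}
    (hQ : ∀ p ∈ Q, p ∈ S ∧ (p : ℝ) ≤ U ∧ Y ^ 2 < (p : ℝ)) (hNS : NS S U ≤ B1)
    (hT : ∀ I : Finset ℕ, (∀ p ∈ I, p ∈ S ∧ Y ^ 2 < (p : ℝ)) →
      ∑ p ∈ I, 1 / Real.sqrt p ≤ B2) :
    ∑ p ∈ Q, (1 + 14 * Y ^ 2 / Real.sqrt p) ≤ B1 + 14 * Y ^ 2 * B2 := by
  have h1 : ∑ p ∈ Q, (1 + 14 * Y ^ 2 / Real.sqrt p) =
      (Q.card : ℝ) + 14 * Y ^ 2 * ∑ p ∈ Q, 1 / Real.sqrt p := by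
    rw [Finset.sum_add_distrib, Finset.sum_const, nsmul_eq_mul, mul_one, Finset.mul_sum]
    congr 1
    apply Finset.sum_congr rfl
    intro p _
    ring
  rw [h1]
  have h2 : (Q.card : ℝ) ≤ B1 :=
    (SSC.DIC_.card_le_NS S U Q fun p hp => ⟨(hQ p hp).1, (hQ p hp).2.1⟩).trans hNS
  have h3 := hT Q fun p hp => ⟨(hQ p hp).1, (hQ p hp).2.2⟩
  have h4 := mul_le_mul_of_nonneg_left h3 (show 0 ≤ 14 * Y ^ 2 by positivity)
  linarith

end UP3_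

open UP3_ in
theorem p_UP3 (h1 : T_AS3) (h2 : T_LO3) (h3 : T_WW3) (h4 : SSC.T_TUP) : T_UP3 := by
  intro S K M ρ hD hT ε hε
  obtain ⟨hM, hρ1, hρ2, hS, hKill, -⟩ := id hD
  have hSp : ∀ p ∈ S, p.Prime := fun p hp => (hS p hp).1
  obtain ⟨c, YL, hc, hYL, hLO⟩ := h2 S M ρ hT hS hM hρ1 hρ2
  obtain ⟨P, hP3, hPT⟩ := hT (c / 480) (by positivity)
  obtain ⟨x₂, hx₂, hT2⟩ := hT (c ^ 2 / 200) (by positivity)
  obtain ⟨D₀, hD₀⟩ := hKill ε hε
  have hP0 : 0 ≤ P := by linarith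
  obtain ⟨G, hG⟩ : ∃ G, 64 * (P + 1) / c = G := ⟨_, rfl⟩
  have hGpos : 0 < G := by rw [← hG]; positivity
  obtain ⟨YW, hWW⟩ := h3 S hT hS G
  obtain ⟨L₀, hL₀⟩ := Filter.eventually_atTop.1 (ev_good (P := P) hc hGpos)
  have htail : ∀ I : Finset ℕ, (∀ p ∈ I, p ∈ S ∧ P < (p : ℝ)) →
      ∑ p ∈ I, 1 / Real.sqrt p ≤ c / 480 := by
    intro I hI
    refine ((hPT P le_rfl).2 I hI).trans ?_
    have hl : 1 ≤ Real.log P := by
      rw [Real.le_log_iff_exp_le (by linarith)]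
      have := Real.exp_one_lt_d9
      linarith
    exact div_le_self (by positivity) hl
  refine ⟨c ^ 2 / 2, max (max (max YL YW) (max x₂ (Real.exp L₀))) (256 * (D₀ + 1)),
    by positivity, ?_, ?_⟩
  · refine le_trans ?_ (le_max_right _ _)
    have : (0:ℝ) ≤ D₀ := Nat.cast_nonneg _
    linarith
  intro Y hY
  have hYL' : YL ≤ Y := le_trans (le_max_left _ _) (le_trans (le_max_left _ _)
    (le_trans (le_max_left _ _) hY))
  have hYW : YW ≤ Y := le_trans (le_max_right _ _) (le_trans (le_max_left _ _)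
    (le_trans (le_max_left _ _) hY))
  have hYx : x₂ ≤ Y := le_trans (le_max_left _ _) (le_trans (le_max_right _ _)
    (le_trans (le_max_left _ _) hY))
  have hYe0 : Real.exp L₀ ≤ Y := le_trans (le_max_right _ _) (le_trans (le_max_right _ _)
    (le_trans (le_max_left _ _) hY))
  have hYD : 256 * ((D₀:ℝ) + 1) ≤ Y := le_trans (le_max_right _ _) hY
  clear hY
  have hY15 : (2:ℝ) ^ 15 ≤ Y := hYL.trans hYL'
  have hY32 : 32 ≤ Y := by
    have : (32:ℝ) ≤ 2 ^ 15 := by norm_num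
    linarith
  have hYpos : 0 < Y := by linarith
  have hY1 : 1 ≤ Y := by linarith
  obtain ⟨hLO1, hLO2⟩ := hLO Y hYL'
  obtain ⟨L, hL⟩ : ∃ L, Real.log Y = L := ⟨_, rfl⟩
  have hYe : Y = Real.exp L := by rw [← hL, Real.exp_log hYpos]
  obtain ⟨g1, g2, g3, g4, g5⟩ := hL₀ L (by rw [← hL, Real.le_log_iff_exp_le hYpos]; exact hYe0)
  have hLpos : 0 < L := by linarith
  obtain ⟨z, hz⟩ : ∃ z, z4 Y = z := ⟨_, rfl⟩
  obtain ⟨Z, hZ⟩ : ∃ Z, Z2 Y = Z := ⟨_, rfl⟩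
  have hzL : Real.exp (L ^ (1 / 4 : ℝ)) = z := by rw [← hz, z4, hL]
  have hZL : Real.exp (L ^ (1 / 2 : ℝ)) = Z := by rw [← hZ, Z2, hL]
  rw [hzL] at g2 g4
  rw [hZL, ← hYe] at g3
  rw [← hYe] at g5
  have hW := hWW Y hYW
  rw [hz, hZ] at hW
  have hPz : P ≤ z := (le_max_left _ _).trans g2
  have hz3 : 3 ≤ z := (le_max_right _ _).trans g2
  have hzZ : z ≤ Z := by
    rw [← hzL, ← hZL]
    exact Real.exp_le_exp.2 (Real.rpow_le_rpow_of_exponent_le g1 (by norm_num))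
  have hZY : Z ≤ Y / 16 := by
    rw [le_div_iff₀ (by norm_num)]
    linarith
  obtain ⟨hT1, -, -⟩ := h4 S M ρ Y z Z 0 hSp hM hρ1 hρ2 hY32 (by linarith) hzZ (by
    rw [pow_zero, le_div_iff₀ (by norm_num)]
    linarith)
  have hkill : ∀ t ∈ UU S M ρ Y z Z 0, ∃ p ∈ S, ¬ p ∣ dd t ∧ K (dd t) p ∧
      (p : ℝ) ≤ Real.exp ((2 * Y ^ 2) ^ (1 / 2 + ε)) := by
    intro t ht
    obtain ⟨q1, q2, q3, q4, -⟩ := hT1 t ht
    have q5 : D₀ ≤ dd t := by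
      have : (D₀:ℝ) ≤ dd t := by
        refine le_trans ?_ q4
        rw [le_div_iff₀ (by norm_num)]
        have h9 : Y ≤ Y ^ 2 := by
          rw [sq]
          exact le_mul_of_one_le_right hYpos.le (by linarith)
        linarith
      exact_mod_cast this
    rcases hD₀ (dd t) q5 q1 with ⟨q, hq, hqd⟩ | ⟨p, hp, hpd, hK, hple⟩
    · exact absurd hqd (q2 q hq)
    · refine ⟨p, hp, hpd, hK, hple.trans (Real.exp_le_exp.2 ?_)⟩
      exact Real.rpow_le_rpow (by positivity) q3 (by positivity)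
  have hAS := h1 S K M ρ ε Y z Z G P hD hY15 hz3 hzZ hZY hGpos (by rw [hL]; exact g4) hP0 hPz hε
    (fun p hp hpP => hW p hp (hpP.trans hPz)) hkill
  have hUU := hLO2 z Z
  obtain ⟨R, hR⟩ : ∃ R, RR S Y = R := ⟨_, rfl⟩
  obtain ⟨W, hWd⟩ : ∃ W, Y ^ 2 / L = W := ⟨_, rfl⟩
  rw [hR] at hAS hUU hLO1
  rw [hL] at hLO1 ⊢
  rw [hWd] at hLO1 ⊢
  have hWpos : 0 < W := by rw [← hWd]; positivity
  have hRpos : 0 < R := lt_of_lt_of_le (by positivity) hLO1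
  -- the counting function at `Y ^ 2` and `16 * Y ^ 4`
  have hYY : Y ≤ Y ^ 2 := by
    rw [sq]
    exact le_mul_of_one_le_right hYpos.le hY1
  obtain ⟨n1, n2⟩ := hT2 (Y ^ 2) (hYx.trans hYY)
  have hlog2 : Real.log (Y ^ 2) = 2 * L := by
    rw [Real.log_pow, hL]
    norm_num
  rw [hlog2] at n1 n2
  rw [Real.sqrt_sq hYpos.le] at n1
  have hY4 : Y ≤ 16 * Y ^ 4 := by
    have h5 : Y ^ 2 ≤ Y ^ 4 := pow_le_pow_right₀ hY1 (by norm_num)
    have h6 : 0 ≤ Y ^ 4 := by positivity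
    linarith
  have n3 := (hT2 (16 * Y ^ 4) (hYx.trans hY4)).1
  have hsq4 : Real.sqrt (16 * Y ^ 4) = 4 * Y ^ 2 := by
    have h5 : 16 * Y ^ 4 = (4 * Y ^ 2) ^ 2 := by ring
    rw [h5, Real.sqrt_sq (by positivity)]
  have hlog4 : 4 * L ≤ Real.log (16 * Y ^ 4) := by
    rw [Real.log_mul (by norm_num) (by positivity), Real.log_pow, hL]
    have h5 : 0 ≤ Real.log 16 := Real.log_nonneg (by norm_num)
    push_cast
    linarith
  rw [hsq4] at n3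
  have n4 : NS S (16 * Y ^ 4) ≤ c ^ 2 / 200 * W := by
    refine n3.trans ?_
    apply mul_le_mul_of_nonneg_left _ (by positivity)
    rw [← hWd]
    calc 4 * Y ^ 2 / Real.log (16 * Y ^ 4) ≤ 4 * Y ^ 2 / (4 * L) :=
          div_le_div_of_nonneg_left (by positivity) (by positivity) hlog4
      _ = Y ^ 2 / L := by
          field_simp
  have hmid := sum_mid S ((Icc 1 ⌊Y ^ 2⌋₊).filter (fun p : ℕ => p ∈ S ∧ P < (p : ℝ)))
    (Y := Y) (P := P) (R := R) hRpos.le hY1 (by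
      intro p hp
      obtain ⟨hp1, hp2, hp3⟩ := Finset.mem_filter.1 hp
      exact ⟨hp2, (Nat.le_floor_iff (by positivity)).1 (Finset.mem_Icc.1 hp1).2, hp3⟩) n1 htail
  have hfar := sum_far S ((Icc 1 ⌊16 * Y ^ 4⌋₊).filter (fun p : ℕ => p ∈ S ∧ Y ^ 2 < (p : ℝ)))
    (Y := Y) (U := 16 * Y ^ 4) (by
      intro p hp
      obtain ⟨hp1, hp2, hp3⟩ := Finset.mem_filter.1 hp
      exact ⟨hp2, (Nat.le_floor_iff (by positivity)).1 (Finset.mem_Icc.1 hp1).2, hp3⟩) n4 n2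
  -- the terms
  have hNP := NS_le S hSp hP0
  have hNP0 : 0 ≤ NS S P := by
    unfold NS
    exact Nat.cast_nonneg _
  have hcW : c * (c * W) ≤ c * R := mul_le_mul_of_nonneg_left hLO1 hc.le
  have t1 : NS S P * (1 + 4 * Y) ≤ c / 16 * R := by
    have s1 : NS S P * (1 + 4 * Y) ≤ P * (5 * Y) :=
      mul_le_mul hNP (by linarith) (by linarith) hP0
    have s2 : P * (5 * Y) ≤ c ^ 2 / 16 * W := by
      rw [← hWd, mul_div_assoc', le_div_iff₀ hLpos]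
      have s3 := mul_le_mul_of_nonneg_right g5 hYpos.le
      nlinarith
    have s4 : c ^ 2 / 16 * W = (c * (c * W)) / 16 := by ring
    rw [s4] at s2
    linarith
  have t2 : NS S P * (8 * (R / G)) ≤ c / 8 * R := by
    have s1 : NS S P * (8 * (R / G)) ≤ (P + 1) * (8 * (R / G)) :=
      mul_le_mul_of_nonneg_right (by linarith) (by positivity)
    have s2 : (P + 1) * (8 * (R / G)) = c / 8 * R := by
      have hP1 : P + 1 ≠ 0 := by linarith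
      rw [← hG]
      field_simp
      ring
    linarith
  have t3 : 5 * Y * (c ^ 2 / 200 * (Y / (2 * L))) = (c * (c * W)) / 80 := by
    rw [← hWd]
    field_simp
    ring
  have t4 : 14 * Y ^ 2 * (c ^ 2 / 200 / (2 * L)) = 7 * ((c * (c * W)) / 200) := by
    rw [← hWd]
    field_simp
    ring
  rw [t3] at hmid
  rw [t4] at hfar
  have hexp : NS S P * (1 + 4 * Y + 8 * (R / G)) =
      NS S P * (1 + 4 * Y) + NS S P * (8 * (R / G)) := by ring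
  rw [hexp] at hAS
  have hcc : c ^ 2 / 2 * W = (c * (c * W)) / 2 := by ring
  have hcc2 : c ^ 2 / 200 * W = (c * (c * W)) / 200 := by ring
  rw [hcc2] at hfar
  rw [hcc]
  have hcR : 0 < c * R := mul_pos hc hRpos
  linarith

end SSG
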